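import Pool.Agent.Helper75.Lamm.CF

/-!
# Moves between continued fractions with positive entries

`words`: two nonempty lists of positive integers with the same numerator `p` and denominators
`q`, `q'` with `q' = ± q ^ (± 1)` modulo `p` are connected by the moves `Mv`.
-/

namespace Pool.Agent.Helper75.Lamm

/-- Elementary moves between nonempty lists of positive integers: reversal,
`[..., y, 1] = [..., y + 1]`, and `[1, y, ...]`, the mirror image of `[y + 1, ...]`. -/
inductive Mv : List ℕ → List ℕ → Prop
  | rev (a : List ℕ) (h : ∀ x ∈ a, 0 < x) (hne : a ≠ []) : Mv a a.reverse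
  | last (l : List ℕ) (y : ℕ) (h : ∀ x ∈ l ++ [y], 0 < x) : Mv (l ++ [y, 1]) (l ++ [y + 1])
  | first (y : ℕ) (l : List ℕ) (h : ∀ x ∈ y :: l, 0 < x) : Mv (1 :: y :: l) ((y + 1) :: l)

theorem Mv.num {a b : List ℕ} (h : Mv a b) : (cf a).1 = (cf b).1 := by
  cases h with
  | rev _ _ => exact (cf_reverse_num a).symm
  | last l y _ => rw [cf_last]
  | first y l _ => exact (cf_first y l).1

theorem Mv.same {a b : List ℕ} (h : Mv a b) : SameKnot (cf a).1 (cf a).2 (cf b).2 := by
  cases h with
  | rev _ _ => exact cf_reverse a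
  | last l y _ => rw [cf_last]; exact SameKnot.refl _ _
  | first y l _ =>
    rw [(cf_first y l).1]
    exact (cf_first y l).2.symm

theorem Mv.num_eqv {a b : List ℕ} (h : Relation.EqvGen Mv a b) : (cf a).1 = (cf b).1 := by
  induction h with
  | rel _ _ h => exact h.num
  | refl _ => rfl
  | symm _ _ _ ih => exact ih.symm
  | trans _ _ _ _ _ ih1 ih2 => exact ih1.trans ih2

theorem Mv.same_eqv {a b : List ℕ} (h : Relation.EqvGen Mv a b) :
    SameKnot (cf a).1 (cf a).2 (cf b).2 := by
  induction h with
  | rel _ _ h => exact h.same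
  | refl _ => exact SameKnot.refl _ _
  | symm _ _ h ih => rw [← Mv.num_eqv h]; exact ih.symm
  | trans _ _ _ h1 h2 ih1 ih2 =>
    refine SameKnot.trans ih1 ?_
    rw [Mv.num_eqv h1]
    exact ih2

/-- all entries positive, first and last entry at least `2` -/
def Can (l : List ℕ) : Prop :=
  (∀ x ∈ l, 0 < x) ∧ (∃ x t, l = x :: t ∧ 2 ≤ x) ∧ ∃ x t, l = t ++ [x] ∧ 2 ≤ x

theorem normalize : ∀ (n : ℕ) (a : List ℕ), a.length = n → a ≠ [] → (∀ x ∈ a, 0 < x) →
    ∃ c, (c = [1] ∨ Can c) ∧ Relation.EqvGen Mv a c := by
  intro n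
  induction n using Nat.strong_induction_on with
  | _ n ih =>
    intro a hn hne hpos
    match a, hne with
    | [x], _ =>
      refine ⟨[x], ?_, Relation.EqvGen.refl _⟩
      have hx := hpos x (by simp)
      by_cases h1 : x = 1
      · left; rw [h1]
      · right
        exact ⟨hpos, ⟨x, [], rfl, by omega⟩, ⟨x, [], rfl, by omega⟩⟩
    | x :: y :: l, _ =>
      by_cases hx1 : x = 1
      · subst hx1
        have hp' : ∀ z ∈ y :: l, 0 < z := fun z hz => hpos z (List.mem_cons_of_mem _ hz)
        obtain ⟨c, hc, hc'⟩ := ih (n - 1) (by simp at hn; omega) ((y + 1) :: l)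
          (by simp at hn ⊢; omega) (by simp) (by
            intro z hz
            rcases List.mem_cons.1 hz with h | h
            · omega
            · exact hp' z (List.mem_cons_of_mem _ h))
        exact ⟨c, hc, Relation.EqvGen.trans _ _ _ (Relation.EqvGen.rel _ _ (Mv.first y l hp')) hc'⟩
      · obtain ⟨t, z, ht⟩ : ∃ t z, x :: y :: l = t ++ [z] := by
          have h := List.dropLast_append_getLast (l := x :: y :: l) (by simp)
          exact ⟨_, _, h.symm⟩
        have hz := hpos z (by rw [ht]; simp)
        by_cases hz1 : z = 1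
        · subst hz1
          have htne : t ≠ [] := by
            rintro rfl
            simp at ht
          obtain ⟨s, w, hs⟩ : ∃ s w, t = s ++ [w] := ⟨_, _, (List.dropLast_append_getLast htne).symm⟩
          subst hs
          have hp' : ∀ v ∈ s ++ [w], 0 < v := by
            intro v hv
            apply hpos
            rw [ht]
            exact List.mem_append_left _ hv
          have he : x :: y :: l = s ++ [w, 1] := by rw [ht]; simp
          obtain ⟨c, hc, hc'⟩ := ih (n - 1) (by simp at hn; omega) (s ++ [w + 1])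
            (by
              have := congrArg List.length he
              simp at this hn ⊢
              omega) (by simp) (by
            intro v hv
            rcases List.mem_append.1 hv with h | h
            · exact hp' v (List.mem_append_left _ h)
            · simp at h; omega)
          refine ⟨c, hc, Relation.EqvGen.trans _ _ _ (Relation.EqvGen.rel _ _ ?_) hc'⟩
          rw [he]
          exact Mv.last s w hp'
        · refine ⟨x :: y :: l, Or.inr ⟨hpos, ⟨x, _, rfl, ?_⟩, ⟨z, t, ht, by omega⟩⟩,
            Relation.EqvGen.refl _⟩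
          have := hpos x (by simp)
          omega

theorem cf_pos : ∀ {l : List ℕ}, (∀ x ∈ l, 0 < x) → 0 < (cf l).1
  | [], _ => by simp [cf]
  | x :: l, h => by
    have h1 := cf_pos (l := l) fun y hy => h y (List.mem_cons_of_mem _ hy)
    have h2 := h x (by simp)
    simp only [cf]
    positivity

theorem cf_den_pos {l : List ℕ} (hl : l ≠ []) (h : ∀ x ∈ l, 0 < x) : 0 < (cf l).2 := by
  match l, hl with
  | x :: l, _ => exact cf_pos fun y hy => h y (List.mem_cons_of_mem _ hy)

/-- for lists ending with an entry at least `2` -/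
theorem cf_den_lt : ∀ {l : List ℕ}, (∀ x ∈ l, 0 < x) → (∃ x t, l = t ++ [x] ∧ 2 ≤ x) →
    (cf l).2 < (cf l).1
  | [], _, h => by
    obtain ⟨x, t, ht, _⟩ := h
    simp at ht
  | [y], _, h => by
    obtain ⟨x, t, ht, hx⟩ := h
    have : t = [] ∧ y = x := by
      cases t with
      | nil => simpa using ht
      | cons _ _ => simp at ht
    rw [this.2]
    simp only [cf]
    omega
  | y :: z :: l, hp, _ => by
    have hy := hp y (by simp)
    have h1 : 0 < (cf (z :: l)).2 := cf_den_pos (by simp) fun v hv =>
      hp v (List.mem_cons_of_mem _ hv)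
    show (cf (z :: l)).1 < y * (cf (z :: l)).1 + (cf (z :: l)).2
    nlinarith

theorem last_tail {x : ℕ} {l : List ℕ} (hl : l ≠ []) (h : ∃ y t, x :: l = t ++ [y] ∧ 2 ≤ y) :
    ∃ y t, l = t ++ [y] ∧ 2 ≤ y := by
  obtain ⟨y, t, ht, hy⟩ := h
  match t with
  | [] =>
    simp at ht
    exact absurd ht.2 hl
  | z :: t =>
    simp at ht
    exact ⟨y, t, ht.2, hy⟩

theorem cf_inj : ∀ {l l' : List ℕ}, (∀ x ∈ l, 0 < x) → (∀ x ∈ l', 0 < x) →
    (∃ x t, l = t ++ [x] ∧ 2 ≤ x) → (∃ x t, l' = t ++ [x] ∧ 2 ≤ x) → cf l = cf l' → l = l'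
  | [], _, _, _, h, _, _ => by
    obtain ⟨x, t, ht, _⟩ := h
    simp at ht
  | _, [], _, _, _, h, _ => by
    obtain ⟨x, t, ht, _⟩ := h
    simp at ht
  | x :: l, y :: l', hp, hp', hl, hl', he => by
    have e1 : x * (cf l).1 + (cf l).2 = y * (cf l').1 + (cf l').2 := congrArg Prod.fst he
    have e2 : (cf l).1 = (cf l').1 := congrArg Prod.snd he
    have q1 : ∀ z ∈ l, 0 < z := fun z hz => hp z (List.mem_cons_of_mem _ hz)
    have q2 : ∀ z ∈ l', 0 < z := fun z hz => hp' z (List.mem_cons_of_mem _ hz)
    by_cases h1 : l = []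
    · subst h1
      by_cases h2 : l' = []
      · subst h2
        simp [cf] at e1
        rw [e1]
      · have h3 := cf_den_lt q2 (last_tail h2 hl')
        have h4 := cf_den_pos h2 q2
        simp only [cf] at e2
        omega
    · have h3 := cf_den_lt q1 (last_tail h1 hl)
      by_cases h2 : l' = []
      · subst h2
        have h4 := cf_den_pos h1 q1
        simp only [cf] at e2
        omega
      · have h5 := cf_den_lt q2 (last_tail h2 hl')
        have hxy : x = y := by
          rw [e2] at e1 h3
          rcases lt_trichotomy x y with h | h | h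
          · nlinarith
          · exact h
          · nlinarith
        subst hxy
        have e3 : (cf l).2 = (cf l').2 := by
          rw [e2] at e1
          omega
        rw [cf_inj q1 q2 (last_tail h1 hl) (last_tail h2 hl') (Prod.ext e2 e3)]

theorem Can.two_mul_le {l : List ℕ} (h : Can l) : 2 * (cf l).2 ≤ (cf l).1 := by
  obtain ⟨_, ⟨x, t, rfl, hx⟩, _⟩ := h
  show 2 * (cf t).1 ≤ x * (cf t).1 + (cf t).2
  nlinarith

theorem Can.ne_nil {l : List ℕ} (h : Can l) : l ≠ [] := by
  obtain ⟨_, ⟨x, t, rfl, hx⟩, _⟩ := h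
  simp

theorem Can.reverse {l : List ℕ} (h : Can l) : Can l.reverse := by
  obtain ⟨h1, ⟨x, t, e1, hx⟩, ⟨y, s, e2, hy⟩⟩ := h
  refine ⟨fun z hz => h1 z (List.mem_reverse.1 hz), ⟨y, s.reverse, ?_, hy⟩,
    ⟨x, t.reverse, ?_, hx⟩⟩
  · rw [e2]; simp
  · rw [e1]; simp

theorem Can.two_le {l : List ℕ} (h : Can l) : 2 ≤ (cf l).1 := by
  have h1 := h.two_mul_le
  have h2 := cf_den_pos h.ne_nil h.1
  omega

/-- the denominator of the reversed list is an inverse up to sign -/
theorem reverse_den (l : List ℕ) :
    ((cf l.reverse).2 : ZMod (cf l).1) * ((cf l).2 : ZMod (cf l).1) = 1 ∨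
    ((cf l.reverse).2 : ZMod (cf l).1) * ((cf l).2 : ZMod (cf l).1) = -1 := by
  have h1 := (cf_mat l).1
  have h2 := (cf_mat l).2
  have h3 := (cf_mat l.reverse).2
  rw [mat_reverse, Matrix.transpose_apply] at h3
  have h4 := det_mat l
  rw [Matrix.det_fin_two, ← h1, ← h2, ← h3] at h4
  rcases h4 with h4 | h4
  · right
    have h5 := congrArg (fun t : ℤ => (t : ZMod (cf l).1)) h4
    push_cast at h5
    rw [ZMod.natCast_self, zero_mul, zero_sub] at h5
    rw [← h5]; ring
  · left
    have h5 := congrArg (fun t : ℤ => (t : ZMod (cf l).1)) h4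
    push_cast at h5
    rw [ZMod.natCast_self, zero_mul, zero_sub] at h5
    have h6 : -(((cf l.reverse).2 : ZMod (cf l).1) * ((cf l).2 : ZMod (cf l).1)) = -1 := h5
    linear_combination -h6

/-- small representatives -/
theorem small_eq {p q r : ℕ} (hq0 : 0 < q) (hr0 : 0 < r) (hq : 2 * q ≤ p) (hr : 2 * r ≤ p)
    (h : (r : ZMod p) = q ∨ (r : ZMod p) = -q) : r = q := by
  rcases h with h | h
  · rw [ZMod.natCast_eq_natCast_iff] at h
    exact Nat.ModEq.eq_of_lt_of_lt h (by omega) (by omega)
  · have h1 : ((r + q : ℕ) : ZMod p) = 0 := by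
      push_cast
      rw [h]; ring
    rw [ZMod.natCast_eq_zero_iff] at h1
    obtain ⟨k, hk⟩ := h1
    have hk1 : k = 1 := by
      rcases Nat.lt_trichotomy k 1 with h2 | h2 | h2
      · have : k = 0 := by omega
        subst this
        omega
      · exact h2
      · nlinarith
    subst hk1
    omega

theorem can_conn {c d : List ℕ} (hc : Can c) (hd : Can d) (h1 : (cf c).1 = (cf d).1)
    (h2 : SameKnot (cf c).1 (cf c).2 (cf d).2) : d = c ∨ d = c.reverse := by
  have key : ∀ e : List ℕ, Can e → (cf e).1 = (cf c).1 →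
      (((cf d).2 : ZMod (cf c).1) = (cf e).2 ∨ ((cf d).2 : ZMod (cf c).1) = -(cf e).2) →
      d = e := by
    intro e he he1 h
    have h3 : (cf d).2 = (cf e).2 := small_eq (cf_den_pos he.ne_nil he.1)
      (cf_den_pos hd.ne_nil hd.1) (by rw [← he1]; exact he.two_mul_le)
      (by rw [h1]; exact hd.two_mul_le) h
    exact cf_inj hd.1 he.1 hd.2.2 he.2.2 (Prod.ext (by rw [he1, h1]) h3)
  have hinv : ∀ {a b q : ZMod (cf c).1}, (a * q = 1 ∨ a * q = -1) → (b * q = 1 ∨ b * q = -1) →
      (a = b ∨ a = -b) := by
    intro a b q h h'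
    have hb : b * q * (b * q) = 1 := by
      rcases h' with h' | h' <;> rw [h'] <;> ring
    rcases h with h | h <;> rcases h' with h' | h'
    · left
      calc a = a * (b * q * (b * q)) := by rw [hb, mul_one]
        _ = (a * q) * (b * q) * b := by ring
        _ = b := by rw [h, h']; ring
    · right
      calc a = a * (b * q * (b * q)) := by rw [hb, mul_one]
        _ = (a * q) * (b * q) * b := by ring
        _ = -b := by rw [h, h']; ring
    · right
      calc a = a * (b * q * (b * q)) := by rw [hb, mul_one]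
        _ = (a * q) * (b * q) * b := by ring
        _ = -b := by rw [h, h']; ring
    · left
      calc a = a * (b * q * (b * q)) := by rw [hb, mul_one]
        _ = (a * q) * (b * q) * b := by ring
        _ = b := by rw [h, h']; ring
  rcases h2 with h2 | h2 | h2 | h2
  · left
    exact key c hc rfl (Or.inl h2)
  · left
    exact key c hc rfl (Or.inr h2)
  · right
    exact key _ hc.reverse (cf_reverse_num c) (hinv (Or.inl h2) (reverse_den c))
  · right
    exact key _ hc.reverse (cf_reverse_num c) (hinv (Or.inr h2) (reverse_den c))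

/-- The easy half of Schubert's classification in terms of words: nonempty lists of positive
integers which represent the same two-bridge knot up to mirror image are connected by moves. -/
theorem words (a b : List ℕ) (ha : a ≠ []) (hb : b ≠ []) (hpa : ∀ x ∈ a, 0 < x)
    (hpb : ∀ x ∈ b, 0 < x) (h1 : (cf a).1 = (cf b).1)
    (h2 : SameKnot (cf a).1 (cf a).2 (cf b).2) : Relation.EqvGen Mv a b := by
  obtain ⟨c, hc, hac⟩ := normalize _ a rfl ha hpa
  obtain ⟨d, hd, hbd⟩ := normalize _ b rfl hb hpb
  have hcd : d = c ∨ d = c.reverse := by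
    have n1 := Mv.num_eqv hac
    have n2 := Mv.num_eqv hbd
    rcases hc with hc | hc
    · rcases hd with hd | hd
      · left; rw [hc, hd]
      · exfalso
        have := hd.two_le
        rw [hc] at n1
        simp only [cf] at n1
        omega
    · rcases hd with hd | hd
      · exfalso
        have := hc.two_le
        rw [hd] at n2
        simp only [cf] at n2
        omega
      · refine can_conn hc hd (by omega) ?_
        have s1 := Mv.same_eqv hac
        have s2 := Mv.same_eqv hbd
        rw [← n1]
        refine SameKnot.trans (SameKnot.trans s1.symm h2) ?_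
        rw [h1]
        exact s2
  have hcd' : Relation.EqvGen Mv c d := by
    rcases hcd with h | h
    · rw [h]; exact Relation.EqvGen.refl _
    · rw [h]
      refine Relation.EqvGen.rel _ _ (Mv.rev c ?_ ?_)
      · rcases hc with hc | hc
        · rw [hc]; simp
        · exact hc.1
      · rcases hc with hc | hc
        · rw [hc]; simp
        · exact hc.ne_nil
  exact Relation.EqvGen.trans _ _ _ hac (Relation.EqvGen.trans _ _ _ hcd'
    (Relation.EqvGen.symm _ _ hbd))

end Pool.Agent.Helper75.Lamm
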