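import Mathlib

/-!
# Plane graphs, their symmetries, and the Tait graphs of two-bridge knots: definitions
-/

namespace Pool.Agent.Helper75.Lamm

/-- the number of cycles of a permutation, fixed points included -/
noncomputable def cycles {D : Type} (π : Equiv.Perm D) : ℕ :=
  Nat.card (Quotient (Equiv.Perm.SameCycle.setoid π))

/-- A connected graph embedded in the sphere, given by its set `D` of darts (oriented edges):
`σ d` is the next dart after `d` in the counterclockwise order of the darts which start at the
same vertex as `d`, and `α d` is the dart `d` with the opposite orientation.  The vertices are the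
cycles of `σ`, the edges are the cycles of `α` and the faces are the cycles of `σ * α`. -/
structure PlaneGraph (D : Type) where
  /-- rotation about the initial vertex -/
  σ : Equiv.Perm D
  /-- reversal -/
  α : Equiv.Perm D
  invol : ∀ d, α (α d) = d
  noFix : ∀ d, α d ≠ d
  connected : ∀ d d', ∃ g ∈ Subgroup.closure ({σ, α} : Set (Equiv.Perm D)), g d = d'
  euler : cycles σ + cycles (σ * α) = cycles α + 2

variable {D : Type}

/-- `r` is a reflection of the sphere which maps the embedded graph to itself and interchanges
the two sides of exactly two corners (a corner of the graph is a pair `d, σ d` of successive darts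
at a vertex; these are the edges of the associated alternating diagram). -/
structure PlaneGraph.IsAxial (G : PlaneGraph D) (r : Equiv.Perm D) : Prop where
  invol : ∀ d, r (r d) = d
  rotation : ∀ d, r (G.σ d) = G.σ⁻¹ (r d)
  reversal : ∀ d, r (G.α d) = G.α (r d)
  corners : {d | r d = G.σ d}.ncard = 2

open Classical in
/-- integral flows of an embedded graph: `z (α d) = - z d` and at each vertex the total outflow
is zero -/
def PlaneGraph.IsFlow [Fintype D] (G : PlaneGraph D) (z : D → ℤ) : Prop :=
  (∀ d, z (G.α d) = - z d) ∧ ∀ d, ∑ d' ∈ Finset.univ.filter (fun d' => G.σ.SameCycle d d'), z d' = 0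

/-! ### The Tait graph of the diagram `C(a₁, ..., aₙ)`

The list `a = [a₁, ..., aₙ]` is indexed from `0`, so `a.getD i 0` is `aᵢ₊₁`. -/

/-- the edges of the Tait graph (the crossings of the diagram): `aᵢ₊₁` edges in block `i` -/
abbrev Edge (a : List ℕ) : Type := Σ i : Fin a.length, Fin (a.getD i 0)

/-- Initial vertices.  The vertices are the hub `none` and the vertices `some (i, j)` (`i` odd) of
a path; for odd `i` the edges of block `i` form a path from `some (i, 0)` to `some (i + 2, 0)` (to
the hub, if block `i` is the last one), for even `i` the edges of block `i` are parallel edges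
from `some (i + 1, 0)` to the hub. -/
def tail (a : List ℕ) (e : Edge a) : Option (ℕ × ℕ) :=
  if (e.1 : ℕ) % 2 = 1 then some (e.1, e.2) else some (e.1 + 1, 0)

/-- terminal vertices -/
def head (a : List ℕ) (e : Edge a) : Option (ℕ × ℕ) :=
  if (e.1 : ℕ) % 2 = 1 then
    (if (e.2 : ℕ) + 1 < a.getD e.1 0 then some (e.1, e.2 + 1)
      else if (e.1 : ℕ) + 1 = a.length then none else some (e.1 + 2, 0))
  else none

/-- integral flows of the Tait graph of `C(a₁, ..., aₙ)` -/
def IsTaitFlow (a : List ℕ) (z : Edge a → ℤ) : Prop :=
  ∀ v, ∑ e ∈ Finset.univ.filter (fun e => head a e = v), z e =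
    ∑ e ∈ Finset.univ.filter (fun e => tail a e = v), z e

/-- `G` is 2-isomorphic to the Tait graph of `C(a₁, ..., aₙ)`: there is a bijection between the
edges, and a choice of orientations, under which the integral flows correspond. -/
def PlaneGraph.TwoIso [Fintype D] (G : PlaneGraph D) (a : List ℕ) : Prop :=
  ∃ f : D ≃ Edge a × Bool, (∀ d, f (G.α d) = ((f d).1, !(f d).2)) ∧
    ∀ z : Edge a → ℤ, IsTaitFlow a z ↔
      G.IsFlow (fun d => if (f d).2 then z (f d).1 else - z (f d).1)

/-! ### Continued fractions -/

/-- numerator and denominator of `[a₁, ..., aₙ] = a₁ + 1 / (a₂ + 1 / (... + 1 / aₙ))` -/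
def cf : List ℕ → ℕ × ℕ
  | [] => (1, 0)
  | x :: l => (x * (cf l).1 + (cf l).2, (cf l).1)

/-- The two-bridge knot `K(p,q)` or its mirror image `K(p,-q)` is `K(p,q')`:
`q'` is `q`, `-q`, `1/q` or `-1/q` modulo `p` (Schubert). -/
def SameKnot (p : ℕ) (q q' : ℕ) : Prop :=
  (q' : ZMod p) = q ∨ (q' : ZMod p) = - q ∨ (q' : ZMod p) * q = 1 ∨ (q' : ZMod p) * q = -1

/-- all entries are positive and `[a₁, ..., aₙ]` represents `K(p,q)` or its mirror image -/
def Represents (a : List ℕ) (p q : ℕ) : Prop :=
  a ≠ [] ∧ (∀ x ∈ a, 0 < x) ∧ (cf a).1 = p ∧ SameKnot p q (cf a).2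

/-- type (A): `n` is even and `a₂, a₄, ..., aₙ` are even (the positivity is in `Represents`) -/
def TypeA (a : List ℕ) : Prop :=
  Even a.length ∧ ∀ i, i < a.length → i % 2 = 1 → Even (a.getD i 0)

/-- type (B): `n` is odd, `aᵢ = aₙ₊₁₋ᵢ` for all `i` and the middle entry is odd -/
def TypeB (a : List ℕ) : Prop :=
  Odd a.length ∧ a.reverse = a ∧ Odd (a.getD (a.length / 2) 0)

/-- There is a plane graph, 2-isomorphic to the Tait graph of a Conway diagram `C(a₁, ..., aₙ)`
of the two-bridge knot `K(p,q)` or of its mirror image, with a reflection which interchanges the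
two sides of exactly two corners. -/
def HasAxialDiagram (p q : ℕ) : Prop :=
  ∃ a : List ℕ, Represents a p q ∧ ∃ (D : Type) (_ : Fintype D) (G : PlaneGraph D),
    G.TwoIso a ∧ ∃ r : Equiv.Perm D, G.IsAxial r

end Pool.Agent.Helper75.Lamm
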