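import Pool.Agent.Helper75.Lamm.Build

/-!
# The symmetric diagrams of two-bridge knots
-/

namespace Pool.Agent.Helper75.Lamm

open Finset Equiv

set_option linter.unusedSectionVars false

theorem std_comp {E E' : Type} [Fintype E] [Fintype E'] (g : E ≃ E') (β' : E' → ℕ) (n χ : ℕ)
    (z : E' → ℤ) :
    Std (fun e => β' (g e)) n χ (fun e => z (g e)) ↔ Std β' n χ z := by
  classical
  have h : ∀ i, ∑ e ∈ blk (fun e => β' (g e)) i, z (g e) = ∑ e ∈ blk β' i, z e := by
    intro i
    apply Finset.sum_equiv g
    · intro e
      rw [mem_blk, mem_blk]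
    · intro e _
      rfl
  constructor
  · rintro ⟨V, V0, Vn, h1, h2⟩
    refine ⟨V, V0, Vn, ?_, ?_⟩
    · intro e he
      have := h1 (g.symm e)
      beta_reduce at this
      rw [Equiv.apply_symm_apply] at this
      exact this he
    · intro i hi hi2
      rw [← h, h2 i hi hi2]
  · rintro ⟨V, V0, Vn, h1, h2⟩
    refine ⟨V, V0, Vn, ?_, ?_⟩
    · intro e he
      exact h1 (g e) he
    · intro i hi hi2
      rw [h, h2 i hi hi2]

/-- a plane graph in block form is 2-isomorphic to the Tait graph -/
theorem twoIso_of_rfl (b : List ℕ) (hpos : ∀ x ∈ b, 0 < x) {D E : Type} [Fintype D] [Fintype E]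
    {G : PlaneGraph D} {f : D ≃ E × Bool} {β : E → ℕ} {r : Perm D}
    (R : Rfl 0 b.length (fun i => b.getD i 0) G f β r) : G.TwoIso b := by
  classical
  have hcard : ∀ i : Fin b.length,
      Fintype.card {e : E // (⟨β e, R.both.lt e⟩ : Fin b.length) = i} = b.getD i 0 := by
    intro i
    rw [← R.card i, Fintype.card_subtype]
    congr 1
    ext e
    rw [mem_blk, mem_filter]
    constructor
    · rintro ⟨-, rfl⟩
      rfl
    · intro h
      exact ⟨mem_univ _, Fin.ext h⟩
  let g : E ≃ Edge b :=
    ((Equiv.sigmaFiberEquiv (fun e : E => (⟨β e, R.both.lt e⟩ : Fin b.length))).symm).trans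
      (Equiv.sigmaCongrRight (fun i => Fintype.equivFinOfCardEq (hcard i)))
  have hg : ∀ e, blockOf b (g e) = β e := fun e => rfl
  refine ⟨f.trans (Equiv.prodCongr g (Equiv.refl Bool)), ?_, ?_⟩
  · intro d
    simp only [Equiv.trans_apply, R.both.rev]
    rfl
  · intro z
    rw [taitFlow_iff b hpos z, isFlow_iff]
    have h1 := std_comp g (blockOf b) b.length 0 z
    have h2 : (fun e => blockOf b (g e)) = β := funext hg
    rw [h2] at h1
    rw [← h1, R.both.flow]
    exact Iff.rfl

theorem HasOne.congr {χ n : ℕ} {s s' : ℕ → ℕ} (h : HasOne χ n s) (hs : ∀ i, s i = s' i) :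
    HasOne χ n s' := by
  rw [← funext hs]
  exact h

theorem HasFix.congr {χ n : ℕ} {s s' : ℕ → ℕ} (h : HasFix χ n s) (hs : ∀ i, s i = s' i) :
    HasFix χ n s' := by
  rw [← funext hs]
  exact h

theorem HasPair.congr {χ n : ℕ} {s s' : ℕ → ℕ} (h : HasPair χ n s) (hs : ∀ i, s i = s' i) :
    HasPair χ n s' := by
  rw [← funext hs]
  exact h

theorem HasOne.grow_iter {n : ℕ} {l : List ℕ} (h : HasOne 0 n (fun i => (1 :: l).getD i 0))
    (x : ℕ) : HasOne 0 n (fun i => ((x + 1) :: l).getD i 0) := by
  induction x with
  | zero => exact h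
  | succ x ih =>
    refine ih.grow.congr (fun i => ?_)
    rcases i with _ | i
    · simp
    · simp

theorem HasFix.grow_iter {n : ℕ} {l : List ℕ} (h : HasFix 0 n (fun i => (1 :: l).getD i 0))
    (k : ℕ) : HasFix 0 n (fun i => ((2 * k + 1) :: l).getD i 0) := by
  induction k with
  | zero => exact h
  | succ k ih =>
    refine ih.grow.congr (fun i => ?_)
    rcases i with _ | i
    · simp
      ring
    · simp

theorem HasOne.split_list {χ n : ℕ} {l : List ℕ} {x : ℕ} (hn : 1 ≤ n)
    (h : HasOne χ n (fun i => ((x + 1) :: l).getD i 0)) :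
    HasOne (1 - χ) (n + 1) (fun i => (1 :: x :: l).getD i 0) := by
  refine (h.split hn).congr (fun i => ?_)
  rcases i with _ | _ | i <;> simp

/-- the construction for type (A) -/
theorem buildA : ∀ b : List ℕ, b ≠ [] → Even b.length → (∀ x ∈ b, 0 < x) →
    (∀ i, i < b.length → i % 2 = 1 → Even (b.getD i 0)) →
    HasOne 0 b.length (fun i => b.getD i 0)
  | [], h, _, _, _ => absurd rfl h
  | [x], _, h, _, _ => by simp at h
  | x :: y :: l, _, hlen, hpos, hev => by
    have h1 : HasOne 1 (l.length + 1) (fun i => (1 :: l).getD i 0) := by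
      by_cases hl : l = []
      · subst hl
        refine hasFix_base.dual.congr (fun i => ?_)
        rcases i with _ | i <;> simp
      · have hlen' : Even l.length := by
          simp only [List.length_cons] at hlen
          have h2 : l.length + 1 + 1 = l.length + 2 := rfl
          rw [h2, Nat.even_add] at hlen
          exact hlen.2 even_two
        have ih := buildA l hl hlen'
          (fun z hz => hpos z (List.mem_cons_of_mem _ (List.mem_cons_of_mem _ hz)))
          (fun i hi hi2 => by
            have := hev (i + 2) (by simp only [List.length_cons]; omega) (by omega)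
            simpa using this)
        obtain ⟨x', l', rfl⟩ := List.exists_cons_of_ne_nil hl
        have h2 := ih.grow.congr (s' := fun i => ((x' + 1) :: l').getD i 0) (fun i => by
          rcases i with _ | i <;> simp)
        exact h2.split_list (by simp)
    obtain ⟨k, hk⟩ := hev 1 (by simp) rfl
    have hk' : y = 2 * k := by
      simp at hk
      omega
    have h2 := (HasFix.grow_iter (n := l.length + 1) (l := l) h1.dual k).dual
    rw [← hk'] at h2
    have h3 := h2.split_list (by omega)
    have hx := hpos x (by simp)
    have h4 := HasOne.grow_iter (n := l.length + 1 + 1) (l := y :: l) h3 (x - 1)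
    have h5 : x - 1 + 1 = x := by omega
    rw [h5] at h4
    exact h4

/-- the sizes with both end blocks enlarged -/
def grown (m : List ℕ) (i : ℕ) : ℕ :=
  m.getD i 0 + (if 0 = i then 1 else 0) + (if m.length - 1 = i then 1 else 0)

theorem split_grown (m : List ℕ) (hm : 1 ≤ m.length) (i : ℕ) :
    (if i = m.length + 1 then 1 else if i = m.length then
        (if m.length = 0 then 1 else if m.length = 1 then grown m 0 - 1 else
          grown m (m.length - 1)) - 1 else
        if i = 0 then 1 else if i = 1 then grown m 0 - 1 else grown m (i - 1)) =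
      (1 :: (m ++ [1])).getD i 0 := by
  rcases i with _ | i
  · rw [if_neg (by omega), if_neg (by omega), if_pos rfl]
    simp
  · rw [List.getD_cons_succ]
    by_cases h1 : i = m.length
    · rw [if_pos (by omega), h1, List.getD_append_right _ _ _ _ (le_refl _)]
      simp
    · rw [if_neg (by omega)]
      by_cases h2 : i < m.length
      · rw [List.getD_append _ _ _ _ h2]
        unfold grown
        by_cases h3 : i + 1 = m.length
        · rw [if_pos h3, if_neg (by omega)]
          by_cases h4 : m.length = 1
          · rw [if_pos h4, if_pos rfl, if_pos (by omega)]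
            have : i = 0 := by omega
            subst this
            omega
          · rw [if_neg h4, if_neg (by omega), if_pos rfl]
            have : m.length - 1 = i := by omega
            rw [this]
            omega
        · rw [if_neg h3, if_neg (by omega)]
          by_cases h4 : i = 0
          · subst h4
            rw [if_pos rfl, if_pos rfl, if_neg (by omega)]
            omega
          · rw [if_neg (by omega), Nat.add_sub_cancel, if_neg (by omega), if_neg (by omega)]
            omega
      · rw [if_neg (by omega), if_neg (by omega), List.getD_eq_default _ _ (by simp; omega)]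
        rw [if_neg (by omega)]
        unfold grown
        rw [List.getD_eq_default _ _ (by omega), if_neg (by omega), if_neg (by omega)]

theorem HasPair.grow_iter {χ : ℕ} (hχ : χ < 2) {l : List ℕ} (hl : Odd l.length)
    (h : HasPair χ (l.length + 2) (fun i => (1 :: (l ++ [1])).getD i 0)) (x : ℕ) :
    HasPair χ (l.length + 2) (fun i => ((x + 1) :: (l ++ [x + 1])).getD i 0) := by
  induction x with
  | zero => exact h
  | succ x ih =>
    obtain ⟨k, hk⟩ := hl
    refine (ih.grow hχ (by omega)).congr (fun i => ?_)
    rcases i with _ | i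
    · simp
    · rw [List.getD_cons_succ, List.getD_cons_succ]
      by_cases h1 : i < l.length
      · rw [List.getD_append _ _ _ _ h1, List.getD_append _ _ _ _ h1, if_neg (by omega),
          if_neg (by omega), add_zero, add_zero]
      · by_cases h2 : i = l.length
        · subst h2
          rw [List.getD_append_right _ _ _ _ (le_refl _),
            List.getD_append_right _ _ _ _ (le_refl _), if_neg (by omega), if_pos (by omega)]
          simp
        · rw [List.getD_eq_default _ _ (by simp; omega), List.getD_eq_default _ _ (by simp; omega),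
            if_neg (by omega), if_neg (by omega)]

/-- the construction for type (B) -/
theorem buildB {m : List ℕ} (hpal : m.Palindrome) : Odd m.length → (∀ x ∈ m, 0 < x) →
    Odd (m.getD (m.length / 2) 0) → ∀ χ, χ < 2 →
    HasPair χ m.length (grown m) ∧
      (2 ≤ m.length → HasPair χ m.length (fun i => m.getD i 0)) := by
  induction hpal with
  | nil => intro h; simp at h
  | singleton c =>
    intro _ _ hc χ hχ
    refine ⟨?_, fun h => by simp at h⟩
    obtain ⟨k, hk⟩ := hc
    simp at hk
    have h1 : HasFix 0 1 (fun i => [c].getD i 0) := by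
      have := HasFix.grow_iter (n := 1) (l := []) (hasFix_base.congr (fun i => by
        rcases i with _ | i <;> simp)) k
      rw [hk]
      exact this
    have h2 : HasPair 0 1 (grown [c]) := h1.pair
    rcases (by omega : χ = 0 ∨ χ = 1) with rfl | rfl
    · exact h2
    · exact h2.dual
  | cons_concat x hl ih =>
    rename_i l
    intro hlen hpos hmid χ hχ
    have hlen1 : (x :: (l ++ [x])).length = l.length + 2 := by simp
    rw [hlen1] at hlen
    have hlen2 : Odd l.length := by
      rw [Nat.odd_add] at hlen
      exact hlen.2 even_two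
    have hl1 : 1 ≤ l.length := hlen2.pos
    have hmid2 : Odd (l.getD (l.length / 2) 0) := by
      rw [hlen1] at hmid
      have h1 : (l.length + 2) / 2 = l.length / 2 + 1 := by omega
      rw [h1, List.getD_cons_succ, List.getD_append _ _ _ _ (by omega)] at hmid
      exact hmid
    have h1 := (ih hlen2 (fun z hz => hpos z (List.mem_cons_of_mem _ (List.mem_append_left _ hz)))
      hmid2 (1 - χ) (by omega)).1
    have h2 := (h1.split hl1).congr (split_grown l hl1)
    have h3 : 1 - (1 - χ) = χ := by omega
    rw [h3] at h2
    have hx := hpos x (by simp)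
    have h4 := HasPair.grow_iter hχ hlen2 h2 (x - 1)
    have h5 : x - 1 + 1 = x := by omega
    rw [h5] at h4
    rw [hlen1]
    refine ⟨?_, fun _ => h4⟩
    have h6 := h4.grow hχ (by
      obtain ⟨k, hk⟩ := hlen2
      omega)
    refine h6.congr (fun i => ?_)
    unfold grown
    rw [hlen1]

/-- the construction -/
theorem ifDir (b : List ℕ) (hne : b ≠ []) (hpos : ∀ x ∈ b, 0 < x) (hb : TypeA b ∨ TypeB b) :
    ∃ (D : Type) (_ : Fintype D) (G : PlaneGraph D), G.TwoIso b ∧
      ∃ r : Equiv.Perm D, G.IsAxial r := by
  rcases hb with ⟨h1, h2⟩ | ⟨h1, h2, h3⟩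
  · obtain ⟨D, E, iD, iE, G, f, β, r, x, R, -, -⟩ := buildA b hne h1 hpos h2
    exact ⟨D, iD, G, twoIso_of_rfl b hpos R, r, R.axial⟩
  · by_cases h4 : 2 ≤ b.length
    · obtain ⟨D, E, iD, iE, G, f, β, r, x, R, -, -, -⟩ :=
        (buildB (List.Palindrome.of_reverse_eq h2) h1 hpos h3 0 (by omega)).2 h4
      exact ⟨D, iD, G, twoIso_of_rfl b hpos R, r, R.axial⟩
    · obtain ⟨c, rfl⟩ : ∃ c, b = [c] := by
        apply List.length_eq_one_iff.1
        have := h1.pos
        omega
      obtain ⟨k, hk⟩ := h3
      simp at hk
      have h5 : HasFix 0 1 (fun i => [c].getD i 0) := by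
        have := HasFix.grow_iter (n := 1) (l := []) (hasFix_base.congr (fun i => by
          rcases i with _ | i <;> simp)) k
        rw [hk]
        exact this
      obtain ⟨D, E, iD, iE, G, f, β, r, x, R, -, -⟩ := h5
      exact ⟨D, iD, G, twoIso_of_rfl [c] hpos R, r, R.axial⟩

/-- two-bridge knots with a symmetric diagram -/
theorem main (p q : ℕ) (hp : Odd p) :
    HasAxialDiagram p q ↔ ∃ b : List ℕ, (TypeA b ∨ TypeB b) ∧ Represents b p q := by
  constructor
  · rintro ⟨a, ⟨hne, hpos, h1, h2⟩, D, iD, G, hG, r, hr⟩
    obtain ⟨b, hb, hne', hpos', h3, h4⟩ := onlyIf a hne hpos (by rw [h1]; exact hp) G hG r hr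
    rw [h1] at h3 h4
    exact ⟨b, hb, hne', hpos', h3, h2.trans h4⟩
  · rintro ⟨b, hb, hR⟩
    obtain ⟨D, iD, G, hG, hr⟩ := ifDir b hR.1 hR.2.1 hb
    exact ⟨b, hR, D, iD, G, hG, hr⟩

end Pool.Agent.Helper75.Lamm
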