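import Pool.Agent.Helper75.Lamm.WordBlocks
import Pool.Agent.Helper75.Lamm.Final

/-!
# The Tait graph of the diagram of a word

`taitG ((PW w).dia leaf)` is 2-isomorphic to the Tait graph of `C(expansion w)`; a symmetric
diagram of a word therefore gives an axial diagram in the sense of `HasAxialDiagram`.
-/

namespace Pool.Agent.Helper75.Lamm

open Finset Equiv Pool.Agent.Helper65.LK

/-- the darts of the Tait graph on the odd corners: two for each crossing -/
def oddE (V : Type) : TD V true ≃ V × Bool where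
  toFun x := (x.1.1, decide (x.1.2 = 1))
  invFun y := if y.2 then ⟨(y.1, 1), rfl⟩ else ⟨(y.1, 3), rfl⟩
  left_inv := by
    rintro ⟨⟨v, i⟩, hi⟩
    have key : ∀ i : ZMod 4, par i = true → i = 1 ∨ i = 3 := by decide
    rcases key i hi with rfl | rfl
    · rfl
    · rfl
  right_inv := by
    rintro ⟨v, b⟩
    cases b
    · rfl
    · rfl

theorem oddE_true {V : Type} (v : V) : (oddE V).symm (v, true) = ⟨(v, 1), rfl⟩ := rfl

theorem oddE_false {V : Type} (v : V) : (oddE V).symm (v, false) = ⟨(v, 3), rfl⟩ := rfl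

theorem oddE_a {V : Type} (x : TD V true) :
    oddE V (aT V true x) = ((oddE V x).1, !(oddE V x).2) := by
  obtain ⟨⟨v, i⟩, hi⟩ := x
  have key : ∀ i : ZMod 4, par i = true → i = 1 ∨ i = 3 := by decide
  rcases key i hi with rfl | rfl
  · rfl
  · rfl

/-- flows and potentials -/
theorem flow_iff_pot {V : Type} [Fintype V] (S : Shadow V) (hS : APD S) (z : V → ℤ) :
    (taitG S hS true).IsFlow
      (fun d => if (oddE V d).2 then z (oddE V d).1 else - z (oddE V d).1) ↔
    ∀ p : Dart V → ℤ, (∀ x, par x.2 = true → p (sg (S.α x)) = p x) →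
      ∑ v, z v * (p (v, 1) - p (v, 3)) = 0 := by
  classical
  rw [isFlow_iff]
  have hsum : ∀ X : TD V true → ℤ,
      ∑ d, (if (oddE V d).2 then z (oddE V d).1 else - z (oddE V d).1) * X d =
        ∑ v, z v * (X ⟨(v, 1), rfl⟩ - X ⟨(v, 3), rfl⟩) := by
    intro X
    rw [← Equiv.sum_comp (oddE V).symm, Fintype.sum_prod_type]
    apply Finset.sum_congr rfl
    intro v _
    rw [Fintype.sum_bool, Equiv.apply_symm_apply, Equiv.apply_symm_apply, oddE_true, oddE_false]
    simp only [if_true, Bool.false_eq_true, if_false]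
    ring
  constructor
  · rintro ⟨-, h⟩ p hp
    have h1 := h (fun d => p d.1) (fun d => hp d.1 d.2)
    rw [hsum] at h1
    exact h1
  · intro h
    refine ⟨?_, ?_⟩
    · intro d
      show (if (oddE V (aT V true d)).2 then z (oddE V (aT V true d)).1 else
        - z (oddE V (aT V true d)).1) =
        - (if (oddE V d).2 then z (oddE V d).1 else - z (oddE V d).1)
      rw [oddE_a]
      generalize oddE V d = y
      obtain ⟨v, b⟩ := y
      cases b <;> simp
    · intro X hX
      rw [hsum]
      have h1 := h (fun x => if hx : par x.2 = true then X ⟨x, hx⟩ else 0) (fun x hx => by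
        have hx' : par (sg (S.α x)).2 = true := (sT S hS.alt true ⟨x, hx⟩).2
        rw [dif_pos hx, dif_pos hx']
        exact hX ⟨x, hx⟩)
      exact h1

/-- The Tait graph of the diagram of a word. -/
theorem twoIso_word (w : List (ZMod 4)) (hS : APD ((PW w).dia Ex.leaf))
    (hpos : ∀ x ∈ expansion w, 0 < x) :
    (taitG ((PW w).dia Ex.leaf) hS true).TwoIso (expansion w) := by
  classical
  obtain ⟨β, hlt, hc, hD⟩ := dia_blocks w
  have hcard : ∀ i : Fin (expansion w).length,
      Fintype.card {e : (PW w).Lv ⊕ Ex.leaf.Lv //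
        (⟨β e, hlt e⟩ : Fin (expansion w).length) = i} = (expansion w).getD i 0 := by
    intro i
    rw [← hc i, Fintype.card_subtype]
    congr 1
    ext e
    rw [mem_blk, mem_filter]
    constructor
    · rintro ⟨-, rfl⟩
      rfl
    · intro h
      exact ⟨mem_univ _, Fin.ext h⟩
  let g : (PW w).Lv ⊕ Ex.leaf.Lv ≃ Edge (expansion w) :=
    ((Equiv.sigmaFiberEquiv
      (fun e : (PW w).Lv ⊕ Ex.leaf.Lv => (⟨β e, hlt e⟩ : Fin (expansion w).length))).symm).trans
      (Equiv.sigmaCongrRight (fun i => Fintype.equivFinOfCardEq (hcard i)))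
  have hg : ∀ e, blockOf (expansion w) (g e) = β e := fun e => rfl
  refine ⟨(oddE _).trans (Equiv.prodCongr g (Equiv.refl Bool)), ?_, ?_⟩
  · intro d
    simp only [Equiv.trans_apply]
    rw [show (taitG ((PW w).dia Ex.leaf) hS true).α d = aT _ true d from rfl, oddE_a]
    rfl
  · intro z
    rw [taitFlow_iff _ hpos z]
    have h1 := std_comp g (blockOf (expansion w)) (expansion w).length 0 z
    have h2 : (fun e => blockOf (expansion w) (g e)) = β := funext hg
    rw [h2] at h1
    rw [← h1]
    refine Iff.trans ?_ (flow_iff_pot _ hS (fun e => z (g e))).symm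
    have hne : ∀ i, i < (expansion w).length → ∃ e, β e = i := by
      intro i hi
      have h3 : 0 < (blk β i).card := by
        rw [hc i]
        exact getD_pos hpos hi
      obtain ⟨e, he⟩ := Finset.card_pos.1 h3
      exact ⟨e, mem_blk.1 he⟩
    constructor
    · intro hz p hp
      have h4 := (hD (fun v => p (v, 1) - p (v, 3))).1 ⟨p, hp, fun _ => rfl⟩
      have h5 := std_orth β (expansion w).length 1 0 hlt rfl _ _ h4 hz
      rw [← h5]
      apply Finset.sum_congr rfl
      intro v _
      ring
    · intro h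
      have hN : Nonempty ((PW w).Lv ⊕ Ex.leaf.Lv) := ⟨Sum.inr (show Ex.leaf.Lv from ())⟩
      choose! c hcc using hne
      apply std_of_orth β (expansion w).length 1 0 hlt rfl c hcc
      intro u hu
      obtain ⟨p, hp, hup⟩ := (hD u).2 hu
      rw [← h p hp]
      apply Finset.sum_congr rfl
      intro v _
      rw [hup]
      ring

theorem blocks_pos (w : List (ZMod 4)) : ∀ (b : Bool) (k : ℕ), 0 < k →
    ∀ x ∈ blocks w b k, 0 < x := by
  induction w with
  | nil =>
    intro b k _ x hx
    simp [blocks] at hx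
    omega
  | cons p w ih =>
    intro b k hk x hx
    unfold blocks at hx
    split_ifs at hx
    · exact ih _ _ (by omega) x hx
    · rcases List.mem_cons.1 hx with rfl | hx
      · exact hk
      · exact ih _ _ (by omega) x hx

/-- Symmetric diagrams given by words have an expansion of type (A) or (B). -/
theorem word_main (w : List (ZMod 4)) (hS : APD ((PW w).dia Ex.leaf))
    (ρ : Perm (Dart ((PW w).Lv ⊕ Ex.leaf.Lv)))
    (h1 : ∀ x, ρ (ρ x) = x) (h2 : ∀ x, sg (ρ (sg x)) = ρ x)
    (h3 : ∀ x, ρ (((PW w).dia Ex.leaf).α x) = ((PW w).dia Ex.leaf).α (ρ x))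
    (h4 : ∀ x, par (ρ x).2 = !par x.2)
    (h5 : {x | ρ x = ((PW w).dia Ex.leaf).α x}.ncard = 4)
    (hodd : Odd (cf (expansion w)).1) :
    ∃ b : List ℕ, (TypeA b ∨ TypeB b) ∧
      Represents b (cf (expansion w)).1 (cf (expansion w)).2 := by
  classical
  have hpos : ∀ x ∈ expansion w, 0 < x := blocks_pos w true 1 (by omega)
  have hne : expansion w ≠ [] := by
    intro h
    have h6 : 1 ≤ (expansion w).length := blocks_len w true 1
    rw [h] at h6
    simp at h6
  apply (main _ _ hodd).1
  exact ⟨expansion w, ⟨hne, hpos, rfl, SameKnot.refl _ _⟩, TD _ true, inferInstance,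
    taitG _ hS true, twoIso_word w hS hpos, rT ρ h1 h2 h4 true,
    axial_of_sym _ hS true ρ h1 h2 h3 h4 h5⟩

end Pool.Agent.Helper75.Lamm
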