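import Pool.Agent.Helper75.Lamm.Std

/-!
# Symmetries of the flow space preserve or reverse the blocks
-/

namespace Pool.Agent.Helper75.Lamm

open Finset

set_option linter.unusedSectionVars false

variable {E : Type} [Fintype E] [DecidableEq E]

/-- canonical block data: every block is non-empty, the two end blocks have at least two edges
unless there is only one block -/
structure Canon (β : E → ℕ) (n : ℕ) (c : ℕ → E) : Prop where
  lt : ∀ e, β e < n
  rep : ∀ i, i < n → β (c i) = i
  first : 2 ≤ n → ∃ e e', e ≠ e' ∧ β e = 0 ∧ β e' = 0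
  last : 2 ≤ n → ∃ e e', e ≠ e' ∧ β e = n - 1 ∧ β e' = n - 1

variable {β : E → ℕ} {n : ℕ} {c : ℕ → E}

theorem keyL (h : Canon β n c) {χ : ℕ} (hχ2 : χ < 2) {u : E → ℤ} (hu : Std β n χ u) {x : E}
    (hx : β x % 2 ≠ χ) (hux : u x ≠ 0) (h1 : 1 ≤ β x) (g : E)
    (hg : ∀ y, β y < β x → y ≠ g → u y = 0) : β g + 1 = β x ∧ u g ≠ 0 := by
  obtain ⟨V, V0, Vn, hV1, hV2⟩ := hu
  have hxn := h.lt x
  obtain ⟨k, hk⟩ : ∃ k, k = β x := ⟨_, rfl⟩
  rw [← hk] at hx h1 hg hxn ⊢
  have hVk : V (k + 1) ≠ 0 := by
    rw [hk, ← hV1 x (hk ▸ hx)]; exact hux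
  by_contra hcon
  have hzero : ∀ y ∈ blk β (k - 1), u y = 0 := by
    intro y hy
    rw [mem_blk] at hy
    by_cases hyg : y = g
    · subst hyg
      by_contra h2
      exact hcon ⟨by omega, h2⟩
    · exact hg y (by omega) hyg
  have hpar : ∀ j, j < n → β (c j) = j := h.rep
  have hsum := hV2 (k - 1) (by omega) (by omega)
  rw [Finset.sum_eq_zero hzero] at hsum
  have hk1 : V (k - 1) = V (k + 1) := by
    have : k - 1 + 2 = k + 1 := by omega
    rw [this] at hsum
    linarith
  have hk2 : 2 ≤ k := by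
    by_contra hlt
    have : k - 1 = 0 := by omega
    rw [this, V0] at hk1
    exact hVk hk1.symm
  have hall : ∀ y, β y = k - 2 → y = g := by
    intro y hy
    by_contra hyg
    have := hg y (by omega) hyg
    rw [hV1 y (by rw [hy]; omega), hy] at this
    have e2 : k - 2 + 1 = k - 1 := by omega
    rw [e2, hk1] at this
    exact hVk this
  have hk3 : 3 ≤ k := by
    by_contra hlt
    obtain ⟨e, e', hne, he, he'⟩ := h.first (by omega)
    exact hne ((hall e (by omega)).trans (hall e' (by omega)).symm)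
  have hgk : β g = k - 2 := by
    rw [← hall (c (k - 2)) (hpar _ (by omega))]
    exact hpar _ (by omega)
  have hsum2 := hV2 (k - 3) (by omega) (by omega)
  rw [Finset.sum_eq_zero (fun y hy => hg y (by rw [mem_blk] at hy; omega)
    (by rintro rfl; rw [mem_blk] at hy; omega))] at hsum2
  have hk4 : V (k - 3) = V (k + 1) := by
    have : k - 3 + 2 = k - 1 := by omega
    rw [this] at hsum2
    linarith
  have hk5 : 4 ≤ k := by
    by_contra hlt
    have : k - 3 = 0 := by omega
    rw [this, V0] at hk4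
    exact hVk hk4.symm
  have h6 := hg (c (k - 4)) (by rw [hpar _ (by omega)]; omega)
    (by intro hh; rw [← hh, hpar _ (by omega)] at hgk; omega)
  rw [hV1 _ (by rw [hpar _ (by omega)]; omega), hpar _ (by omega)] at h6
  have e3 : k - 4 + 1 = k - 3 := by omega
  rw [e3, hk4] at h6
  exact hVk h6

theorem keyR (h : Canon β n c) {χ : ℕ} (hχ2 : χ < 2) {u : E → ℤ} (hu : Std β n χ u) {x : E}
    (hx : β x % 2 ≠ χ) (hux : u x ≠ 0) (h1 : β x + 1 < n) (g : E)
    (hg : ∀ y, β x < β y → y ≠ g → u y = 0) : β g = β x + 1 ∧ u g ≠ 0 := by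
  obtain ⟨V, V0, Vn, hV1, hV2⟩ := hu
  obtain ⟨k, hk⟩ : ∃ k, k = β x := ⟨_, rfl⟩
  rw [← hk] at hx h1 hg ⊢
  have hVk : V (k + 1) ≠ 0 := by
    rw [hk, ← hV1 x (hk ▸ hx)]; exact hux
  by_contra hcon
  have hzero : ∀ y ∈ blk β (k + 1), u y = 0 := by
    intro y hy
    rw [mem_blk] at hy
    by_cases hyg : y = g
    · subst hyg
      by_contra h2
      exact hcon ⟨by omega, h2⟩
    · exact hg y (by omega) hyg
  have hpar : ∀ j, j < n → β (c j) = j := h.rep
  have hsum := hV2 (k + 1) (by omega) (by omega)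
  rw [Finset.sum_eq_zero hzero] at hsum
  have hk1 : V (k + 3) = V (k + 1) := by
    have : k + 1 + 2 = k + 3 := by omega
    rw [this] at hsum
    linarith
  have hk2 : k + 2 < n := by
    by_contra hlt
    have : k + 3 = n + 1 := by omega
    rw [this, Vn] at hk1
    exact hVk hk1.symm
  have hall : ∀ y, β y = k + 2 → y = g := by
    intro y hy
    by_contra hyg
    have := hg y (by omega) hyg
    rw [hV1 y (by rw [hy]; omega), hy] at this
    have e2 : k + 2 + 1 = k + 3 := by omega
    rw [e2, hk1] at this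
    exact hVk this
  have hk3 : k + 3 < n := by
    by_contra hlt
    obtain ⟨e, e', hne, he, he'⟩ := h.last (by omega)
    exact hne ((hall e (by omega)).trans (hall e' (by omega)).symm)
  have hgk : β g = k + 2 := by
    rw [← hall (c (k + 2)) (hpar _ (by omega))]
    exact hpar _ (by omega)
  have hsum2 := hV2 (k + 3) (by omega) (by omega)
  rw [Finset.sum_eq_zero (fun y hy => hg y (by rw [mem_blk] at hy; omega)
    (by rintro rfl; rw [mem_blk] at hy; omega))] at hsum2
  have hk4 : V (k + 5) = V (k + 1) := by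
    have : k + 3 + 2 = k + 5 := by omega
    rw [this] at hsum2
    linarith
  have hk5 : k + 4 < n := by
    by_contra hlt
    have : k + 5 = n + 1 := by omega
    rw [this, Vn] at hk4
    exact hVk hk4.symm
  have h6 := hg (c (k + 4)) (by rw [hpar _ (by omega)]; omega)
    (by intro hh; rw [← hh, hpar _ (by omega)] at hgk; omega)
  rw [hV1 _ (by rw [hpar _ (by omega)]; omega), hpar _ (by omega)] at h6
  have e3 : k + 4 + 1 = k + 5 := by omega
  rw [e3, hk4] at h6
  exact hVk h6

theorem exL (h : Canon β n c) {χ : ℕ} (hχ2 : χ < 2) {u : E → ℤ} (hu : Std β n χ u) {x : E}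
    (hx : β x % 2 ≠ χ) (hux : u x ≠ 0) (h1 : 1 ≤ β x) : ∃ y, β y < β x ∧ u y ≠ 0 := by
  by_contra hcon
  push Not at hcon
  have := (keyL h hχ2 hu hx hux h1 x (fun y hy _ => hcon y hy)).1
  omega

theorem exR (h : Canon β n c) {χ : ℕ} (hχ2 : χ < 2) {u : E → ℤ} (hu : Std β n χ u) {x : E}
    (hx : β x % 2 ≠ χ) (hux : u x ≠ 0) (h1 : β x + 1 < n) : ∃ y, β x < β y ∧ u y ≠ 0 := by
  by_contra hcon
  push Not at hcon
  have := (keyR h hχ2 hu hx hux h1 x (fun y hy _ => hcon y hy)).1
  omega

theorem three {E : Type} {x y z e e' : E} (hxy : x ≠ y) (hxz : x ≠ z) (hyz : y ≠ z)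
    (hx : x = e ∨ x = e') (hy : y = e ∨ y = e') (hz : z = e ∨ z = e') : False := by
  rcases hx with rfl | rfl <;> rcases hy with rfl | rfl <;> rcases hz with rfl | rfl <;> simp_all

/-- a flow supported on two edges vanishes on the constant blocks -/
theorem key1 (h : Canon β n c) (hn : 2 ≤ n) {χ : ℕ} (hχ2 : χ < 2) {u : E → ℤ}
    (hu : Std β n χ u) (e e' : E) (hs : ∀ y, u y ≠ 0 → y = e ∨ y = e') (x : E)
    (hx : β x % 2 ≠ χ) : u x = 0 := by
  by_contra hux
  have hxn := h.lt x
  have hconst : ∀ y, β y = β x → u y ≠ 0 := by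
    obtain ⟨V, V0, Vn, hV1, hV2⟩ := hu
    intro y hy
    rw [hV1 y (by rw [hy]; exact hx), hy, ← hV1 x hx]
    exact hux
  by_cases hl : 1 ≤ β x
  · obtain ⟨y, hy, huy⟩ := exL h hχ2 hu hx hux hl
    by_cases hr : β x + 1 < n
    · obtain ⟨y', hy', huy'⟩ := exR h hχ2 hu hx hux hr
      exact three (x := x) (y := y) (z := y') (by rintro rfl; omega) (by rintro rfl; omega)
        (by rintro rfl; omega) (hs _ hux) (hs _ huy) (hs _ huy')
    · obtain ⟨a, b, hab, ha, hb⟩ := h.last hn
      exact three (x := a) (y := b) (z := y) hab (by rintro rfl; omega) (by rintro rfl; omega)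
        (hs _ (hconst a (by omega))) (hs _ (hconst b (by omega))) (hs _ huy)
  · obtain ⟨y', hy', huy'⟩ := exR h hχ2 hu hx hux (by omega)
    obtain ⟨a, b, hab, ha, hb⟩ := h.first hn
    exact three (x := a) (y := b) (z := y') hab (by rintro rfl; omega) (by rintro rfl; omega)
      (hs _ (hconst a (by omega))) (hs _ (hconst b (by omega))) (hs _ huy')

/-- signed symmetries of order two of the flow space -/
structure Sym (β : E → ℕ) (n : ℕ) (ρ : E → E) (ε : E → ℤ) : Prop where
  invol : ∀ e, ρ (ρ e) = e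
  sign : ∀ e, ε e = 1 ∨ ε e = -1
  signρ : ∀ e, ε (ρ e) = ε e
  pres : ∀ χ, χ < 2 → ∀ z : E → ℤ, Std β n χ z → Std β n χ (fun e => ε e * z (ρ e))

theorem sym_of_pres (hlt : ∀ e, β e < n) (hc : ∀ i, i < n → β (c i) = i) {ρ : E → E} {ε : E → ℤ}
    (h1 : ∀ e, ρ (ρ e) = e) (h2 : ∀ e, ε e = 1 ∨ ε e = -1) (h3 : ∀ e, ε (ρ e) = ε e)
    (χ₀ : ℕ) (hχ₀ : χ₀ < 2)
    (hp : ∀ z : E → ℤ, Std β n χ₀ z → Std β n χ₀ (fun e => ε e * z (ρ e))) :
    Sym β n ρ ε := by
  refine ⟨h1, h2, h3, ?_⟩
  intro χ hχ z hz
  by_cases hcase : χ = χ₀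
  · subst hcase; exact hp z hz
  · have hsum : χ₀ + χ = 1 := by omega
    apply std_of_orth β n χ₀ χ hlt hsum c hc
    intro w hw
    have h4 := std_orth β n χ₀ χ hlt hsum _ _ (hp w hw) hz
    let σ : Equiv.Perm E := ⟨ρ, ρ, h1, h1⟩
    rw [← Equiv.sum_comp σ] at h4
    rw [← h4]
    apply Finset.sum_congr rfl
    intro e _
    show w e * (ε e * z (ρ e)) = ε (ρ e) * w (ρ (ρ e)) * z (ρ e)
    rw [h1, h3]
    ring

variable {ρ : E → E} {ε : E → ℤ}

theorem sgn_ne (S : Sym β n ρ ε) (e : E) : ε e ≠ 0 := by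
  rcases S.sign e with h | h <;> rw [h] <;> norm_num

/-- edges of one block go to one block, with the same sign and the same parity of the block -/
theorem same_block (h : Canon β n c) (hn : 2 ≤ n) (S : Sym β n ρ ε) {e e' : E} (hne : e ≠ e')
    (hb : β e = β e') : β (ρ e) = β (ρ e') ∧ ε e = ε e' ∧ β (ρ e) % 2 = β e % 2 := by
  obtain ⟨χ, hχ⟩ : ∃ χ, χ = β e % 2 := ⟨_, rfl⟩
  have hχ2 : χ < 2 := by omega
  have hu := S.pres χ hχ2 _ (std_dv (A := ℤ) β n χ e e' hb hχ.symm)
  set u : E → ℤ := fun x => ε x * dv ℤ e e' (ρ x) with hudef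
  have hρ : ∀ x y, ρ x = y ↔ x = ρ y := by
    intro x y
    constructor
    · rintro rfl; exact (S.invol x).symm
    · rintro rfl; exact S.invol y
  have huval : ∀ x, u x = ε x * ((if x = ρ e then 1 else 0) - (if x = ρ e' then 1 else 0)) := by
    intro x
    simp only [hudef, dv, hρ]
  have hsupp : ∀ y, u y ≠ 0 → y = ρ e ∨ y = ρ e' := by
    intro y hy
    by_contra hcon
    push Not at hcon
    apply hy
    rw [huval, if_neg hcon.1, if_neg hcon.2]
    ring
  have hneρ : ρ e ≠ ρ e' := by
    intro hh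
    apply hne
    rw [← S.invol e, hh, S.invol]
  have hue : u (ρ e) ≠ 0 := by
    rw [huval, if_pos rfl, if_neg hneρ, sub_zero, mul_one]
    exact sgn_ne S _
  have hpar : β (ρ e) % 2 = χ := by
    by_contra hcon
    exact hue (key1 h hn hχ2 hu (ρ e) (ρ e') hsupp (ρ e) hcon)
  have hzero := key1 h hn hχ2 hu (ρ e) (ρ e') hsupp
  obtain ⟨V, V0, Vn, hV1, hV2⟩ := hu
  obtain ⟨i, hi⟩ : ∃ i, i = β (ρ e) := ⟨_, rfl⟩
  have hin : i < n := hi ▸ h.lt _
  rw [← hi] at hpar
  have hVi : V i = 0 := by
    by_cases h0 : i = 0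
    · rw [h0, V0]
    · have h1 := hzero (c (i - 1)) (by rw [h.rep _ (by omega)]; omega)
      rw [hV1 _ (by rw [h.rep _ (by omega)]; omega), h.rep _ (by omega)] at h1
      have : i - 1 + 1 = i := by omega
      rw [this] at h1
      exact h1
  have hVi2 : V (i + 2) = 0 := by
    by_cases h0 : i + 1 < n
    · have h1 := hzero (c (i + 1)) (by rw [h.rep _ (by omega)]; omega)
      rw [hV1 _ (by rw [h.rep _ (by omega)]; omega), h.rep _ (by omega)] at h1
      exact h1
    · have : i + 2 = n + 1 := by omega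
      rw [this, Vn]
  have hsum := hV2 i hin hpar
  rw [hVi, hVi2, sub_zero] at hsum
  have hsum2 : ∑ x ∈ blk β i, u x = ε (ρ e) - (if β (ρ e') = i then ε (ρ e') else 0) := by
    have h1 : ∀ x ∈ blk β i, u x = (if x = ρ e then ε x else 0) - (if x = ρ e' then ε x else 0) := by
      intro x _
      rw [huval]
      split_ifs <;> ring
    rw [Finset.sum_congr rfl h1, Finset.sum_sub_distrib, Finset.sum_ite_eq', Finset.sum_ite_eq']
    simp only [mem_blk]
    rw [if_pos hi.symm]
  rw [hsum2, S.signρ, S.signρ] at hsum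
  by_cases h5 : β (ρ e') = i
  · rw [if_pos h5] at hsum
    exact ⟨by rw [← hi, h5], by linarith, by rw [← hi, hpar, hχ]⟩
  · rw [if_neg h5, sub_zero] at hsum
    exact absurd hsum (sgn_ne S e)

/-- the star of the block `k` -/
def star (β : E → ℕ) (c : ℕ → E) (k : ℕ) : E → ℤ :=
  tv β (1 - k % 2) (fun j => if j = k + 1 then 1 else 0) c

theorem star_std (h : Canon β n c) {k : ℕ} (hk : k < n) :
    Std β n (1 - k % 2) (star β c k) := by
  apply std_tv
  · rw [if_neg (by omega)]
  · rw [if_neg (by omega)]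
  · exact h.rep

theorem star_self {k : ℕ} {x : E} (hx : β x = k) : star β c k x = 1 := by
  unfold star tv
  rw [if_pos (by omega)]
  exact if_pos (by omega)

theorem star_supp {k : ℕ} {x : E} (hx : star β c k x ≠ 0) :
    β x = k ∨ (x = c (k + 1) ∧ β x = k + 1) ∨ (x = c (k - 1) ∧ β x + 1 = k) := by
  unfold star tv at hx
  by_cases h1 : β x % 2 ≠ 1 - k % 2
  · rw [if_pos h1] at hx
    left
    by_contra h2
    exact hx (if_neg (by omega))
  · rw [if_neg h1] at hx
    by_cases h2 : x = c (β x)
    · rw [if_pos h2] at hx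
      by_cases h3 : β x = k + 1
      · right; left
        exact ⟨by rw [← h3]; exact h2, h3⟩
      · by_cases h4 : β x + 1 = k
        · right; right
          refine ⟨?_, h4⟩
          have : k - 1 = β x := by omega
          rw [this]
          exact h2
        · exfalso
          apply hx
          beta_reduce
          rw [if_neg (by omega), if_neg (by omega), sub_zero]
    · rw [if_neg h2] at hx
      exact absurd rfl hx

theorem star_next (h : Canon β n c) {k : ℕ} (hk : k + 1 < n) : star β c k (c (k + 1)) = 1 := by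
  unfold star tv
  rw [if_neg (by rw [h.rep _ hk]; omega), if_pos (by rw [h.rep _ hk]), h.rep _ hk]
  beta_reduce
  rw [if_pos rfl, if_neg (by omega), sub_zero]

/-- the image of an edge depends only on its block -/
theorem blk_image (h : Canon β n c) (hn : 2 ≤ n) (S : Sym β n ρ ε) {e e' : E}
    (hb : β e = β e') : β (ρ e) = β (ρ e') ∧ ε e = ε e' := by
  by_cases hne : e = e'
  · subst hne; exact ⟨rfl, rfl⟩
  · have := same_block h hn S hne hb
    exact ⟨this.1, this.2.1⟩

/-- a symmetry preserves every block or reverses the order of the blocks -/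
theorem blocks_dichotomy (h : Canon β n c) (S : Sym β n ρ ε) :
    (∀ e, β (ρ e) = β e) ∨ (n % 2 = 1 ∧ ∀ e, β (ρ e) + β e = n - 1) := by
  by_cases hn : n ≤ 1
  · left
    intro e
    have h1 := h.lt e
    have h2 := h.lt (ρ e)
    omega
  have hn : 2 ≤ n := by omega
  -- supports of images of stars
  set u : ℕ → E → ℤ := fun k e => ε e * star β c k (ρ e) with hu
  have ustd : ∀ k, k < n → Std β n (1 - k % 2) (u k) := fun k hk =>
    S.pres _ (by omega) _ (star_std h hk)
  have uself : ∀ k x, β (ρ x) = k → u k x ≠ 0 := by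
    intro k x hx
    simp only [hu]
    rw [star_self hx, mul_one]
    exact sgn_ne S x
  have usupp : ∀ k x, u k x ≠ 0 → β (ρ x) = k ∨ (ρ x = c (k + 1) ∧ β (ρ x) = k + 1) ∨
      (ρ x = c (k - 1) ∧ β (ρ x) + 1 = k) := by
    intro k x hx
    apply star_supp
    intro h0
    apply hx
    simp only [hu]
    rw [h0, mul_zero]
  have back : ∀ x y, ρ x = y → x = ρ y := by
    rintro x y rfl; exact (S.invol x).symm
  -- the image of the block of x is a block: if β (ρ x) = k then β x = β (ρ (c k))
  have hblk : ∀ k x, k < n → β (ρ x) = k → β x = β (ρ (c k)) := by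
    intro k x hk hx
    have := (blk_image h hn S (e := ρ x) (e' := c k) (by rw [hx, h.rep k hk])).1
    rw [S.invol] at this
    exact this
  -- the first block
  obtain ⟨a, b, hab, ha, hb⟩ := h.first hn
  have hpar0 : β (ρ (c 0)) % 2 = 0 := by
    have h1 := (same_block h hn S hab (by rw [ha, hb])).2.2
    have h2 := (blk_image h hn S (e := a) (e' := c 0) (by rw [ha, h.rep 0 (by omega)])).1
    rw [← h2, h1, ha]
  obtain ⟨j, hj⟩ : ∃ j, j = β (ρ (c 0)) := ⟨_, rfl⟩
  have hjn : j < n := hj ▸ h.lt _
  have hu0 : u 0 (ρ (c 0)) ≠ 0 := uself 0 _ (by rw [S.invol]; exact h.rep 0 (by omega))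
  have hxχ : β (ρ (c 0)) % 2 ≠ 1 - 0 % 2 := by omega
  have hg0 : ∀ y, β y ≠ j → y ≠ ρ (c 1) → u 0 y = 0 := by
    intro y hy hy1
    by_contra h0
    rcases usupp 0 y h0 with h1 | h1 | h1
    · exact hy ((hblk 0 y (by omega) h1).trans hj.symm)
    · exact hy1 (back _ _ h1.1)
    · omega
  have hR0 : j + 1 < n → β (ρ (c 1)) = j + 1 := by
    intro hlt
    have := (keyR h (by omega) (ustd 0 (by omega)) hxχ hu0 (by omega) (ρ (c 1))
      (fun y hy hy1 => hg0 y (by omega) hy1)).1
    omega
  have hL0 : 1 ≤ j → β (ρ (c 1)) + 1 = j := by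
    intro hlt
    have := (keyL h (by omega) (ustd 0 (by omega)) hxχ hu0 (by omega) (ρ (c 1))
      (fun y hy hy1 => hg0 y (by omega) hy1)).1
    omega
  have hcase : j = 0 ∨ j = n - 1 := by
    by_contra hcon
    push Not at hcon
    have h1 := hR0 (by omega)
    have h2 := hL0 (by omega)
    omega
  -- general step
  have hgen : ∀ k, 1 ≤ k → k + 1 < n → ∀ m, β (ρ (c k)) = m → m % 2 = k % 2 →
      ((β (ρ (c (k - 1))) + 1 = m → m + 1 < n → β (ρ (c (k + 1))) = m + 1) ∧
       (β (ρ (c (k - 1))) = m + 1 → 1 ≤ m → β (ρ (c (k + 1))) + 1 = m)) := by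
    intro k hk hk2 m hm hmk
    have huk : u k (ρ (c k)) ≠ 0 := uself k _ (by rw [S.invol]; exact h.rep k (by omega))
    have hχk : β (ρ (c k)) % 2 ≠ 1 - k % 2 := by omega
    have hgk : ∀ y, β y ≠ m → y ≠ ρ (c (k + 1)) → y ≠ ρ (c (k - 1)) → u k y = 0 := by
      intro y hy hy1 hy2
      by_contra h0
      rcases usupp k y h0 with h1 | h1 | h1
      · exact hy ((hblk k y (by omega) h1).trans hm)
      · exact hy1 (back _ _ h1.1)
      · exact hy2 (back _ _ h1.1)
    constructor
    · intro hprev hlt
      have := (keyR h (by omega) (ustd k (by omega)) hχk huk (by omega) (ρ (c (k + 1)))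
        (fun y hy hy1 => hgk y (by omega) hy1 (by rintro rfl; omega))).1
      omega
    · intro hprev hlt
      have := (keyL h (by omega) (ustd k (by omega)) hχk huk (by omega) (ρ (c (k + 1)))
        (fun y hy hy1 => hgk y (by omega) hy1 (by rintro rfl; omega))).1
      omega
  rcases hcase with h0 | h0
  · left
    have hind : ∀ k, k < n → β (ρ (c k)) = k := by
      intro k
      induction k using Nat.strong_induction_on with
      | _ k ih =>
        intro hk
        rcases Nat.lt_or_ge k 2 with h2 | h2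
        · interval_cases k
          · omega
          · have := hR0 (by omega)
            omega
        · have h3 := ih (k - 1) (by omega) (by omega)
          have h4 := ih (k - 2) (by omega) (by omega)
          have h5 := (hgen (k - 1) (by omega) (by omega) (k - 1) h3 rfl).1
            (by
              have : k - 1 - 1 = k - 2 := by omega
              rw [this, h4]; omega) (by omega)
          have : k - 1 + 1 = k := by omega
          rw [this] at h5
          exact h5
    intro e
    rw [(blk_image h hn S (e := e) (e' := c (β e)) (h.rep _ (h.lt e)).symm).1]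
    exact hind _ (h.lt e)
  · right
    have hodd : n % 2 = 1 := by omega
    refine ⟨hodd, ?_⟩
    have hind : ∀ k, k < n → β (ρ (c k)) + k = n - 1 := by
      intro k
      induction k using Nat.strong_induction_on with
      | _ k ih =>
        intro hk
        rcases Nat.lt_or_ge k 2 with h2 | h2
        · interval_cases k
          · omega
          · have := hL0 (by omega)
            omega
        · have h3 := ih (k - 1) (by omega) (by omega)
          have h4 := ih (k - 2) (by omega) (by omega)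
          have h5 := (hgen (k - 1) (by omega) (by omega) (n - k) (by omega) (by omega)).2
            (by
              have : k - 1 - 1 = k - 2 := by omega
              rw [this]; omega) (by omega)
          have : k - 1 + 1 = k := by omega
          rw [this] at h5
          omega
    intro e
    rw [(blk_image h hn S (e := e) (e' := c (β e)) (h.rep _ (h.lt e)).symm).1]
    exact hind _ (h.lt e)

/-- if the blocks are preserved then the sign is constant -/
theorem sign_const (h : Canon β n c) (hn : 2 ≤ n) (S : Sym β n ρ ε)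
    (hp : ∀ e, β (ρ e) = β e) (e e' : E) : ε e = ε e' := by
  have step : ∀ k, k + 1 < n → ε (c (k + 1)) = ε (c k) := by
    intro k hk
    have hu := S.pres _ (by omega) _ (star_std h (k := k) (by omega))
    obtain ⟨V, V0, Vn, hV1, hV2⟩ := hu
    beta_reduce at hV1 hV2
    have h1 := hV1 (c k) (by rw [h.rep _ (by omega)]; omega)
    rw [h.rep _ (by omega), star_self (by rw [hp, h.rep _ (by omega)]), mul_one] at h1
    have hV3 : V (k + 3) = 0 := by
      by_cases h0 : k + 2 < n
      · have h2 := hV1 (c (k + 2)) (by rw [h.rep _ h0]; omega)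
        rw [h.rep _ h0] at h2
        rw [← h2]
        have : star β c k (ρ (c (k + 2))) = 0 := by
          by_contra h3
          have h4 := star_supp h3
          rw [hp, h.rep _ h0] at h4
          omega
        rw [this, mul_zero]
      · have : k + 3 = n + 1 := by omega
        rw [this, Vn]
    have h2 := hV2 (k + 1) hk (by omega)
    have h5 : k + 1 + 2 = k + 3 := by omega
    rw [h5, hV3, sub_zero, ← h1, Finset.sum_eq_single (ρ (c (k + 1)))] at h2
    · rw [S.invol, star_next h hk, mul_one, S.signρ] at h2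
      exact h2
    · intro x hx hne
      rw [mem_blk] at hx
      have : star β c k (ρ x) = 0 := by
        by_contra h3
        have h4 := star_supp h3
        rw [hp, hx] at h4
        rcases h4 with h4 | h4 | h4
        · omega
        · apply hne
          rw [← h4.1, S.invol]
        · omega
      rw [this, mul_zero]
    · intro h3
      exact absurd (mem_blk.2 (by rw [hp, h.rep _ hk])) h3
  have all : ∀ k, k < n → ε (c k) = ε (c 0) := by
    intro k
    induction k with
    | zero => intro _; rfl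
    | succ k ih => intro hk; rw [step k hk, ih (by omega)]
  have hx : ∀ x, ε x = ε (c 0) := by
    intro x
    rw [(blk_image h hn S (e := x) (e' := c (β x)) (h.rep _ (h.lt x)).symm).2]
    exact all _ (h.lt x)
  rw [hx e, hx e']

end Pool.Agent.Helper75.Lamm
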