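import Pool.Agent.Helper75.Lamm.Ops

/-!
# Construction of symmetric plane graphs for the expansions of type (A) and type (B)
-/

namespace Pool.Agent.Helper75.Lamm

open Finset Equiv

set_option linter.unusedSectionVars false

section Split

variable {D : Type} [Fintype D] {E : Type} [Fintype E] [DecidableEq E]
  {G : PlaneGraph D} {f : D ≃ E × Bool} {β : E → ℕ} {n χ : ℕ}

/-- splitting off an edge of the first block as a new first block -/
theorem Both.split_first (H : Both G f β n χ) {e₀ : E} (h0 : β e₀ = 0) (hn : 1 ≤ n) :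
    Both G (f.trans (flipEquiv e₀)) (fun e => if e = e₀ then 0 else β e + 1) (n + 1) (1 - χ) := by
  have hp := H.par
  have h1 : ∀ e, (if e = e₀ then 0 else β e + 1) = 0 ↔ e = e₀ := by
    intro e
    by_cases h : e = e₀ <;> simp [h]
  have h2 : (fun e => (if e = e₀ then 0 else β e + 1) - 1) = β := by
    funext e
    by_cases h : e = e₀
    · simp [h, h0]
    · simp [h]
  have h3 : ∀ z : E → ℤ, dart f (flipAt e₀ z) = dart (f.trans (flipEquiv e₀)) z := by
    intro z
    funext d
    simp only [dart, Equiv.trans_apply, flipEquiv, Equiv.coe_fn_mk, flipAt]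
    by_cases h : (f d).1 = e₀
    · simp only [if_pos h]
      cases (f d).2 <;> simp
    · simp only [if_neg h]
  have h4 : ∀ χ', χ' < 2 → ∀ z : E → ℤ,
      Std (fun e => if e = e₀ then 0 else β e + 1) (n + 1) χ' z ↔
        Std β n (1 - χ') (flipAt e₀ z) := by
    intro χ' hχ' z
    have := std_merge_first (n := n + 1) (by omega) hχ' h1 z
    rw [h2] at this
    exact this
  refine ⟨?_, ?_, by omega, ?_, ?_⟩
  · intro d
    simp only [Equiv.trans_apply, H.rev, flipEquiv, Equiv.coe_fn_mk]
    by_cases h : (f d).1 = e₀ <;> simp [h]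
  · intro e
    have := H.lt e
    beta_reduce
    split_ifs <;> omega
  · intro z
    rw [h4 _ (by omega)]
    have h5 : 1 - (1 - χ) = χ := by omega
    rw [h5, H.flow, h3]
  · intro z
    rw [h4 _ (by omega)]
    have h5 : 1 - (1 - χ) = χ := by omega
    rw [h5, H.coflow, h3]

/-- splitting off an edge of the last block as a new last block -/
theorem Both.split_last (H : Both G f β n χ) {e₁ : E} (h1 : β e₁ = n - 1) (hn : 1 ≤ n) :
    Both G f (fun e => if e = e₁ then n else β e) (n + 1) χ := by
  have hp := H.par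
  have hlt := H.lt
  have h2 : ∀ e, (if e = e₁ then n else β e) = n + 1 - 1 ↔ e = e₁ := by
    intro e
    have := hlt e
    by_cases h : e = e₁
    · simp [h]
    · rw [if_neg h]
      exact ⟨fun h' => by omega, fun h' => absurd h' h⟩
  have h3 : (fun e => min (if e = e₁ then n else β e) (n + 1 - 2)) = β := by
    funext e
    have := hlt e
    by_cases h : e = e₁
    · subst h
      rw [if_pos rfl]
      omega
    · rw [if_neg h]
      omega
  have h4 : ∀ χ', χ' < 2 → ∀ z : E → ℤ,
      Std (fun e => if e = e₁ then n else β e) (n + 1) χ' z ↔ Std β n χ' z := by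
    intro χ' hχ' z
    have := std_merge_last (n := n + 1) (β := fun e => if e = e₁ then n else β e)
      (by omega) hχ' (fun e => by
        have := hlt e
        beta_reduce
        split_ifs <;> omega) h2 z
    rw [h3] at this
    exact this
  refine ⟨H.rev, ?_, hp, ?_, ?_⟩
  · intro e
    have := hlt e
    beta_reduce
    split_ifs <;> omega
  · intro z
    rw [h4 _ hp, H.flow]
  · intro z
    rw [h4 _ (by omega), H.coflow]

theorem card_split_first (β : E → ℕ) {e₀ : E} (h0 : β e₀ = 0) (i : ℕ) :
    (blk (fun e => if e = e₀ then 0 else β e + 1) i).card =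
      if i = 0 then 1 else if i = 1 then (blk β 0).card - 1 else (blk β (i - 1)).card := by
  rcases i with _ | _ | i
  · rw [if_pos rfl]
    have : blk (fun e => if e = e₀ then 0 else β e + 1) 0 = {e₀} := by
      ext e
      rw [mem_blk, mem_singleton]
      by_cases h : e = e₀ <;> simp [h]
    rw [this, card_singleton]
  · rw [if_neg (by omega), if_pos rfl]
    have : blk (fun e => if e = e₀ then 0 else β e + 1) (0 + 1) = (blk β 0).erase e₀ := by
      ext e
      rw [mem_blk, mem_erase, mem_blk]
      by_cases h : e = e₀ <;> simp [h]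
    rw [this, card_erase_of_mem (mem_blk.2 h0)]
  · rw [if_neg (by omega), if_neg (by omega)]
    have : blk (fun e => if e = e₀ then 0 else β e + 1) (i + 1 + 1) = blk β (i + 1 + 1 - 1) := by
      ext e
      rw [mem_blk, mem_blk]
      by_cases h : e = e₀
      · subst h
        simp [h0]
      · simp [h]
    rw [this]

theorem card_split_last (β : E → ℕ) {n : ℕ} {e₁ : E} (hlt : ∀ e, β e < n) (h1 : β e₁ = n - 1)
    (hn : 1 ≤ n) (i : ℕ) :
    (blk (fun e => if e = e₁ then n else β e) i).card =
      if i = n then 1 else if i = n - 1 then (blk β (n - 1)).card - 1 else (blk β i).card := by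
  by_cases h2 : i = n
  · subst h2
    rw [if_pos rfl]
    have : blk (fun e => if e = e₁ then i else β e) i = {e₁} := by
      ext e
      rw [mem_blk, mem_singleton]
      have := hlt e
      by_cases h : e = e₁
      · simp [h]
      · rw [if_neg h]
        exact ⟨fun h' => by omega, fun h' => absurd h' h⟩
    rw [this, card_singleton]
  · rw [if_neg h2]
    by_cases h3 : i = n - 1
    · rw [if_pos h3]
      have : blk (fun e => if e = e₁ then n else β e) i = (blk β (n - 1)).erase e₁ := by
        ext e
        rw [mem_blk, mem_erase, mem_blk]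
        by_cases h : e = e₁
        · simp only [h, if_true, ne_eq, not_true_eq_false, false_and, iff_false]
          omega
        · simp [h, h3]
      rw [this, card_erase_of_mem (mem_blk.2 h1)]
    · rw [if_neg h3]
      congr 1
      ext e
      rw [mem_blk, mem_blk]
      by_cases h : e = e₁
      · subst h
        simp only [if_true]
        omega
      · simp [h]

end Split

/-! ### Data with a reflection -/

/-- a plane graph with reflection, in block form with block sizes `s` -/
structure Rfl (χ n : ℕ) (s : ℕ → ℕ) {D E : Type} [Fintype D] [Fintype E] (G : PlaneGraph D)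
    (f : D ≃ E × Bool) (β : E → ℕ) (r : Perm D) : Prop where
  both : Both G f β n χ
  axial : G.IsAxial r
  card : ∀ i, (blk β i).card = s i

section Rfl

variable {D : Type} [Fintype D] {E : Type} [Fintype E] [DecidableEq E] [DecidableEq D]
  {G : PlaneGraph D} {f : D ≃ E × Bool} {β : E → ℕ} {n χ : ℕ} {s : ℕ → ℕ} {r : Perm D}

theorem Rfl.dual (R : Rfl χ n s G f β r) : Rfl (1 - χ) n s G.dual f β (G.α * r) :=
  ⟨R.both.dual, axial_dual R.axial, R.card⟩

theorem Rfl.double_one (R : Rfl χ n s G f β r) {x : D} (hx : r x = G.α x)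
    (h : β (f x).1 % 2 = χ) :
    Rfl χ n (fun i => s i + if β (f x).1 = i then 1 else 0) (G.double x) (dblE f x)
      (fun o : Option E => o.elim (β (f x).1) β) (Perm.sumCongr r Equiv.boolNot) :=
  ⟨R.both.double x h, axial_double_one R.axial hx, fun i => by
    rw [card_blk_dbl, R.card]⟩

/-- block numbers after doubling two edges -/
def blk2 (f : D ≃ E × Bool) (β : E → ℕ) (x y : D) (o : Option (Option E)) : ℕ :=
  o.elim (β (f y).1) (fun o' : Option E => o'.elim (β (f x).1) β)

theorem Rfl.double_two (R : Rfl χ n s G f β r) {x : D} (hx : r x ≠ G.α x)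
    (h : β (f x).1 % 2 = χ) (h' : β (f (r x)).1 % 2 = χ) :
    Rfl χ n (fun i => s i + (if β (f x).1 = i then 1 else 0) +
        (if β (f (r x)).1 = i then 1 else 0))
      ((G.double x).double (Sum.inl (G.α (r x))))
      (dblE (dblE f x) (Sum.inl (G.α (r x)))) (blk2 f β x (r x)) (swap2 r) := by
  have h1 := (R.both.double x h).double (Sum.inl (G.α (r x))) (by
    rw [dblE_inl]
    simp only [Option.elim_some]
    rw [R.both.rev]
    exact h')
  have h2 : (fun o : Option (Option E) =>
      o.elim ((fun o' : Option E => o'.elim (β (f x).1) β)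
        (dblE f x (Sum.inl (G.α (r x)))).1) (fun o' : Option E => o'.elim (β (f x).1) β)) =
      blk2 f β x (r x) := by
    funext o
    unfold blk2
    rw [dblE_inl]
    simp only [Option.elim_some]
    rw [R.both.rev]
  rw [h2] at h1
  refine ⟨h1, axial_double_two R.axial hx, fun i => ?_⟩
  have h3 := card_blk_dbl (fun o' : Option E => o'.elim (β (f x).1) β) (β (f (r x)).1) i
  have h4 := card_blk_dbl β (β (f x).1) i
  rw [h4, R.card] at h3
  exact h3

end Rfl

/-- a symmetric graph with an edge of the first block which is reversed -/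
def HasOne (χ n : ℕ) (s : ℕ → ℕ) : Prop :=
  ∃ (D E : Type) (_ : Fintype D) (_ : Fintype E) (G : PlaneGraph D) (f : D ≃ E × Bool)
    (β : E → ℕ) (r : Perm D) (x : D), Rfl χ n s G f β r ∧ β (f x).1 = 0 ∧ r x = G.α x

/-- a symmetric graph with an edge of the first block which is fixed -/
def HasFix (χ n : ℕ) (s : ℕ → ℕ) : Prop :=
  ∃ (D E : Type) (_ : Fintype D) (_ : Fintype E) (G : PlaneGraph D) (f : D ≃ E × Bool)
    (β : E → ℕ) (r : Perm D) (x : D), Rfl χ n s G f β r ∧ β (f x).1 = 0 ∧ r x = x

/-- a symmetric graph with two edges of the end blocks which are interchanged -/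
def HasPair (χ n : ℕ) (s : ℕ → ℕ) : Prop :=
  ∃ (D E : Type) (_ : Fintype D) (_ : Fintype E) (G : PlaneGraph D) (f : D ≃ E × Bool)
    (β : E → ℕ) (r : Perm D) (x : D), Rfl χ n s G f β r ∧ β (f x).1 = 0 ∧
      β (f (r x)).1 = n - 1 ∧ (f (r x)).1 ≠ (f x).1

theorem HasOne.dual {χ n : ℕ} {s : ℕ → ℕ} (h : HasOne χ n s) : HasFix (1 - χ) n s := by
  classical
  obtain ⟨D, E, iD, iE, G, f, β, r, x, R, h1, h2⟩ := h
  refine ⟨D, E, iD, iE, G.dual, f, β, G.α * r, x, R.dual, h1, ?_⟩
  rw [Perm.mul_apply, h2, G.invol]

theorem HasFix.dual {χ n : ℕ} {s : ℕ → ℕ} (h : HasFix χ n s) : HasOne (1 - χ) n s := by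
  classical
  obtain ⟨D, E, iD, iE, G, f, β, r, x, R, h1, h2⟩ := h
  refine ⟨D, E, iD, iE, G.dual, f, β, G.α * r, x, R.dual, h1, ?_⟩
  rw [Perm.mul_apply, h2]
  rfl

theorem HasPair.dual {χ n : ℕ} {s : ℕ → ℕ} (h : HasPair χ n s) : HasPair (1 - χ) n s := by
  classical
  obtain ⟨D, E, iD, iE, G, f, β, r, x, R, h1, h2, h3⟩ := h
  refine ⟨D, E, iD, iE, G.dual, f, β, G.α * r, x, R.dual, h1, ?_, ?_⟩
  · rw [Perm.mul_apply, R.both.rev]
    exact h2
  · rw [Perm.mul_apply, R.both.rev]
    exact h3

theorem HasOne.grow {n : ℕ} {s : ℕ → ℕ} (h : HasOne 0 n s) :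
    HasOne 0 n (fun i => s i + if 0 = i then 1 else 0) := by
  classical
  obtain ⟨D, E, iD, iE, G, f, β, r, x, R, h1, h2⟩ := h
  have h3 := R.double_one h2 (by rw [h1])
  rw [h1] at h3
  refine ⟨_, _, inferInstance, inferInstance, _, _, _, _, Sum.inl x, h3, ?_, ?_⟩
  · rw [dblE_inl]
    exact h1
  · show Sum.inl (r x) = Sum.inl (G.α x)
    rw [h2]

theorem HasFix.grow {n : ℕ} {s : ℕ → ℕ} (h : HasFix 0 n s) :
    HasFix 0 n (fun i => s i + (if 0 = i then 1 else 0) + (if 0 = i then 1 else 0)) := by
  classical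
  obtain ⟨D, E, iD, iE, G, f, β, r, x, R, h1, h2⟩ := h
  have h3 := R.double_two (x := x) (by rw [h2]; exact fun h => G.noFix x h.symm) (by rw [h1])
    (by rw [h2, h1])
  rw [h2, h1] at h3
  refine ⟨_, _, inferInstance, inferInstance, _, _, _, _, Sum.inl (Sum.inl x), h3, ?_, ?_⟩
  · rw [dblE_inl, dblE_inl]
    exact h1
  · rw [swap2_inl, h2]

theorem HasFix.pair {s : ℕ → ℕ} (h : HasFix 0 1 s) :
    HasPair 0 1 (fun i => s i + (if 0 = i then 1 else 0) + (if 0 = i then 1 else 0)) := by
  classical
  obtain ⟨D, E, iD, iE, G, f, β, r, x, R, h1, h2⟩ := h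
  have h3 := R.double_two (x := x) (by rw [h2]; exact fun h => G.noFix x h.symm) (by rw [h1])
    (by rw [h2, h1])
  rw [h2, h1] at h3
  refine ⟨_, _, inferInstance, inferInstance, _, _, _, _, Sum.inl (Sum.inr true), h3, ?_, ?_, ?_⟩
  · rw [dblE_inl, dblE_inr]
    exact h1
  · rw [swap2_mid, dblE_inr]
    exact h1
  · rw [swap2_mid, dblE_inr]
    show (none : Option (Option E)) ≠ some none
    simp

theorem HasPair.grow0 {n : ℕ} {s : ℕ → ℕ} (hn : (n - 1) % 2 = 0) (h : HasPair 0 n s) :
    HasPair 0 n (fun i => s i + (if 0 = i then 1 else 0) + (if n - 1 = i then 1 else 0)) := by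
  classical
  obtain ⟨D, E, iD, iE, G, f, β, r, x, R, h1, h2, h4⟩ := h
  have h3 := R.double_two (x := x) (by
    intro h
    rw [h, R.both.rev] at h4
    exact h4 rfl) (by rw [h1]) (by rw [h2, hn])
  rw [h2, h1] at h3
  refine ⟨_, _, inferInstance, inferInstance, _, _, _, _, Sum.inl (Sum.inr true), h3, ?_, ?_, ?_⟩
  · rw [dblE_inl, dblE_inr]
    exact h1
  · rw [swap2_mid, dblE_inr]
    exact h2
  · rw [swap2_mid, dblE_inr]
    show (none : Option (Option E)) ≠ some none
    simp

theorem HasPair.grow {χ n : ℕ} (hχ : χ < 2) {s : ℕ → ℕ} (hn : (n - 1) % 2 = 0)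
    (h : HasPair χ n s) :
    HasPair χ n (fun i => s i + (if 0 = i then 1 else 0) + (if n - 1 = i then 1 else 0)) := by
  rcases (by omega : χ = 0 ∨ χ = 1) with rfl | rfl
  · exact h.grow0 hn
  · exact (HasPair.grow0 hn h.dual).dual

theorem HasOne.split {χ n : ℕ} {s : ℕ → ℕ} (hn : 1 ≤ n) (h : HasOne χ n s) :
    HasOne (1 - χ) (n + 1)
      (fun i => if i = 0 then 1 else if i = 1 then s 0 - 1 else s (i - 1)) := by
  classical
  obtain ⟨D, E, iD, iE, G, f, β, r, x, R, h1, h2⟩ := h
  refine ⟨D, E, iD, iE, G, f.trans (flipEquiv (f x).1),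
    fun e => if e = (f x).1 then 0 else β e + 1, r, x,
    ⟨R.both.split_first h1 hn, R.axial, fun i => ?_⟩, ?_, h2⟩
  · rw [card_split_first β h1, R.card, R.card]
  · simp [flipEquiv]

theorem HasPair.split {χ n : ℕ} {s : ℕ → ℕ} (hn : 1 ≤ n) (h : HasPair χ n s) :
    HasPair (1 - χ) (n + 2)
      (fun i => if i = n + 1 then 1 else if i = n then
        (if n = 0 then 1 else if n = 1 then s 0 - 1 else s (n - 1)) - 1 else
        if i = 0 then 1 else if i = 1 then s 0 - 1 else s (i - 1)) := by
  classical
  obtain ⟨D, E, iD, iE, G, f, β, r, x, R, h1, h2, h3⟩ := h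
  have h4 := R.both.split_first h1 hn
  have h5 := h4.split_last (e₁ := (f (r x)).1) (by
    beta_reduce
    rw [if_neg h3, h2]
    omega) (by omega)
  refine ⟨D, E, iD, iE, G, f.trans (flipEquiv (f x).1), _, r, x, ⟨h5, R.axial, fun i => ?_⟩,
    ?_, ?_, ?_⟩
  · rw [card_split_last _ h4.lt (by
      beta_reduce
      rw [if_neg h3, h2]
      omega) (by omega)]
    simp only [card_split_first β h1, R.card, Nat.add_sub_cancel]
  · have h6 : ((f.trans (flipEquiv (f x).1)) x).1 = (f x).1 := rfl
    rw [h6]
    beta_reduce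
    rw [if_neg h3.symm, if_pos rfl]
  · have h6 : ((f.trans (flipEquiv (f x).1)) (r x)).1 = (f (r x)).1 := rfl
    rw [h6]
    beta_reduce
    rw [if_pos rfl]
    omega
  · exact h3

/-! ### The base -/

/-- the graph with two vertices and one edge -/
def edgeGraph : PlaneGraph Bool where
  σ := 1
  α := Equiv.boolNot
  invol := by decide
  noFix := by decide
  connected := by
    apply connected_of_inv
    intro X _ h2 d d'
    have h : X false = X true := h2 true
    cases d <;> cases d' <;> first | rfl | exact h | exact h.symm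
  euler := by
    rw [one_mul, cycles_boolNot, cycles_one_bool]

theorem hasFix_base : HasFix 0 1 (fun i => if i = 0 then 1 else 0) := by
  classical
  refine ⟨Bool, Unit, inferInstance, inferInstance, edgeGraph, (Equiv.punitProd Bool).symm,
    fun _ => 0, 1, true, ⟨⟨?_, ?_, by omega, ?_, ?_⟩, ⟨?_, ?_, ?_, ?_⟩, ?_⟩, rfl, rfl⟩
  · intro d
    rfl
  · intro e
    exact Nat.zero_lt_one
  · intro z
    constructor
    · rintro ⟨V, V0, V2, -, h2⟩
      have h3 := h2 0 (by omega) rfl
      have h4 : blk (fun _ : Unit => 0) 0 = univ := by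
        ext e
        simp [mem_blk]
      rw [h4, V0, V2] at h3
      have h5 : z () = 0 := by simpa using h3
      refine ⟨?_, ?_⟩
      · intro d
        cases d <;> simp [dart, edgeGraph]
      · intro X _
        simp [dart, h5]
    · rintro ⟨-, h2⟩
      have h3 := h2 (fun b => if b then 1 else 0) (fun d => rfl)
      have h5 : z () = 0 := by simpa [dart] using h3
      refine ⟨fun _ => 0, rfl, rfl, ?_, ?_⟩
      · intro e he
        exact absurd rfl he
      · intro i _ _
        have : ∀ e, z e = 0 := fun e => h5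
        simp [this]
  · intro z
    constructor
    · intro _
      refine ⟨?_, ?_⟩
      · intro d
        cases d <;> simp [dart, edgeGraph]
      · intro X hX
        have h3 : X false = X true := hX true
        rw [Fintype.sum_bool, h3]
        simp [dart]
    · intro _
      refine ⟨fun k => if k = 1 then z () else 0, rfl, rfl, ?_, ?_⟩
      · intro e _
        rfl
      · intro i hi hi2
        omega
  · intro d
    rfl
  · intro d
    rfl
  · intro d
    rfl
  · have : {d : Bool | (1 : Perm Bool) d = edgeGraph.σ d} = Set.univ := by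
      ext d
      simp [edgeGraph]
    rw [this, Set.ncard_univ]
    simp
  · intro i
    by_cases h : i = 0
    · subst h
      have h4 : blk (fun _ : Unit => 0) 0 = univ := by
        ext e
        simp [mem_blk]
      rw [h4]
      simp
    · have h4 : blk (fun _ : Unit => 0) i = ∅ := by
        ext e
        simp only [mem_blk, notMem_empty, iff_false]
        omega
      rw [h4, if_neg h]
      simp

end Pool.Agent.Helper75.Lamm
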