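import Pool.Agent.Helper75.Lamm.Defs

/-!
# Continued fractions
-/

namespace Pool.Agent.Helper75.Lamm

open Matrix

/-- the matrix of a continued fraction -/
def mat : List ℕ → Matrix (Fin 2) (Fin 2) ℤ
  | [] => 1
  | x :: l => !![(x : ℤ), 1; 1, 0] * mat l

theorem cf_mat (l : List ℕ) : ((cf l).1 : ℤ) = mat l 0 0 ∧ ((cf l).2 : ℤ) = mat l 1 0 := by
  induction l with
  | nil => simp [cf, mat]
  | cons x l ih =>
    simp only [cf, mat, Matrix.mul_apply, Fin.sum_univ_two]
    rw [← ih.1, ← ih.2]
    constructor
    · push_cast
      simp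
    · simp

theorem mat_append (l l' : List ℕ) : mat (l ++ l') = mat l * mat l' := by
  induction l with
  | nil => simp [mat]
  | cons x l ih => simp only [List.cons_append, mat, ih, Matrix.mul_assoc]

theorem mat_reverse (l : List ℕ) : mat l.reverse = (mat l)ᵀ := by
  induction l with
  | nil => simp [mat]
  | cons x l ih =>
    rw [List.reverse_cons, mat_append, ih]
    simp only [mat, Matrix.transpose_mul, Matrix.mul_one]
    congr 1
    ext i j
    fin_cases i <;> fin_cases j <;> simp

theorem det_mat (l : List ℕ) : (mat l).det = 1 ∨ (mat l).det = -1 := by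
  induction l with
  | nil => left; simp [mat]
  | cons x l ih =>
    simp only [mat, Matrix.det_mul, Matrix.det_fin_two_of]
    rcases ih with h | h <;> rw [h] <;> simp

theorem cf_reverse_num (l : List ℕ) : (cf l.reverse).1 = (cf l).1 := by
  have h1 := (cf_mat l.reverse).1
  rw [mat_reverse, Matrix.transpose_apply, ← (cf_mat l).1] at h1
  exact_mod_cast h1

theorem SameKnot.refl (p q : ℕ) : SameKnot p q q := Or.inl rfl

theorem SameKnot.trans {p q r s : ℕ} (h1 : SameKnot p q r) (h2 : SameKnot p r s) :
    SameKnot p q s := by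
  unfold SameKnot at *
  rcases h1 with h1 | h1 | h1 | h1 <;> rcases h2 with h2 | h2 | h2 | h2
  · left; rw [h2, h1]
  · right; left; rw [h2, h1]
  · right; right; left; rw [← h1]; exact h2
  · right; right; right; rw [← h1]; exact h2
  · right; left; rw [h2, h1]
  · left; rw [h2, h1]; ring
  · right; right; right
    have : (s : ZMod p) * q = -((s : ZMod p) * r) := by rw [h1]; ring
    rw [this, h2]
  · right; right; left
    have : (s : ZMod p) * q = -((s : ZMod p) * r) := by rw [h1]; ring
    rw [this, h2]; ring
  · right; right; left; rw [h2]; exact h1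
  · right; right; right; rw [h2, neg_mul, h1]
  · left
    calc (s : ZMod p) = s * (r * q) := by rw [h1, mul_one]
      _ = (s * r) * q := by ring
      _ = q := by rw [h2, one_mul]
  · right; left
    calc (s : ZMod p) = s * (r * q) := by rw [h1, mul_one]
      _ = (s * r) * q := by ring
      _ = -q := by rw [h2]; ring
  · right; right; right; rw [h2]; exact h1
  · right; right; left; rw [h2, neg_mul, h1]; ring
  · right; left
    calc (s : ZMod p) = -(s * (r * q)) := by rw [h1]; ring
      _ = -((s * r) * q) := by ring
      _ = -q := by rw [h2]; ring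
  · left
    calc (s : ZMod p) = -(s * (r * q)) := by rw [h1]; ring
      _ = -((s * r) * q) := by ring
      _ = q := by rw [h2]; ring

theorem cf_reverse (l : List ℕ) : SameKnot (cf l).1 (cf l).2 (cf l.reverse).2 := by
  have h1 := (cf_mat l).1
  have h2 := (cf_mat l).2
  have h3 := (cf_mat l.reverse).2
  rw [mat_reverse, Matrix.transpose_apply] at h3
  have h4 := det_mat l
  rw [Matrix.det_fin_two, ← h1, ← h2, ← h3] at h4
  right; right
  rcases h4 with h4 | h4
  · right
    have h5 := congrArg (fun t : ℤ => (t : ZMod (cf l).1)) h4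
    push_cast at h5
    rw [ZMod.natCast_self, zero_mul, zero_sub] at h5
    rw [← h5]; ring
  · left
    have h5 := congrArg (fun t : ℤ => (t : ZMod (cf l).1)) h4
    push_cast at h5
    rw [ZMod.natCast_self, zero_mul, zero_sub] at h5
    have h6 : -(((cf l.reverse).2 : ZMod (cf l).1) * ((cf l).2 : ZMod (cf l).1)) = -1 := h5
    linear_combination -h6

/-- `[..., y, 1] = [..., y + 1]` -/
theorem cf_last (l : List ℕ) (y : ℕ) : cf (l ++ [y, 1]) = cf (l ++ [y + 1]) := by
  induction l with
  | nil => simp [cf]
  | cons x l ih => simp only [List.cons_append, cf, ih]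

/-- `[1, y, ...]` is the mirror image of `[y + 1, ...]` -/
theorem cf_first (y : ℕ) (l : List ℕ) : (cf (1 :: y :: l)).1 = (cf ((y + 1) :: l)).1 ∧
    SameKnot (cf ((y + 1) :: l)).1 (cf ((y + 1) :: l)).2 (cf (1 :: y :: l)).2 := by
  have h1 : (cf (1 :: y :: l)).1 = (cf ((y + 1) :: l)).1 := by
    simp only [cf]; ring
  refine ⟨h1, Or.inr (Or.inl ?_)⟩
  have h2 : (cf (1 :: y :: l)).2 + (cf ((y + 1) :: l)).2 = (cf ((y + 1) :: l)).1 := by
    simp only [cf]; ring
  have h3 := congrArg (fun t : ℕ => (t : ZMod (cf ((y + 1) :: l)).1)) h2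
  push_cast at h3
  rw [ZMod.natCast_self] at h3
  exact eq_neg_of_add_eq_zero_left h3

theorem SameKnot.symm {p q r : ℕ} (h : SameKnot p q r) : SameKnot p r q := by
  unfold SameKnot at *
  rcases h with h | h | h | h
  · left; exact h.symm
  · right; left; rw [h]; ring
  · right; right; left; rw [mul_comm]; exact h
  · right; right; right; rw [mul_comm]; exact h

/-- if all entries with even number of a list of odd length are even then so is the numerator -/
theorem even_num : ∀ l : List ℕ, Odd l.length → (∀ i, i < l.length → i % 2 = 0 →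
    Even (l.getD i 0)) → Even (cf l).1
  | [], h, _ => by simp at h
  | [x], _, h => by
    have := h 0 (by simp) rfl
    simpa [cf] using this
  | x :: y :: l, h, h2 => by
    have hl : Odd l.length := by
      simp only [List.length_cons] at h
      rw [Nat.odd_iff] at h ⊢
      omega
    have ih := even_num l hl (fun i hi hi2 => by
      have := h2 (i + 2) (by simp only [List.length_cons]; omega) (by omega)
      simpa using this)
    have hx : Even x := by
      have := h2 0 (by simp) rfl
      simpa using this
    simp only [cf]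
    exact (hx.mul_right _).add ih

/-- a palindrome with even middle entry has even numerator -/
theorem even_num_pal (l : List ℕ) (x : ℕ) (hx : Even x) :
    Even (cf (l ++ [x] ++ l.reverse)).1 := by
  have h1 := (cf_mat (l ++ [x] ++ l.reverse)).1
  rw [mat_append, mat_append, mat_reverse] at h1
  obtain ⟨k, rfl⟩ := hx
  rw [← Int.even_coe_nat, h1]
  simp only [mat, Matrix.mul_apply, Fin.sum_univ_two, Matrix.transpose_apply, Matrix.mul_one]
  refine ⟨mat l 0 0 * mat l 0 0 * k + mat l 0 0 * mat l 0 1, ?_⟩
  simp
  ring

/-- decomposition of a palindrome of odd length -/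
theorem pal_decomp (m : List ℕ) (hodd : Odd m.length) (hpal : m.reverse = m) :
    ∃ l, m = l ++ [m.getD (m.length / 2) 0] ++ l.reverse := by
  obtain ⟨k, hk⟩ := hodd
  have h1 : m.length / 2 = k := by omega
  refine ⟨m.take k, ?_⟩
  have hlt : k < m.length := by omega
  have h2 : m = m.take k ++ (m[k] :: m.drop (k + 1)) := by
    rw [List.getElem_cons_drop, List.take_append_drop]
  have h3 : m.drop (k + 1) = (m.take k).reverse := by
    have h4 : (m.take k).reverse = m.reverse.drop (m.length - k) := by
      rw [List.drop_reverse]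
      congr 2
      omega
    rw [h4, hpal]
    congr 1
    omega
  rw [h1, List.getD_eq_getElem m 0 hlt, List.append_assoc, List.singleton_append, ← h3]
  exact h2

theorem odd_mid (m : List ℕ) (hodd : Odd m.length) (hpal : m.reverse = m)
    (hp : Odd (cf m).1) : Odd (m.getD (m.length / 2) 0) := by
  by_contra h
  rw [Nat.not_odd_iff_even] at h
  obtain ⟨l, hl⟩ := pal_decomp m hodd hpal
  have h1 := even_num_pal l _ h
  rw [← hl] at h1
  exact (Nat.not_odd_iff_even.2 h1) hp

end Pool.Agent.Helper75.Lamm
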