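import Pool.Agent.Helper75.Lamm.CF

/-!
# From block sizes to expansions of type (A) or (B)
-/

namespace Pool.Agent.Helper75.Lamm

theorem getD_reverse (m : List ℕ) {i : ℕ} (hi : i < m.length) :
    m.reverse.getD i 0 = m.getD (m.length - 1 - i) 0 := by
  rw [List.getD_eq_getElem _ 0 (by rw [List.length_reverse]; exact hi),
    List.getD_eq_getElem _ 0 (by omega), List.getElem_reverse]

/-- the case of odd length with odd first entry and the other entries with even number even -/
theorem typeA_cons (x : ℕ) (t : List ℕ) (hpos : ∀ y ∈ x :: t, 0 < y) (hx2 : 2 ≤ x)
    (hlen : Odd (x :: t).length) (hx : Odd x)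
    (ht : ∀ i, 1 ≤ i → i < (x :: t).length → i % 2 = 0 → Even ((x :: t).getD i 0)) :
    TypeA (1 :: (x - 1) :: t) ∧ Represents (1 :: (x - 1) :: t) (cf (x :: t)).1 (cf (x :: t)).2 := by
  have hx1 : x - 1 + 1 = x := by omega
  have h1 := cf_first (x - 1) t
  rw [hx1] at h1
  simp only [List.length_cons] at hlen ht
  refine ⟨⟨?_, ?_⟩, ⟨by simp, ?_, h1.1, h1.2⟩⟩
  · simp only [List.length_cons]
    rw [Nat.odd_iff] at hlen
    rw [Nat.even_iff]
    omega
  · intro i hi hi2
    simp only [List.length_cons] at hi
    rcases i with _ | _ | i
    · omega
    · simp only [List.getD_cons_succ, List.getD_cons_zero]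
      rw [Nat.odd_iff] at hx
      rw [Nat.even_iff]
      omega
    · have := ht (i + 1) (by omega) (by omega) (by omega)
      simpa using this
  · intro y hy
    simp only [List.mem_cons] at hy
    rcases hy with rfl | rfl | hy
    · omega
    · omega
    · exact hpos y (List.mem_cons_of_mem _ hy)

theorem classify (m : List ℕ) (hpos : ∀ x ∈ m, 0 < x) (hp : Odd (cf m).1)
    (hlen : 1 ≤ m.length)
    (h : 2 ≤ m.length → (2 ≤ m.getD 0 0 ∧ 2 ≤ m.getD (m.length - 1) 0 ∧
      ((m.length % 2 = 1 ∧ ∀ i, i < m.length → m.getD i 0 = m.getD (m.length - 1 - i) 0) ∨
      ∃ χ, χ < 2 ∧ (∀ i, i % 2 = χ → 1 ≤ i → i + 1 < m.length → Even (m.getD i 0)) ∧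
      ((χ = 0 ∧ Even (m.getD 0 0)) ∨
        ((m.length - 1) % 2 = χ ∧ Even (m.getD (m.length - 1) 0)))))) :
    ∃ b, (TypeA b ∨ TypeB b) ∧ Represents b (cf m).1 (cf m).2 := by
  have hne : m ≠ [] := by
    rintro rfl
    simp at hlen
  by_cases h1 : m.length ≤ 1
  · obtain ⟨x, rfl⟩ := List.length_eq_one_iff.1 (le_antisymm h1 hlen)
    refine ⟨[x], Or.inr ⟨by simp, by simp, ?_⟩, hne, hpos, rfl, SameKnot.refl _ _⟩
    simpa [cf] using hp
  · obtain ⟨h2, h3, h4⟩ := h (by omega)
    rcases h4 with ⟨h5, h6⟩ | ⟨χ, hχ, h5, h6⟩
    · -- palindrome
      have hpal : m.reverse = m := by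
        apply List.ext_getElem (by simp)
        intro i hi1 hi2
        have h7 := getD_reverse m hi2
        rw [← h6 i hi2, List.getD_eq_getElem _ 0 hi1, List.getD_eq_getElem _ 0 hi2] at h7
        exact h7
      have hodd : Odd m.length := by rw [Nat.odd_iff]; exact h5
      exact ⟨m, Or.inr ⟨hodd, hpal, odd_mid m hodd hpal hp⟩, hne, hpos, rfl, SameKnot.refl _ _⟩
    · by_cases hev : Even m.length
      · have hlen2 : m.length % 2 = 0 := Nat.even_iff.1 hev
        rcases h6 with ⟨rfl, h6⟩ | ⟨h6, h7⟩
        · -- entries with even number are even: the reversed list is of type (A)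
          refine ⟨m.reverse, Or.inl ⟨by rw [List.length_reverse]; exact hev, ?_⟩,
            by simpa using hne, fun x hx => hpos x (List.mem_reverse.1 hx),
            cf_reverse_num m, cf_reverse m⟩
          intro i hi hi2
          rw [List.length_reverse] at hi
          rw [getD_reverse m hi]
          by_cases h8 : m.length - 1 - i = 0
          · rw [h8]; exact h6
          · exact h5 _ (by omega) (by omega) (by omega)
        · refine ⟨m, Or.inl ⟨hev, ?_⟩, hne, hpos, rfl, SameKnot.refl _ _⟩
          intro i hi hi2
          by_cases h8 : i + 1 < m.length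
          · exact h5 i (by omega) (by omega) h8
          · have : i = m.length - 1 := by omega
            rw [this]; exact h7
      · have hodd : Odd m.length := Nat.not_even_iff_odd.1 hev
        have hlen2 : m.length % 2 = 1 := Nat.odd_iff.1 hodd
        have hχ0 : χ = 0 := by
          rcases h6 with h6 | h6
          · exact h6.1
          · omega
        subst hχ0
        by_cases ha : Even (m.getD 0 0)
        · by_cases hb : Even (m.getD (m.length - 1) 0)
          · -- all entries with even number are even
            exfalso
            have := even_num m hodd (fun i hi hi2 => by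
              by_cases g1 : i = 0
              · rw [g1]; exact ha
              · by_cases g2 : i + 1 < m.length
                · exact h5 i hi2 (by omega) g2
                · have : i = m.length - 1 := by omega
                  rw [this]; exact hb)
            exact (Nat.not_odd_iff_even.2 this) hp
          · -- first even, last odd: reverse
            have hrne : m.reverse ≠ [] := by simpa using hne
            obtain ⟨x, t, hxt⟩ := List.exists_cons_of_ne_nil hrne
            have hx : x = m.getD (m.length - 1) 0 := by
              have := getD_reverse m (i := 0) (by omega)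
              rw [hxt] at this
              simpa using this
            have hrl : (x :: t).length = m.length := by rw [← hxt, List.length_reverse]
            have h9 := typeA_cons x t (fun y hy => hpos y (by
              rw [← hxt] at hy; exact List.mem_reverse.1 hy)) (by omega)
              (by rw [hrl]; exact hodd) (by rw [hx]; exact Nat.not_even_iff_odd.1 hb)
              (by
                intro i hi1 hi hi2
                rw [hrl] at hi
                rw [← hxt, getD_reverse m hi]
                by_cases g1 : m.length - 1 - i = 0
                · rw [g1]; exact ha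
                · exact h5 _ (by omega) (by omega) (by omega))
            refine ⟨_, Or.inl h9.1, ?_⟩
            have h10 := h9.2
            rw [← hxt] at h10
            obtain ⟨g1, g2, g3, g4⟩ := h10
            rw [cf_reverse_num] at g3 g4
            exact ⟨g1, g2, g3, (cf_reverse m).trans g4⟩
        · -- first odd, hence last even
          have hb : Even (m.getD (m.length - 1) 0) := by
            rcases h6 with h6 | h6
            · exact absurd h6.2 ha
            · exact h6.2
          obtain ⟨x, t, hxt⟩ := List.exists_cons_of_ne_nil hne
          subst hxt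
          have h9 := typeA_cons x t hpos (by simpa using h2) hodd
            (by simpa using Nat.not_even_iff_odd.1 ha)
            (by
              intro i hi1 hi hi2
              by_cases g2 : i + 1 < (x :: t).length
              · exact h5 i hi2 (by omega) g2
              · have : i = (x :: t).length - 1 := by omega
                rw [this]; exact hb)
          exact ⟨_, Or.inl h9.1, h9.2⟩

end Pool.Agent.Helper75.Lamm
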