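import Pool.Agent.Helper75.Lamm.Blocks

/-!
# The potential argument
-/

namespace Pool.Agent.Helper75.Lamm

open Finset

set_option linter.unusedSectionVars false

variable {E : Type} [Fintype E] [DecidableEq E]

/-- the induced map on oriented edges -/
def flip (ρ : E → E) (x : E × Bool) : E × Bool := (ρ x.1, !x.2)

/-- data for the potential argument: `τ`-invariant functions on the oriented edges -/
structure Pot (β : E → ℕ) (n χ : ℕ) (ρ : E → E) (τ : E × Bool → E × Bool) : Prop where
  A1 : ∀ m : E × Bool → ℤ, (∀ x, m (τ x) = m x) →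
    Std β n χ (fun e => m (e, true) - m (e, false))
  A2 : ∀ z : E → ZMod 2, Std β n χ z → ∃ m : E × Bool → ZMod 2, (∀ x, m (τ x) = m x) ∧
    ∀ e, z e = m (e, true) + m (e, false)
  A4 : ∀ m : E × Bool → ZMod 2, (∀ x, m (τ x) = m x) → ∀ x, m (flip ρ (τ x)) = m (flip ρ x)
  A5 : ∃ x, ∀ m : E × Bool → ZMod 2, (∀ x, m (τ x) = m x) → m (flip ρ x) = m x
  A6 : ∀ m : E × Bool → ZMod 2, (∀ x, m (τ x) = m x) → (∀ e, m (e, true) = m (e, false)) →
    ∀ x y, m x = m y

variable {β : E → ℕ} {n : ℕ} {c : ℕ → E} {ρ : E → E} {χ : ℕ} {τ : E × Bool → E × Bool}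

theorem std_cast {z : E → ℤ} (h : Std β n χ z) : Std β n χ (fun e => ((z e : ℤ) : ZMod 2)) := by
  obtain ⟨V, V0, Vn, hV1, hV2⟩ := h
  refine ⟨fun k => ((V k : ℤ) : ZMod 2), ?_, ?_, ?_, ?_⟩
  · simp [V0]
  · simp [Vn]
  · intro e he
    simp [hV1 e he]
  · intro i hi hχ
    have := congrArg (fun t : ℤ => (t : ZMod 2)) (hV2 i hi hχ)
    push_cast at this
    exact this

theorem z2_cases (a : ZMod 2) : a = 0 ∨ a = 1 := by
  revert a; decide

/-- the lift of a function with values in `ZMod 2` -/
def lift (m : E × Bool → ZMod 2) (x : E × Bool) : ℤ := if m x = 0 then 0 else 1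

theorem lift_cast (m : E × Bool → ZMod 2) (x : E × Bool) : ((lift m x : ℤ) : ZMod 2) = m x := by
  unfold lift
  rcases z2_cases (m x) with h | h <;> simp [h]

theorem lift_inv {m : E × Bool → ZMod 2} (h : ∀ x, m (τ x) = m x) (x : E × Bool) :
    lift m (τ x) = lift m x := by
  unfold lift
  rw [h]

theorem Pot.A1' (P : Pot β n χ ρ τ) {m : E × Bool → ZMod 2} (h : ∀ x, m (τ x) = m x) :
    Std β n χ (fun e => m (e, true) + m (e, false)) := by
  have h1 := std_cast (P.A1 (lift m) (lift_inv h))
  have h2 : (fun e => (((lift m (e, true) - lift m (e, false) : ℤ)) : ZMod 2)) =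
      fun e => m (e, true) + m (e, false) := by
    funext e
    push_cast
    rw [lift_cast, lift_cast, sub_eq_add_neg]
    congr 1
    exact ZMod.neg_eq_self_mod_two _
  rw [h2] at h1
  exact h1

/-- lift of a residue -/
def L2 (a : ZMod 2) : ℤ := if a = 0 then 0 else 1

theorem a3_aux : ∀ p q r s p' q' r' s' : ZMod 2, L2 p - L2 q = L2 r - L2 s →
    L2 p * L2 p' - L2 q * L2 q' = L2 r * L2 r' - L2 s * L2 s' →
    L2 p' - L2 q' = L2 r' - L2 s' → 1 = p' + q' → 1 = r' + s' → p = r ∧ q = s := by
  decide

/-- oriented edges of one constant block have the same left and right side -/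
theorem Pot.A3 (P : Pot β n χ ρ τ) (hlt : ∀ e, β e < n) (hc : ∀ i, i < n → β (c i) = i)
    {m : E × Bool → ZMod 2} (h : ∀ x, m (τ x) = m x) {e e' : E} (hb : β e = β e')
    (hχ : β e % 2 ≠ χ) (b : Bool) : m (e, b) = m (e', b) := by
  -- equality of differences for integral invariant functions
  have key : ∀ k : E × Bool → ℤ, (∀ x, k (τ x) = k x) →
      k (e, true) - k (e, false) = k (e', true) - k (e', false) := by
    intro k hk
    obtain ⟨V, -, -, hV1, -⟩ := P.A1 k hk
    have h1 := hV1 e hχ
    have h2 := hV1 e' (by rw [← hb]; exact hχ)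
    beta_reduce at h1 h2
    rw [h1, h2, hb]
  have hk := key (lift m) (lift_inv h)
  -- a function separating the two sides
  obtain ⟨m', hm', hz⟩ := P.A2 _ (std_tv β n χ (fun j => if j = β e + 1 then 1 else 0) c
    (if_neg (by omega)) (if_neg (by have := hlt e; omega)) hc)
  have hze := hz e
  have hze' := hz e'
  have hze1 : 1 = m' (e, true) + m' (e, false) := by
    rw [← hze]
    unfold tv
    rw [if_pos hχ]
    exact (if_pos rfl).symm
  have hze2 : 1 = m' (e', true) + m' (e', false) := by
    rw [← hze']
    unfold tv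
    rw [if_pos (by rw [← hb]; exact hχ)]
    exact (if_pos (by rw [hb])).symm
  have hk2 := key (fun x => lift m x * lift m' x) (fun x => by
    beta_reduce; rw [lift_inv h, lift_inv hm'])
  have hk3 := key (lift m') (lift_inv hm')
  have h4 := a3_aux _ _ _ _ _ _ _ _ hk hk2 hk3 hze1 hze2
  cases b
  · exact h4.2
  · exact h4.1

theorem a7_aux : ∀ w a b p q : ZMod 2, p = q →
    w * (a * (1 + p) + b * (1 + q)) = w * (a + b) * (1 + p) := by
  decide

/-- a locally constant invariant function does not change from a sum block to the next block -/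
theorem Pot.A7 (P : Pot β n χ ρ τ) (hχ2 : χ < 2) (hlt : ∀ e, β e < n)
    (hc : ∀ i, i < n → β (c i) = i) {m : E × Bool → ZMod 2} (h : ∀ x, m (τ x) = m x) {i : ℕ}
    (hi : i % 2 = χ) (hin : i + 1 < n)
    (hm : ∀ e, (β e = i ∨ β e = i + 1 ∨ β e + 1 = i) → m (e, true) = m (e, false))
    {e₀ e₁ : E} (h0 : β e₀ = i) (h1 : β e₁ = i + 1) : m (e₀, true) = m (e₁, true) := by
  set c₁ : ℕ → E := Function.update c (i + 1) e₁ with hc₁
  set c₀ : ℕ → E := Function.update c i e₀ with hc₀
  have hc₁' : ∀ j, j < n → β (c₁ j) = j := by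
    intro j hj
    by_cases hji : j = i + 1
    · rw [hji, hc₁, Function.update_self, h1]
    · rw [hc₁, Function.update_of_ne hji, hc j hj]
  have hc₀' : ∀ j, j < n → β (c₀ j) = j := by
    intro j hj
    by_cases hji : j = i
    · rw [hji, hc₀, Function.update_self, h0]
    · rw [hc₀, Function.update_of_ne hji, hc j hj]
  set w : E → ZMod 2 := tv β (1 - χ) (fun j => if j = i + 1 then 1 else 0) c₁ with hw
  set z : E → ZMod 2 := tv β χ (fun j => if j = i + 2 then 1 else 0) c₀ with hz
  have hwstd : Std β n (1 - χ) w := std_tv _ _ _ _ _ (if_neg (by omega)) (if_neg (by omega)) hc₁'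
  have hzstd : Std β n χ z := std_tv _ _ _ _ _ (if_neg (by omega)) (if_neg (by omega)) hc₀'
  obtain ⟨k, hk, hkz⟩ := P.A2 z hzstd
  have h2 := P.A1' (m := fun x => k x * (1 + m x)) (fun x => by beta_reduce; rw [hk, h])
  have h3 := std_orth β n (1 - χ) χ hlt (by omega) _ _ hwstd h2
  -- values of w and z
  have hw0 : w e₀ = 1 := by
    simp only [hw, tv]
    rw [if_pos (by omega), if_pos (by omega)]
  have hw1 : w e₁ = 1 := by
    simp only [hw, tv]
    rw [if_neg (by omega), if_pos (by rw [h1, hc₁, Function.update_self]), if_pos h1,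
      if_neg (by omega), sub_zero]
  have hz0 : z e₀ = 1 := by
    simp only [hz, tv]
    rw [if_neg (by omega), if_pos (by rw [h0, hc₀, Function.update_self]), if_neg (by omega),
      if_pos (by omega)]
    decide
  have hz1 : z e₁ = 1 := by
    simp only [hz, tv]
    rw [if_pos (by omega), if_pos (by omega)]
  have hws : ∀ e, w e ≠ 0 → β e = i ∨ e = e₁ ∨ β e + 1 = i := by
    intro e he
    simp only [hw, tv] at he
    by_cases g1 : β e % 2 ≠ 1 - χ
    · rw [if_pos g1] at he
      left
      by_contra g2
      exact he (if_neg (by omega))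
    · rw [if_neg g1] at he
      by_cases g2 : e = c₁ (β e)
      · rw [if_pos g2] at he
        by_cases g3 : β e = i + 1
        · right; left
          rw [g2, g3, hc₁, Function.update_self]
        · right; right
          by_contra g4
          apply he
          rw [if_neg g3, if_neg (by omega), sub_zero]
      · rw [if_neg g2] at he
        exact absurd rfl he
  have hzs : ∀ e, z e ≠ 0 → β e ≤ i → e = e₀ := by
    intro e he hle
    simp only [hz, tv] at he
    by_cases g1 : β e % 2 ≠ χ
    · rw [if_pos g1, if_neg (by omega)] at he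
      exact absurd rfl he
    · rw [if_neg g1] at he
      by_cases g2 : e = c₀ (β e)
      · rw [if_pos g2] at he
        by_cases g3 : β e = i
        · rw [g2, g3, hc₀, Function.update_self]
        · exfalso
          apply he
          rw [if_neg (by omega), if_neg (by omega), sub_zero]
      · rw [if_neg g2] at he
        exact absurd rfl he
  have hterm : ∀ e, w e * (k (e, true) * (1 + m (e, true)) + k (e, false) * (1 + m (e, false))) =
      (if e = e₀ then 1 + m (e₀, true) else 0) + (if e = e₁ then 1 + m (e₁, true) else 0) := by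
    intro e
    by_cases g0 : w e = 0
    · have g1 : e ≠ e₀ := by rintro rfl; rw [hw0] at g0; exact one_ne_zero g0
      have g2 : e ≠ e₁ := by rintro rfl; rw [hw1] at g0; exact one_ne_zero g0
      rw [g0, if_neg g1, if_neg g2]
      ring
    · have g1 := hws e g0
      have g2 : m (e, true) = m (e, false) := by
        apply hm
        rcases g1 with g1 | g1 | g1
        · exact Or.inl g1
        · exact Or.inr (Or.inl (by rw [g1, h1]))
        · exact Or.inr (Or.inr g1)
      rw [a7_aux _ _ _ _ _ g2, ← hkz]
      by_cases g3 : e = e₀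
      · subst g3
        rw [if_pos rfl, if_neg (by rintro rfl; omega), hw0, hz0]
        ring
      · by_cases g4 : e = e₁
        · subst g4
          rw [if_neg g3, if_pos rfl, hw1, hz1]
          ring
        · rw [if_neg g3, if_neg g4]
          have g5 : z e = 0 := by
            by_contra g6
            exact g3 (hzs e g6 (by
              rcases g1 with g1 | g1 | g1
              · omega
              · exact absurd g1 g4
              · omega))
          rw [g5]
          ring
  rw [Finset.sum_congr rfl (fun e _ => hterm e), Finset.sum_add_distrib, Finset.sum_ite_eq',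
    Finset.sum_ite_eq', if_pos (mem_univ _), if_pos (mem_univ _)] at h3
  revert h3
  generalize m (e₀, true) = p
  generalize m (e₁, true) = q
  revert p q
  decide

/-- an involution preserving an odd block has a fixed edge in it -/
theorem exists_fixed (hρ : ∀ e, ρ (ρ e) = e) (hp : ∀ e, β (ρ e) = β e) {i : ℕ}
    (hodd : ¬ Even (blk β i).card) : ∃ e, β e = i ∧ ρ e = e := by
  by_contra hcon
  push Not at hcon
  apply hodd
  have h1 : ∑ e ∈ blk β i, (1 : ZMod 2) = 0 := by
    apply Finset.sum_involution (fun e _ => ρ e)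
    · intro e _
      decide
    · intro e he _
      exact hcon e (mem_blk.1 he)
    · intro e he
      exact mem_blk.2 (by rw [hp]; exact mem_blk.1 he)
    · intro e _
      exact hρ e
  rw [Finset.sum_const, nsmul_eq_mul, mul_one] at h1
  exact (ZMod.natCast_eq_zero_iff_even).1 h1

/-- intermediate sum blocks are even -/
theorem Pot.mid_even (P : Pot β n χ ρ τ) (hχ2 : χ < 2) (hlt : ∀ e, β e < n)
    (hc : ∀ i, i < n → β (c i) = i) (hρ : ∀ e, ρ (ρ e) = e) (hp : ∀ e, β (ρ e) = β e) {i : ℕ}
    (hi : i % 2 = χ) (hi1 : 1 ≤ i) (hin : i + 1 < n) : Even (blk β i).card := by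
  by_contra hodd
  obtain ⟨e₀, h0, hfix⟩ := exists_fixed hρ hp hodd
  set z : E → ZMod 2 := tv β χ (fun j => if j = i ∨ j = i + 2 then 1 else 0) c with hz
  have hzstd : Std β n χ z := std_tv _ _ _ _ _ (if_neg (by omega)) (if_neg (by omega)) hc
  obtain ⟨m, hm, hmz⟩ := P.A2 z hzstd
  have hzc : ∀ e, β e + 1 = i ∨ β e = i + 1 → z e = 1 := by
    intro e he
    simp only [hz, tv]
    rw [if_pos (by omega), if_pos (by omega)]
  have hz0 : ∀ e, β e = i → z e = 0 := by
    intro e he
    simp only [hz, tv]
    rw [if_neg (by omega)]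
    by_cases g : e = c (β e)
    · rw [if_pos g, if_pos (Or.inl he), if_pos (Or.inr (by omega)), sub_self]
    · rw [if_neg g]
  have h7 := P.A7 (m := fun x => m x + m (flip ρ x)) hχ2 hlt hc
    (fun x => by beta_reduce; rw [hm, P.A4 m hm]) hi hin (e₀ := e₀) (e₁ := c (i + 1)) ?_ h0
    (hc _ hin)
  · beta_reduce at h7
    unfold flip at h7
    simp only [hfix, Bool.not_true] at h7
    rw [← hmz, hz0 e₀ h0, P.A3 hlt hc hm (e := ρ (c (i + 1))) (e' := c (i + 1)) (hp _)
      (by rw [hp, hc _ hin]; omega), ← hmz, hzc _ (Or.inr (hc _ hin))] at h7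
    exact zero_ne_one h7
  · intro e he
    unfold flip
    simp only [Bool.not_true, Bool.not_false]
    have h8 : z (ρ e) = z e := by
      rcases he with he | he | he
      · rw [hz0 e he, hz0 _ (by rw [hp]; exact he)]
      · rw [hzc e (Or.inr he), hzc _ (Or.inr (by rw [hp]; exact he))]
      · rw [hzc e (Or.inl he), hzc _ (Or.inl (by rw [hp]; exact he))]
    rw [hmz, hmz] at h8
    revert h8
    generalize m (e, true) = a
    generalize m (e, false) = b
    generalize m (ρ e, true) = a'
    generalize m (ρ e, false) = b'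
    revert a b a' b'
    decide

/-- the end sum blocks are not all odd -/
theorem Pot.ends (P : Pot β n χ ρ τ) (hχ2 : χ < 2) (hlt : ∀ e, β e < n) (hn : 2 ≤ n)
    (hc : ∀ i, i < n → β (c i) = i) (hρ : ∀ e, ρ (ρ e) = e) (hp : ∀ e, β (ρ e) = β e) :
    (χ = 0 ∧ Even (blk β 0).card) ∨ ((n - 1) % 2 = χ ∧ Even (blk β (n - 1)).card) := by
  by_contra hcon
  push Not at hcon
  obtain ⟨hA, hB⟩ := hcon
  -- fixed representatives in the end blocks
  have hA' : ∃ e, β e = 0 ∧ (χ = 0 → ρ e = e) := by
    by_cases g : χ = 0
    · obtain ⟨e, he, hf⟩ := exists_fixed hρ hp (i := 0) (hA g)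
      exact ⟨e, he, fun _ => hf⟩
    · exact ⟨c 0, hc 0 (by omega), fun h => absurd h g⟩
  have hB' : ∃ e, β e = n - 1 ∧ ((n - 1) % 2 = χ → ρ e = e) := by
    by_cases g : (n - 1) % 2 = χ
    · obtain ⟨e, he, hf⟩ := exists_fixed hρ hp (i := n - 1) (hB g)
      exact ⟨e, he, fun _ => hf⟩
    · exact ⟨c (n - 1), hc _ (by omega), fun h => absurd h g⟩
  obtain ⟨a, ha, haf⟩ := hA'
  obtain ⟨b, hb, hbf⟩ := hB'
  set c' : ℕ → E := Function.update (Function.update c 0 a) (n - 1) b with hc'
  have hcn : c' (n - 1) = b := by rw [hc', Function.update_self]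
  have hc0 : c' 0 = a := by rw [hc', Function.update_of_ne (by omega), Function.update_self]
  have hcrep : ∀ i, i < n → β (c' i) = i := by
    intro i hi
    by_cases h1 : i = n - 1
    · rw [h1, hcn, hb]
    · by_cases h2 : i = 0
      · rw [h2, hc0, ha]
      · rw [hc', Function.update_of_ne h1, Function.update_of_ne h2, hc i hi]
  set V : ℕ → ZMod 2 := fun j => if 1 ≤ j ∧ j ≤ n then 1 else 0 with hV
  set z : E → ZMod 2 := tv β χ V c' with hz
  have hzstd : Std β n χ z := std_tv _ _ _ _ _ (if_neg (by omega)) (if_neg (by omega)) hcrep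
  obtain ⟨m, hm, hmz⟩ := P.A2 z hzstd
  have hzc : ∀ e, β e % 2 ≠ χ → z e = 1 := by
    intro e he
    have := hlt e
    simp only [hz, tv, hV]
    rw [if_pos he, if_pos (by omega)]
  have hzρ : ∀ e, z (ρ e) = z e := by
    intro e
    by_cases h1 : β e % 2 ≠ χ
    · rw [hzc e h1, hzc _ (by rw [hp]; exact h1)]
    · have hlte := hlt e
      simp only [hz, tv]
      rw [hp, if_neg h1, if_neg h1]
      by_cases h2 : β e = 0
      · rw [h2, hc0]
        have h3 : ρ e = a ↔ e = a := by
          constructor
          · intro h4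
            rw [← hρ e, h4]
            exact haf (by omega)
          · rintro rfl
            exact haf (by omega)
        simp only [h3]
      · by_cases h4 : β e = n - 1
        · rw [h4, hcn]
          have h3 : ρ e = b ↔ e = b := by
            constructor
            · intro h4
              rw [← hρ e, h4]
              exact hbf (by omega)
            · rintro rfl
              exact hbf (by omega)
          simp only [h3]
        · have h5 : V (β e) - V (β e + 2) = 0 := by
            simp only [hV]
            rw [if_pos (by omega), if_pos (by omega), sub_self]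
          rw [h5]
          split_ifs <;> rfl
  have hM := P.A6 (fun x => m x + m (flip ρ x)) (fun x => by beta_reduce; rw [hm, P.A4 m hm]) (by
    intro e
    unfold flip
    simp only [Bool.not_true, Bool.not_false]
    have h8 := hzρ e
    rw [hmz, hmz] at h8
    revert h8
    generalize m (e, true) = a
    generalize m (e, false) = b
    generalize m (ρ e, true) = a'
    generalize m (ρ e, false) = b'
    revert a b a' b'
    decide)
  obtain ⟨x, hx⟩ := P.A5
  have hx' := hx m hm
  obtain ⟨e, he⟩ : ∃ e, β e % 2 ≠ χ := by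
    by_cases g : χ = 0
    · exact ⟨c 1, by rw [hc 1 (by omega)]; omega⟩
    · exact ⟨c 0, by rw [hc 0 (by omega)]; omega⟩
  have h9 := hM (e, true) x
  beta_reduce at h9
  rw [hx'] at h9
  unfold flip at h9
  simp only [Bool.not_true] at h9
  rw [P.A3 hlt hc hm (e := ρ e) (e' := e) (hp _) (by rw [hp]; exact he), ← hmz, hzc e he] at h9
  revert h9
  generalize m x = p
  revert p
  decide

end Pool.Agent.Helper75.Lamm
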