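import Pool.Agent.Helper75.Lamm.Merge

/-!
# Doubling an edge of a plane graph
-/

namespace Pool.Agent.Helper75.Lamm

open Finset Equiv

set_option linter.unusedSectionVars false

/-! ### Counting cycles -/

section Cycles

variable {D : Type} [Fintype D]

theorem cycles_eq {Q : Type} {π : Perm D} (F : D → Q) (hs : Function.Surjective F)
    (h1 : ∀ d, F (π d) = F d) (h2 : ∀ d d', F d = F d' → π.SameCycle d d') :
    cycles π = Nat.card Q := by
  unfold cycles
  apply Nat.card_congr
  refine Equiv.ofBijective (Quotient.lift F (fun a b h => const_sameCycle h1 h)) ⟨?_, ?_⟩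
  · intro x y
    induction x using Quotient.inductionOn with | _ x => ?_
    induction y using Quotient.inductionOn with | _ y => ?_
    intro h
    exact Quotient.sound (h2 x y h)
  · intro q
    obtain ⟨d, rfl⟩ := hs q
    exact ⟨Quotient.mk _ d, rfl⟩

theorem inv_app {D : Type} (g : Perm D) (x : D) : g⁻¹ (g x) = x := by
  rw [Equiv.Perm.coe_inv, Equiv.symm_apply_apply]

/-- the cycle of a dart -/
def cls (π : Perm D) (d : D) : Cyc π := Quotient.mk _ d

theorem cls_eq {π : Perm D} {d d' : D} : cls π d = cls π d' ↔ π.SameCycle d d' := by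
  unfold cls
  rw [Quotient.eq]
  exact Iff.rfl

theorem cls_apply (π : Perm D) (d : D) : cls π (π d) = cls π d :=
  cls_eq.2 ((Equiv.Perm.sameCycle_apply_left).2 (Equiv.Perm.SameCycle.refl π d))

theorem cls_surj (π : Perm D) : Function.Surjective (cls π) := by
  intro q
  induction q using Quotient.inductionOn with | _ q => ?_
  exact ⟨q, rfl⟩

theorem cycles_conj (g π : Perm D) : cycles (g * π * g⁻¹) = cycles π := by
  have h := cycles_eq (π := g * π * g⁻¹) (fun d => cls π (g⁻¹ d)) (fun q => by
    obtain ⟨d, rfl⟩ := cls_surj π q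
    exact ⟨g d, by simp⟩) (fun d => by
      simp only [Perm.mul_apply, inv_app]
      exact cls_apply π _) (fun d d' h => by
      rw [Equiv.Perm.sameCycle_conj]
      exact cls_eq.1 h)
  rw [h]
  rfl

variable {T : Type} [Fintype T]

theorem cycles_sum (σ : Perm D) (τ : Perm T) :
    cycles (Perm.sumCongr σ τ) = cycles σ + cycles τ := by
  have h := cycles_eq (π := Perm.sumCongr σ τ) (Sum.map (cls σ) (cls τ)) (fun q => by
    rcases q with q | q
    · obtain ⟨d, rfl⟩ := cls_surj σ q
      exact ⟨Sum.inl d, rfl⟩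
    · obtain ⟨d, rfl⟩ := cls_surj τ q
      exact ⟨Sum.inr d, rfl⟩) (fun d => by
      rcases d with d | d
      · simp only [Perm.sumCongr_apply, Sum.map_inl, cls_apply]
      · simp only [Perm.sumCongr_apply, Sum.map_inr, cls_apply]) (fun d d' h => by
      rcases d with d | d <;> rcases d' with d' | d'
      · simp only [Sum.map_inl, Sum.inl.injEq] at h
        have h1 := const_sameCycle (k := fun d => cls (Perm.sumCongr σ τ) (Sum.inl d)) (fun d => by
          have := cls_apply (Perm.sumCongr σ τ) (Sum.inl d)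
          simpa using this) (cls_eq.1 h)
        exact cls_eq.1 h1
      · simp at h
      · simp at h
      · simp only [Sum.map_inr, Sum.inr.injEq] at h
        have h1 := const_sameCycle (k := fun d => cls (Perm.sumCongr σ τ) (Sum.inr d)) (fun d => by
          have := cls_apply (Perm.sumCongr σ τ) (Sum.inr d)
          simpa using this) (cls_eq.1 h)
        exact cls_eq.1 h1)
  rw [h, Nat.card_sum]
  rfl

theorem cycles_boolNot : cycles Equiv.boolNot = 1 := by
  rw [cycles_eq (π := Equiv.boolNot) (fun _ => ()) (fun q => ⟨true, rfl⟩) (fun _ => rfl)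
    (fun d d' _ => by
      by_cases h : d = d'
      · exact ⟨0, by simpa using h⟩
      · exact ⟨1, by
          rw [zpow_one]
          revert h
          revert d d'
          decide⟩)]
  simp

theorem cycles_one_bool : cycles (1 : Perm Bool) = 2 := by
  rw [cycles_eq (π := (1 : Perm Bool)) (fun b => b) (fun q => ⟨q, rfl⟩) (fun _ => rfl)
    (fun d d' h => ⟨0, by simpa using h⟩)]
  simp

end Cycles

/-! ### Connectivity -/

section Conn

variable {D : Type}

theorem connected_of_inv (σ α : Perm D)
    (h : ∀ X : D → Prop, (∀ d, X (σ d) = X d) → (∀ d, X (α d) = X d) → ∀ d d', X d = X d')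
    (d d' : D) : ∃ g ∈ Subgroup.closure ({σ, α} : Set (Perm D)), g d = d' := by
  have key : ∀ τ ∈ ({σ, α} : Set (Perm D)), ∀ y,
      (∃ g ∈ Subgroup.closure ({σ, α} : Set (Perm D)), g d = τ y) =
      (∃ g ∈ Subgroup.closure ({σ, α} : Set (Perm D)), g d = y) := by
    intro τ hτ y
    have hτ' := Subgroup.subset_closure hτ
    apply propext
    constructor
    · rintro ⟨g, hg, h1⟩
      refine ⟨τ⁻¹ * g, Subgroup.mul_mem _ (Subgroup.inv_mem _ hτ') hg, ?_⟩
      rw [Perm.mul_apply, h1, inv_app]
    · rintro ⟨g, hg, h1⟩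
      refine ⟨τ * g, Subgroup.mul_mem _ hτ' hg, ?_⟩
      rw [Perm.mul_apply, h1]
  have h1 := h (fun y => ∃ g ∈ Subgroup.closure ({σ, α} : Set (Perm D)), g d = y)
    (fun y => key σ (by simp) y) (fun y => key α (by simp) y) d d'
  rw [← h1]
  exact ⟨1, Subgroup.one_mem _, rfl⟩

end Conn

/-! ### Doubling -/

section Dbl

variable {D : Type} [Fintype D] [DecidableEq D]

theorem comp_swap {A : Type} {D : Type} [DecidableEq D] {F : D → A} {x y : D} (h : F x = F y)
    (d : D) : F (Equiv.swap x y d) = F d := by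
  by_cases h1 : d = x
  · subst h1
    rw [Equiv.swap_apply_left, h]
  · by_cases h2 : d = y
    · subst h2
      rw [Equiv.swap_apply_right, h]
    · rw [Equiv.swap_apply_of_ne_of_ne h1 h2]

/-- the rotation after doubling an edge `x, y` (`y = α x`) -/
def dσ (σ : Perm D) (x y : D) : Perm (D ⊕ Bool) :=
  Equiv.swap (Sum.inl y) (Sum.inr false) * Perm.sumCongr σ 1 *
    Equiv.swap (Sum.inl x) (Sum.inr true)

/-- the reversal after doubling an edge -/
def dα (α : Perm D) : Perm (D ⊕ Bool) := Perm.sumCongr α Equiv.boolNot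

theorem dσ_left (σ : Perm D) (x y : D) : dσ σ x y (Sum.inl x) = Sum.inr true := by
  unfold dσ
  rw [Perm.mul_apply, Perm.mul_apply, Equiv.swap_apply_left]
  rw [Perm.sumCongr_apply, Sum.map_inr, Perm.one_apply,
    Equiv.swap_apply_of_ne_of_ne (by simp) (by simp)]

theorem dσ_right (σ : Perm D) (x y : D) : dσ σ x y (Sum.inr false) = Sum.inl y := by
  unfold dσ
  have h1 : (Equiv.swap (Sum.inl x) (Sum.inr true) : Perm (D ⊕ Bool)) (Sum.inr false) =
      Sum.inr false := Equiv.swap_apply_of_ne_of_ne (by simp) (by simp)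
  rw [Perm.mul_apply, Perm.mul_apply, h1]
  rw [Perm.sumCongr_apply, Sum.map_inr, Perm.one_apply, Equiv.swap_apply_right]

theorem dσ_inv {A : Type} {σ : Perm D} {x y : D} (X : D ⊕ Bool → A) :
    (∀ d, X (dσ σ x y d) = X d) ↔
      (∀ d, X (Sum.inl (σ d)) = X (Sum.inl d)) ∧ X (Sum.inr true) = X (Sum.inl x) ∧
        X (Sum.inr false) = X (Sum.inl y) := by
  constructor
  · intro h
    have h1 := h (Sum.inl x)
    rw [dσ_left] at h1
    have h2 := h (Sum.inr false)
    rw [dσ_right] at h2
    refine ⟨fun d => ?_, h1, h2.symm⟩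
    have h3 := h (Equiv.swap (Sum.inl x) (Sum.inr true) (Sum.inl d))
    rw [comp_swap h1.symm] at h3
    unfold dσ at h3
    rw [Perm.mul_apply, Perm.mul_apply, Equiv.swap_apply_self, comp_swap h2,
      Perm.sumCongr_apply, Sum.map_inl] at h3
    exact h3
  · rintro ⟨h1, h2, h3⟩ d
    unfold dσ
    rw [Perm.mul_apply, Perm.mul_apply, comp_swap h3.symm]
    have h4 : ∀ d, X (Perm.sumCongr σ 1 d) = X d := by
      rintro (d | d)
      · rw [Perm.sumCongr_apply, Sum.map_inl, h1]
      · rfl
    rw [h4, comp_swap h2.symm]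

theorem cycles_dσ (σ : Perm D) (x y : D) : cycles (dσ σ x y) = cycles σ := by
  have h := cycles_eq (π := dσ σ x y)
    (Sum.elim (cls σ) (fun b => if b then cls σ x else cls σ y)) (fun q => by
      obtain ⟨d, rfl⟩ := cls_surj σ q
      exact ⟨Sum.inl d, rfl⟩) (by
      rw [dσ_inv]
      refine ⟨fun d => ?_, ?_, ?_⟩
      · simp only [Sum.elim_inl, cls_apply]
      · simp
      · simp) (fun d d' h => by
      obtain ⟨h1, h2, h3⟩ := (dσ_inv (σ := σ) (x := x) (y := y) (cls (dσ σ x y))).1
        (cls_apply _)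
      have h4 : ∀ d d', cls σ d = cls σ d' →
          cls (dσ σ x y) (Sum.inl d) = cls (dσ σ x y) (Sum.inl d') := by
        intro d d' h5
        exact const_sameCycle (k := fun d => cls (dσ σ x y) (Sum.inl d)) h1 (cls_eq.1 h5)
      rw [← cls_eq]
      have h5 : ∀ d, ∃ d₁, cls (dσ σ x y) d = cls (dσ σ x y) (Sum.inl d₁) ∧
          Sum.elim (cls σ) (fun b => if b then cls σ x else cls σ y) d = cls σ d₁ := by
        rintro (d | (_ | _))
        · exact ⟨d, rfl, rfl⟩
        · exact ⟨y, h3, rfl⟩
        · exact ⟨x, h2, rfl⟩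
      obtain ⟨d₁, h6, h7⟩ := h5 d
      obtain ⟨d₂, h8, h9⟩ := h5 d'
      rw [h6, h8]
      rw [h7, h9] at h
      exact h4 _ _ h)
  rw [h]
  rfl

theorem dσ_dα {σ α : Perm D} (hα : ∀ d, α (α d) = d) (x : D) :
    dσ σ x (α x) * dα α = Equiv.swap (Sum.inl (α x)) (Sum.inr false) *
      Perm.sumCongr (σ * α) Equiv.boolNot *
      (Equiv.swap (Sum.inl (α x)) (Sum.inr false))⁻¹ := by
  have h1 : dα α * Equiv.swap (Sum.inl (α x)) (Sum.inr false) =
      Equiv.swap (Sum.inl x) (Sum.inr true) * dα α := by
    rw [Equiv.mul_swap_eq_swap_mul]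
    congr 2
    · simp [dα, hα]
  have h2 : Perm.sumCongr (σ * α) Equiv.boolNot = Perm.sumCongr σ 1 * dα α := by
    unfold dα
    rw [Perm.sumCongr_mul, one_mul]
  rw [h2, Equiv.swap_inv, mul_assoc, mul_assoc, h1]
  unfold dσ
  simp only [mul_assoc]

/-- the graph with the edge of `x` doubled -/
def PlaneGraph.double (G : PlaneGraph D) (x : D) : PlaneGraph (D ⊕ Bool) where
  σ := dσ G.σ x (G.α x)
  α := dα G.α
  invol := by
    rintro (d | d)
    · simp [dα, G.invol]
    · simp [dα]
  noFix := by
    rintro (d | d)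
    · simp only [dα, Perm.sumCongr_apply, Sum.map_inl, ne_eq, Sum.inl.injEq]
      exact G.noFix d
    · simp [dα]
  connected := by
    apply connected_of_inv
    intro X h1 h2
    rw [dσ_inv] at h1
    obtain ⟨h3, h4, h5⟩ := h1
    have h6 := const_of_inv G (k := fun d => X (Sum.inl d)) h3 (fun d => by
      have := h2 (Sum.inl d)
      simpa [dα] using this)
    have h7 : ∀ d, X d = X (Sum.inl x) := by
      rintro (d | (_ | _))
      · exact h6 d x
      · rw [h5]
        exact h6 _ _
      · rw [h4]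
    intro d d'
    rw [h7 d, h7 d']
  euler := by
    rw [cycles_dσ, dσ_dα G.invol, cycles_conj, cycles_sum, cycles_boolNot]
    unfold dα
    rw [cycles_sum, cycles_boolNot]
    have := G.euler
    omega

end Dbl

/-! ### Flows -/

section Flows

variable {D : Type} [Fintype D]

/-- flows by duality -/
def Flow (π α : Perm D) (z : D → ℤ) : Prop :=
  (∀ d, z (α d) = - z d) ∧ ∀ X : D → ℤ, (∀ d, X (π d) = X d) → ∑ d, z d * X d = 0

theorem isFlow_iff (G : PlaneGraph D) (z : D → ℤ) : G.IsFlow z ↔ Flow G.σ G.α z := by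
  classical
  constructor
  · rintro ⟨h1, h2⟩
    exact ⟨h1, fun X hX => vertex_sum G h2 hX⟩
  · rintro ⟨h1, h2⟩
    refine ⟨h1, fun d => ?_⟩
    have h3 := h2 (fun d' => if G.σ.SameCycle d d' then 1 else 0) (fun d' => by
      simp only [Equiv.Perm.sameCycle_apply_right])
    simp only [mul_ite, mul_one, mul_zero] at h3
    rw [← Finset.sum_filter] at h3
    convert h3 using 2

variable [DecidableEq D]

theorem sum_dbl {A : Type} [AddCommMonoid A] (F : D ⊕ Bool → A) :
    ∑ d, F d = ∑ d, F (Sum.inl d) + (F (Sum.inr true) + F (Sum.inr false)) := by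
  rw [Fintype.sum_sum_type, Fintype.sum_bool]

theorem flow_dbl {σ α : Perm D} (hα : ∀ d, α (α d) = d) (x : D) (z : D ⊕ Bool → ℤ) :
    Flow (dσ σ x (α x)) (dα α) z ↔ z (Sum.inr false) = - z (Sum.inr true) ∧
      Flow σ α (fun d => z (Sum.inl d) + (if d = x then z (Sum.inr true) else 0) -
        (if d = α x then z (Sum.inr true) else 0)) := by
  have key : ∀ X : D ⊕ Bool → ℤ, (∀ d, X (dσ σ x (α x) d) = X d) →
      z (Sum.inr false) = - z (Sum.inr true) →
      ∑ d, z d * X d = ∑ d, (z (Sum.inl d) + (if d = x then z (Sum.inr true) else 0) -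
        (if d = α x then z (Sum.inr true) else 0)) * X (Sum.inl d) := by
    intro X hX hz
    obtain ⟨h1, h2, h3⟩ := (dσ_inv X).1 hX
    rw [sum_dbl, h2, h3, hz]
    simp only [sub_mul, add_mul, Finset.sum_sub_distrib, Finset.sum_add_distrib, ite_mul,
      zero_mul, Finset.sum_ite_eq', mem_univ, if_true]
    ring
  constructor
  · rintro ⟨h1, h2⟩
    have h3 : z (Sum.inr false) = - z (Sum.inr true) := by
      have := h1 (Sum.inr true)
      simpa [dα] using this
    refine ⟨h3, ?_, ?_⟩
    · intro d
      have h4 : z (Sum.inl (α d)) = - z (Sum.inl d) := by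
        have := h1 (Sum.inl d)
        simpa [dα] using this
      beta_reduce
      rw [h4]
      have h5 : (α d = x) = (d = α x) := by
        apply propext
        constructor
        · rintro rfl
          rw [hα]
        · rintro rfl
          rw [hα]
      have h6 : (α d = α x) = (d = x) := by
        apply propext
        exact α.injective.eq_iff
      simp only [h5, h6]
      ring
    · intro X hX
      have h4 := key (Sum.elim X (fun b => if b then X x else X (α x))) (by
        rw [dσ_inv]
        refine ⟨fun d => ?_, ?_, ?_⟩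
        · simp only [Sum.elim_inl, hX]
        · simp
        · simp) h3
      rw [h2 _ (by
        rw [dσ_inv]
        refine ⟨fun d => ?_, ?_, ?_⟩
        · simp only [Sum.elim_inl, hX]
        · simp
        · simp)] at h4
      exact h4.symm
  · rintro ⟨h1, h2, h3⟩
    refine ⟨?_, ?_⟩
    · rintro (d | d)
      · have h4 := h2 d
        beta_reduce at h4
        have h5 : (α d = x) = (d = α x) := by
          apply propext
          constructor
          · rintro rfl
            rw [hα]
          · rintro rfl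
            rw [hα]
        have h6 : (α d = α x) = (d = x) := by
          apply propext
          exact α.injective.eq_iff
        simp only [h5, h6] at h4
        simp only [dα, Perm.sumCongr_apply, Sum.map_inl]
        linarith
      · cases d
        · simp [dα, h1]
        · simp [dα, h1]
    · intro X hX
      rw [key X hX h1]
      obtain ⟨h4, -, -⟩ := (dσ_inv X).1 hX
      exact h3 (fun d => X (Sum.inl d)) h4

theorem coflow_dbl {σ α : Perm D} (hα : ∀ d, α (α d) = d) (hne : ∀ d, α d ≠ d) (x : D)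
    (z : D ⊕ Bool → ℤ) :
    Flow (dσ σ x (α x) * dα α) (dα α) z ↔ (z (Sum.inr false) = - z (Sum.inr true) ∧
      z (Sum.inr true) = z (Sum.inl x)) ∧ Flow (σ * α) α (fun d => z (Sum.inl d)) := by
  rw [dσ_dα hα]
  set A : Perm (D ⊕ Bool) := Equiv.swap (Sum.inl (α x)) (Sum.inr false) with hA
  have hAi : A⁻¹ = A := Equiv.swap_inv _ _
  have hAA : ∀ d, A (A d) = d := Equiv.swap_apply_self _ _
  have hinv : ∀ X : D ⊕ Bool → ℤ,
      (∀ d, X ((A * Perm.sumCongr (σ * α) Equiv.boolNot * A⁻¹) d) = X d) ↔
      ((∀ d, X (A (Sum.inl ((σ * α) d))) = X (A (Sum.inl d))) ∧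
        X (A (Sum.inr true)) = X (A (Sum.inr false))) := by
    intro X
    rw [hAi]
    constructor
    · intro h
      refine ⟨fun d => ?_, ?_⟩
      · have := h (A (Sum.inl d))
        rw [Perm.mul_apply, Perm.mul_apply, hAA, Perm.sumCongr_apply, Sum.map_inl] at this
        exact this
      · have := h (A (Sum.inr false))
        rw [Perm.mul_apply, Perm.mul_apply, hAA, Perm.sumCongr_apply, Sum.map_inr] at this
        exact this
    · rintro ⟨h1, h2⟩ d
      rw [Perm.mul_apply, Perm.mul_apply]
      obtain ⟨d, rfl⟩ : ∃ d', d = A d' := ⟨A d, (hAA d).symm⟩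
      rw [hAA]
      rcases d with d | (_ | _)
      · rw [Perm.sumCongr_apply, Sum.map_inl]
        exact h1 d
      · exact h2
      · exact h2.symm
  have hsum : ∀ X : D ⊕ Bool → ℤ, ∑ d, z d * X d =
      ∑ d, z (A (Sum.inl d)) * X (A (Sum.inl d)) +
        (z (A (Sum.inr true)) * X (A (Sum.inr true)) +
          z (A (Sum.inr false)) * X (A (Sum.inr false))) := by
    intro X
    rw [← Equiv.sum_comp A, sum_dbl]
  have hA1 : A (Sum.inr true) = Sum.inr true := by
    rw [hA, Equiv.swap_apply_of_ne_of_ne (by simp) (by simp)]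
  have hA2 : A (Sum.inr false) = Sum.inl (α x) := by
    rw [hA, Equiv.swap_apply_right]
  have hA3 : A (Sum.inl (α x)) = Sum.inr false := by
    rw [hA, Equiv.swap_apply_left]
  have hA4 : ∀ d, d ≠ α x → A (Sum.inl d) = Sum.inl d := by
    intro d hd
    rw [hA, Equiv.swap_apply_of_ne_of_ne (by simpa using hd) (by simp)]
  have hzA : z (Sum.inr false) = z (Sum.inl (α x)) → ∀ d, z (A (Sum.inl d)) = z (Sum.inl d) := by
    intro h d
    by_cases hd : d = α x
    · rw [hd, hA3, h]
    · rw [hA4 d hd]
  constructor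
  · rintro ⟨h1, h2⟩
    have h3 : z (Sum.inr false) = - z (Sum.inr true) := by
      have := h1 (Sum.inr true)
      simpa [dα] using this
    have h4 : ∀ d, z (Sum.inl (α d)) = - z (Sum.inl d) := by
      intro d
      have := h1 (Sum.inl d)
      simpa [dα] using this
    have h5 : z (Sum.inr true) = z (Sum.inl x) := by
      have h6 := h2 (fun d => Sum.elim (fun _ => 0) (fun _ => 1) (A d))
        ((hinv (fun d => Sum.elim (fun _ => 0) (fun _ => 1) (A d))).2
          ⟨fun d => by simp only [hAA, Sum.elim_inl], by simp only [hAA, Sum.elim_inr]⟩)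
      rw [hsum] at h6
      simp only [hAA, Sum.elim_inl, Sum.elim_inr, mul_zero, Finset.sum_const_zero, mul_one,
        zero_add] at h6
      rw [hA1, hA2, h4] at h6
      linarith
    refine ⟨⟨h3, h5⟩, h4, ?_⟩
    intro X hX
    have h6 := h2 (fun d => Sum.elim X (fun _ => 0) (A d))
      ((hinv (fun d => Sum.elim X (fun _ => 0) (A d))).2
        ⟨fun d => by simp only [hAA, Sum.elim_inl, hX], by simp only [hAA, Sum.elim_inr]⟩)
    rw [hsum] at h6
    simp only [hAA, Sum.elim_inl, Sum.elim_inr, mul_zero, add_zero] at h6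
    rw [← h6]
    apply Finset.sum_congr rfl
    intro d _
    rw [hzA (by rw [h3, h5, h4])]
  · rintro ⟨⟨h3, h5⟩, h4, h2⟩
    beta_reduce at h4
    refine ⟨?_, ?_⟩
    · rintro (d | (_ | _))
      · simp [dα, h4]
      · simp [dα, h3]
      · simp [dα, h3]
    · intro X hX
      rw [hinv] at hX
      obtain ⟨h6, h7⟩ := hX
      rw [hsum]
      have h8 := h2 (fun d => X (A (Sum.inl d))) h6
      have h9 : ∀ d, z (A (Sum.inl d)) = z (Sum.inl d) := hzA (by rw [h3, h5, h4])
      simp only [h9]
      rw [h8, h7, zero_add, hA1, hA2, h4, h5]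
      ring

end Flows

end Pool.Agent.Helper75.Lamm
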