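import Pool.Agent.Helper75.Lamm.Defs
import Pool.Agent.Helper75.Lamm.Core

/-!
# Potentials on the vertices and faces of a plane graph
-/

namespace Pool.Agent.Helper75.Lamm

open Finset Module

set_option linter.unusedSectionVars false

variable {D : Type} [Fintype D] {E : Type} [Fintype E] [DecidableEq E]

/-- the cycles of a permutation as a type -/
abbrev Cyc (π : Equiv.Perm D) : Type := Quotient (Equiv.Perm.SameCycle.setoid π)

/-- a function constant on cycles is constant along `SameCycle` -/
theorem const_sameCycle {A : Type} {π : Equiv.Perm D} {k : D → A} (hk : ∀ d, k (π d) = k d)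
    {d d' : D} (h : π.SameCycle d d') : k d = k d' := by
  obtain ⟨i, rfl⟩ := h
  have hk' : ∀ d, k (π⁻¹ d) = k d := by
    intro d
    have h1 := hk (π⁻¹ d)
    rw [Equiv.Perm.coe_inv, Equiv.apply_symm_apply] at h1
    rw [Equiv.Perm.coe_inv]
    exact h1.symm
  induction i using Int.induction_on with
  | zero => rfl
  | succ i ih => rw [ih, add_comm, zpow_add, zpow_one, Equiv.Perm.mul_apply, hk]
  | pred i ih =>
    rw [ih, sub_eq_neg_add, zpow_add, zpow_neg_one, Equiv.Perm.mul_apply, hk']

/-- the coboundary of a potential on the cycles of `π` -/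
noncomputable def cob (K : Type) [Field K] (f : D ≃ E × Bool) (π : Equiv.Perm D) :
    (Cyc π → K) →ₗ[K] (E → K) where
  toFun X e := X (Quotient.mk _ (f.symm (e, true))) - X (Quotient.mk _ (f.symm (e, false)))
  map_add' X Y := by
    funext e
    simp only [Pi.add_apply]
    ring
  map_smul' a X := by
    funext e
    simp only [Pi.smul_apply, smul_eq_mul, RingHom.id_apply]
    ring

theorem card_cyc_alpha (f : D ≃ E × Bool) (α : Equiv.Perm D)
    (hα : ∀ d, f (α d) = ((f d).1, !(f d).2)) : cycles α = Fintype.card E := by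
  have h1 : ∀ d d', α.SameCycle d d' ↔ (f d).1 = (f d').1 := by
    intro d d'
    constructor
    · intro h
      exact const_sameCycle (k := fun d => (f d).1) (fun d => by rw [hα]) h
    · intro h
      by_cases h2 : (f d).2 = (f d').2
      · have : d = d' := f.injective (Prod.ext h h2)
        rw [this]
      · have : α d = d' := by
          apply f.injective
          rw [hα]
          have h3 : (!(f d).2) = (f d').2 := by
            revert h2
            generalize (f d).2 = a
            generalize (f d').2 = b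
            revert a b
            decide
          rw [h, h3]
        exact ⟨1, by rw [zpow_one]; exact this⟩
  unfold cycles
  rw [← Nat.card_eq_fintype_card]
  apply Nat.card_congr
  refine Equiv.ofBijective (Quotient.lift (fun d => (f d).1) (fun a b h => (h1 a b).1 h)) ⟨?_, ?_⟩
  · intro x y
    induction x using Quotient.inductionOn with | _ x => ?_
    induction y using Quotient.inductionOn with | _ y => ?_
    intro h
    exact Quotient.sound ((h1 x y).2 h)
  · intro e
    exact ⟨Quotient.mk _ (f.symm (e, true)), by simp⟩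

/-- dimension of the space of coboundaries -/
theorem finrank_cob (K : Type) [Field K] (f : D ≃ E × Bool) (π : Equiv.Perm D) [Nonempty D]
    (hconst : ∀ k : D → K, (∀ d, k (π d) = k d) →
      (∀ e, k (f.symm (e, true)) = k (f.symm (e, false))) → ∀ d d', k d = k d') :
    finrank K (LinearMap.range (cob K f π)) + 1 = cycles π := by
  classical
  have h1 := LinearMap.finrank_range_add_finrank_ker (cob K f π)
  have hfin : Fintype (Cyc π) := Fintype.ofFinite _
  rw [Module.finrank_fintype_fun_eq_card] at h1
  have h2 : LinearMap.ker (cob K f π) = Submodule.span K {fun _ => (1 : K)} := by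
    apply le_antisymm
    · intro X hX
      rw [LinearMap.mem_ker] at hX
      have h3 := hconst (fun d => X (Quotient.mk _ d)) (fun d => by
        congr 1
        apply Quotient.sound
        exact ((Equiv.Perm.sameCycle_apply_left (f := π)).2 (Equiv.Perm.SameCycle.refl π d)))
        (fun e => by
          have := congrFun hX e
          exact sub_eq_zero.1 this)
      obtain ⟨d₀⟩ := (inferInstance : Nonempty D)
      rw [Submodule.mem_span_singleton]
      refine ⟨X (Quotient.mk _ d₀), ?_⟩
      funext q
      induction q using Quotient.inductionOn with | _ q => ?_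
      simp only [Pi.smul_apply, smul_eq_mul, mul_one]
      exact h3 d₀ q
    · rw [Submodule.span_singleton_le_iff_mem, LinearMap.mem_ker]
      funext e
      simp [cob]
  have h4 : finrank K (LinearMap.ker (cob K f π)) = 1 := by
    rw [h2]
    apply finrank_span_singleton
    intro h
    obtain ⟨d₀⟩ := (inferInstance : Nonempty D)
    have := congrFun h (Quotient.mk _ d₀)
    exact one_ne_zero this
  rw [h4] at h1
  rw [h1]
  unfold cycles
  rw [Nat.card_eq_fintype_card]

/-- a plane graph whose flows are the flows in block form -/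
structure Data (G : PlaneGraph D) (f : D ≃ E × Bool) (β : E → ℕ) (n χ₀ : ℕ) (c : ℕ → E) :
    Prop where
  rev : ∀ d, f (G.α d) = ((f d).1, !(f d).2)
  lt : ∀ e, β e < n
  rep : ∀ i, i < n → β (c i) = i
  pos : 1 ≤ n
  par : χ₀ < 2
  flow : ∀ z : E → ℤ, Std β n χ₀ z ↔
    G.IsFlow (fun d => if (f d).2 then z (f d).1 else - z (f d).1)

variable {G : PlaneGraph D} {f : D ≃ E × Bool} {β : E → ℕ} {n χ₀ : ℕ} {c : ℕ → E}

theorem Data.alpha_true (H : Data G f β n χ₀ c) (e : E) :
    G.α (f.symm (e, true)) = f.symm (e, false) := by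
  apply f.injective
  rw [H.rev, Equiv.apply_symm_apply, Equiv.apply_symm_apply]
  rfl

theorem Data.alpha_false (H : Data G f β n χ₀ c) (e : E) :
    G.α (f.symm (e, false)) = f.symm (e, true) := by
  apply f.injective
  rw [H.rev, Equiv.apply_symm_apply, Equiv.apply_symm_apply]
  rfl

theorem face_next (G : PlaneGraph D) {A : Type} {k : D → A} (hk : ∀ d, k ((G.σ * G.α) d) = k d)
    (d : D) : k (G.σ d) = k (G.α d) := by
  rw [← hk (G.α d), Equiv.Perm.mul_apply, G.invol]

/-- invariance under `α` and under `σ` or the face permutation implies constancy -/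
theorem const_of_inv (G : PlaneGraph D) {A : Type} {k : D → A} (h1 : ∀ d, k (G.σ d) = k d)
    (h2 : ∀ d, k (G.α d) = k d) (d d' : D) : k d = k d' := by
  obtain ⟨g, hg, rfl⟩ := G.connected d d'
  have : ∀ x, k (g x) = k x := by
    induction hg using Subgroup.closure_induction with
    | mem x hx =>
      rcases hx with rfl | rfl
      · exact h1
      · exact h2
    | one => intro x; rfl
    | mul a b _ _ ha hb => intro x; rw [Equiv.Perm.mul_apply, ha, hb]
    | inv a _ ha =>
      intro x
      rw [← ha (a⁻¹ x), Equiv.Perm.coe_inv, Equiv.apply_symm_apply]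
  exact (this d).symm

theorem Data.const (H : Data G f β n χ₀ c) {A : Type} {k : D → A}
    (hk : (∀ d, k (G.σ d) = k d) ∨ (∀ d, k ((G.σ * G.α) d) = k d))
    (he : ∀ e, k (f.symm (e, true)) = k (f.symm (e, false))) (d d' : D) : k d = k d' := by
  have h2 : ∀ d, k (G.α d) = k d := by
    intro d
    obtain ⟨⟨e, b⟩, hb⟩ : ∃ x, f d = x := ⟨_, rfl⟩
    have hd : d = f.symm (e, b) := by rw [← hb, Equiv.symm_apply_apply]
    rw [hd]
    cases b
    · rw [H.alpha_false, he]
    · rw [H.alpha_true, he]
  rcases hk with hk | hk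
  · exact const_of_inv G hk h2 d d'
  · exact const_of_inv G (fun d => by rw [face_next G hk, h2]) h2 d d'

theorem Data.nonempty (H : Data G f β n χ₀ c) : Nonempty D := ⟨f.symm (c 0, true)⟩

/-- face coboundaries are flows, for any abelian group -/
theorem face_flow (G : PlaneGraph D) {A : Type} [AddCommGroup A] {k : D → A}
    (hk : ∀ d, k ((G.σ * G.α) d) = k d) (d : D) :
    open Classical in
    ∑ d' ∈ univ.filter (fun d' => G.σ.SameCycle d d'), (k d' - k (G.α d')) = 0 := by
  classical
  rw [Finset.sum_sub_distrib]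
  have h1 : ∑ d' ∈ univ.filter (fun d' => G.σ.SameCycle d d'), k (G.α d') =
      ∑ d' ∈ univ.filter (fun d' => G.σ.SameCycle d d'), k d' := by
    have h2 : ∀ d', k (G.α d') = k (G.σ d') := fun d' => (face_next G hk d').symm
    simp only [h2]
    apply Finset.sum_equiv G.σ
    · intro i
      simp only [mem_filter, mem_univ, true_and]
      exact (Equiv.Perm.sameCycle_apply_right).symm
    · intro i _
      rfl
  rw [h1, sub_self]

/-- summation over vertices -/
theorem vertex_sum (G : PlaneGraph D) {A : Type} [CommRing A] {z X : D → A}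
    (hz : ∀ d, open Classical in
      ∑ d' ∈ univ.filter (fun d' => G.σ.SameCycle d d'), z d' = 0)
    (hX : ∀ d, X (G.σ d) = X d) : ∑ d, z d * X d = 0 := by
  classical
  have hfin : Fintype (Cyc G.σ) := Fintype.ofFinite _
  rw [← Finset.sum_fiberwise (s := univ)
    (g := fun d => (Quotient.mk (Equiv.Perm.SameCycle.setoid G.σ) d))]
  apply Finset.sum_eq_zero
  intro q _
  induction q using Quotient.inductionOn with | _ d₀ => ?_
  have h1 : (univ.filter (fun d => (Quotient.mk (Equiv.Perm.SameCycle.setoid G.σ) d) =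
      Quotient.mk _ d₀)) = univ.filter (fun d' => G.σ.SameCycle d₀ d') := by
    ext d
    simp only [mem_filter, mem_univ, true_and]
    rw [Quotient.eq]
    exact ⟨fun h => Equiv.Perm.SameCycle.symm h, fun h => Equiv.Perm.SameCycle.symm h⟩
  rw [h1]
  have h2 : ∀ d ∈ univ.filter (fun d' => G.σ.SameCycle d₀ d'), z d * X d = z d * X d₀ := by
    intro d hd
    rw [mem_filter] at hd
    rw [const_sameCycle hX hd.2]
  rw [Finset.sum_congr rfl h2, ← Finset.sum_mul, hz d₀, zero_mul]

theorem sum_darts (f : D ≃ E × Bool) {A : Type} [AddCommMonoid A] (F : D → A) :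
    ∑ d, F d = ∑ e, (F (f.symm (e, true)) + F (f.symm (e, false))) := by
  rw [← Equiv.sum_comp f.symm, Fintype.sum_prod_type]
  apply Finset.sum_congr rfl
  intro e _
  rw [Fintype.sum_bool]

/-- face coboundaries are flows in block form -/
theorem Data.face_std (H : Data G f β n χ₀ c) {k : D → ℤ}
    (hk : ∀ d, k ((G.σ * G.α) d) = k d) :
    Std β n χ₀ (fun e => k (f.symm (e, true)) - k (f.symm (e, false))) := by
  rw [H.flow]
  have h1 : (fun d => if (f d).2 then k (f.symm ((f d).1, true)) - k (f.symm ((f d).1, false))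
      else -(k (f.symm ((f d).1, true)) - k (f.symm ((f d).1, false)))) =
      fun d => k d - k (G.α d) := by
    funext d
    obtain ⟨⟨e, b⟩, hb⟩ : ∃ x, f d = x := ⟨_, rfl⟩
    have hd : d = f.symm (e, b) := by rw [← hb, Equiv.symm_apply_apply]
    rw [hd]
    cases b
    · simp [H.alpha_false]
    · simp [H.alpha_true]
  rw [h1]
  refine ⟨fun d => ?_, fun d => face_flow G hk d⟩
  beta_reduce
  rw [G.invol]
  ring

/-- vertex coboundaries are cuts in block form -/
theorem Data.vertex_std (H : Data G f β n χ₀ c) {X : D → ℤ} (hX : ∀ d, X (G.σ d) = X d) :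
    Std β n (1 - χ₀) (fun e => X (f.symm (e, true)) - X (f.symm (e, false))) := by
  have hpar := H.par
  apply std_of_orth β n χ₀ (1 - χ₀) H.lt (by omega) c H.rep
  intro z hz
  rw [H.flow] at hz
  have h1 := vertex_sum G (fun d => hz.2 d) hX
  rw [sum_darts f] at h1
  rw [← h1]
  apply Finset.sum_congr rfl
  intro e _
  simp only [Equiv.apply_symm_apply, if_true, Bool.false_eq_true, if_false]
  ring

/-- lifting flows in block form from `ZMod 2` to the integers -/
theorem std_lift {β : E → ℕ} {n χ : ℕ} {c : ℕ → E} (hlt : ∀ e, β e < n)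
    (hc : ∀ i, i < n → β (c i) = i)
    {z : E → ZMod 2} (hz : Std β n χ z) :
    ∃ y : E → ℤ, Std β n χ y ∧ ∀ e, ((y e : ℤ) : ZMod 2) = z e := by
  obtain ⟨V, V0, Vn, hV1, hV2⟩ := hz
  set W : ℕ → ℤ := fun k => L2 (V k) with hW
  have hcast : ∀ a : ZMod 2, ((L2 a : ℤ) : ZMod 2) = a := by decide
  set q : ℕ → ℤ := fun i => W i - W (i + 2) - ∑ e ∈ blk β i, L2 (z e) with hq
  refine ⟨fun e => if β e % 2 ≠ χ then W (β e + 1) else L2 (z e) +
    (if e = c (β e) then q (β e) else 0), ⟨W, ?_, ?_, ?_, ?_⟩, ?_⟩
  · simp [hW, V0, L2]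
  · simp [hW, Vn, L2]
  · intro e he
    beta_reduce
    rw [if_pos he]
  · intro i hi hχ
    have h1 : ∀ e ∈ blk β i, (if β e % 2 ≠ χ then W (β e + 1) else L2 (z e) +
        (if e = c (β e) then q (β e) else 0)) = L2 (z e) + (if e = c i then q i else 0) := by
      intro e he
      rw [mem_blk] at he
      rw [he, if_neg (by simpa using hχ)]
    rw [Finset.sum_congr rfl h1, Finset.sum_add_distrib, Finset.sum_ite_eq',
      if_pos (mem_blk.2 (hc i hi))]
    simp only [hq]
    ring
  · intro e
    beta_reduce
    by_cases he : β e % 2 ≠ χ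
    · rw [if_pos he, hV1 e he]
      exact hcast _
    · rw [if_neg he]
      push_cast
      rw [hcast]
      by_cases h2 : e = c (β e)
      · rw [if_pos h2]
        have h4 := hV2 (β e) (hlt e) (by simpa using he)
        have h5 : ((q (β e) : ℤ) : ZMod 2) = 0 := by
          simp only [hq, hW]
          push_cast
          simp only [hcast]
          rw [h4]
          ring
        rw [h5, add_zero]
      · rw [if_neg h2]
        simp

theorem neg2 (a : ZMod 2) : -a = a := ZMod.neg_eq_self_mod_two a

theorem sub2 (a b : ZMod 2) : a - b = a + b := by rw [sub_eq_add_neg, neg2]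

/-- the dot product over `ZMod 2` -/
noncomputable abbrev dotB (E : Type) [Fintype E] : LinearMap.BilinForm (ZMod 2) (E → ZMod 2) :=
  dotProductBilin (ZMod 2) (ZMod 2)

theorem dotB_apply (x y : E → ZMod 2) : dotB E x y = ∑ e, x e * y e := rfl

theorem dotB_refl : (dotB E).IsRefl := by
  intro x y h
  rw [dotB_apply] at h ⊢
  rw [← h]
  apply Finset.sum_congr rfl
  intro e _
  ring

theorem dotB_nondeg : (dotB E).Nondegenerate := by
  have h1 : ∀ x : E → ZMod 2, (∀ y, dotB E x y = 0) → x = 0 := by
    intro x hx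
    funext e
    have := hx (fun e' => if e' = e then 1 else 0)
    rw [dotB_apply] at this
    simpa using this
  refine ⟨h1, fun y hy => h1 y (fun x => dotB_refl _ _ (hy x))⟩

/-- the faces generate the orthogonal complement of the vertex cuts (Euler's formula) -/
theorem Data.range_face (H : Data G f β n χ₀ c) :
    LinearMap.range (cob (ZMod 2) f (G.σ * G.α)) =
      (dotB E).orthogonal (LinearMap.range (cob (ZMod 2) f G.σ)) := by
  have hne := H.nonempty
  apply Submodule.eq_of_le_of_finrank_eq
  · rintro _ ⟨N, rfl⟩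
    rw [LinearMap.BilinForm.mem_orthogonal_iff]
    rintro _ ⟨X, rfl⟩
    show dotB E _ _ = 0
    rw [dotB_apply]
    have hk : ∀ d, N (Quotient.mk _ ((G.σ * G.α) d)) = N (Quotient.mk _ d) := by
      intro d
      congr 1
      exact Quotient.sound ((Equiv.Perm.sameCycle_apply_left).2 (Equiv.Perm.SameCycle.refl _ d))
    have hX : ∀ d, X (Quotient.mk _ (G.σ d)) = X (Quotient.mk _ d) := by
      intro d
      congr 1
      exact Quotient.sound ((Equiv.Perm.sameCycle_apply_left).2 (Equiv.Perm.SameCycle.refl _ d))
    have h1 := vertex_sum G (z := fun d => N (Quotient.mk _ d) - N (Quotient.mk _ (G.α d)))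
      (X := fun d => X (Quotient.mk _ d))
      (fun d => face_flow G (k := fun d => N (Quotient.mk _ d)) hk d) hX
    rw [sum_darts f] at h1
    rw [← h1]
    apply Finset.sum_congr rfl
    intro e _
    rw [H.alpha_true, H.alpha_false]
    simp only [cob, LinearMap.coe_mk, AddHom.coe_mk]
    ring
  · have h1 := finrank_cob (ZMod 2) f G.σ (fun k hk he => H.const (Or.inl hk) he)
    have h2 := finrank_cob (ZMod 2) f (G.σ * G.α) (fun k hk he => H.const (Or.inr hk) he)
    have h3 := card_cyc_alpha f G.α H.rev
    have h4 := G.euler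
    rw [LinearMap.BilinForm.finrank_orthogonal dotB_nondeg, Module.finrank_fintype_fun_eq_card]
    omega

theorem Data.range_vertex (H : Data G f β n χ₀ c) :
    (dotB E).orthogonal (LinearMap.range (cob (ZMod 2) f (G.σ * G.α))) =
      LinearMap.range (cob (ZMod 2) f G.σ) := by
  rw [H.range_face, LinearMap.BilinForm.orthogonal_orthogonal dotB_nondeg dotB_refl]

theorem Data.std_face (H : Data G f β n χ₀ c) {z : E → ZMod 2} (hz : Std β n χ₀ z) :
    z ∈ LinearMap.range (cob (ZMod 2) f (G.σ * G.α)) := by
  rw [H.range_face, LinearMap.BilinForm.mem_orthogonal_iff]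
  rintro _ ⟨X, rfl⟩
  show dotB E _ _ = 0
  rw [dotB_apply]
  obtain ⟨y, hy, hyz⟩ := std_lift H.lt H.rep hz
  rw [H.flow] at hy
  have hX : ∀ d, X (Quotient.mk _ (G.σ d)) = X (Quotient.mk _ d) := by
    intro d
    congr 1
    exact Quotient.sound ((Equiv.Perm.sameCycle_apply_left).2 (Equiv.Perm.SameCycle.refl _ d))
  have h1 := vertex_sum G
    (z := fun d => (((if (f d).2 then y (f d).1 else - y (f d).1 : ℤ)) : ZMod 2))
    (X := fun d => X (Quotient.mk _ d))
    (fun d => by
      have := congrArg (fun t : ℤ => (t : ZMod 2)) (hy.2 d)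
      rw [Int.cast_zero, Int.cast_sum] at this
      exact this) hX
  rw [sum_darts f] at h1
  rw [← h1]
  apply Finset.sum_congr rfl
  intro e _
  simp only [Equiv.apply_symm_apply, if_true, Bool.false_eq_true, if_false]
  push_cast
  rw [hyz]
  simp only [cob, LinearMap.coe_mk, AddHom.coe_mk]
  ring

theorem Data.face_std2 (H : Data G f β n χ₀ c) {z : E → ZMod 2}
    (hz : z ∈ LinearMap.range (cob (ZMod 2) f (G.σ * G.α))) : Std β n χ₀ z := by
  obtain ⟨N, rfl⟩ := hz
  have hcast : ∀ a : ZMod 2, ((L2 a : ℤ) : ZMod 2) = a := by decide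
  have h1 := std_cast (H.face_std (k := fun d => L2 (N (Quotient.mk _ d))) (fun d => by
    beta_reduce
    congr 2
    exact Quotient.sound ((Equiv.Perm.sameCycle_apply_left).2 (Equiv.Perm.SameCycle.refl _ d))))
  have h2 : (fun e => (((L2 (N (Quotient.mk _ (f.symm (e, true)))) -
      L2 (N (Quotient.mk _ (f.symm (e, false)))) : ℤ)) : ZMod 2)) =
      cob (ZMod 2) f (G.σ * G.α) N := by
    funext e
    push_cast
    rw [hcast, hcast]
    rfl
  rw [← h2]
  exact h1

theorem Data.std_vertex (H : Data G f β n χ₀ c) {w : E → ZMod 2} (hw : Std β n (1 - χ₀) w) :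
    w ∈ LinearMap.range (cob (ZMod 2) f G.σ) := by
  have hpar := H.par
  rw [← H.range_vertex, LinearMap.BilinForm.mem_orthogonal_iff]
  intro z hz
  show dotB E _ _ = 0
  rw [dotB_apply]
  exact std_orth β n χ₀ (1 - χ₀) H.lt (by omega) z w (H.face_std2 hz) hw

/-- the potential data on the faces -/
theorem Data.pot_face (H : Data G f β n χ₀ c) {r : Equiv.Perm D}
    (hrot : ∀ d, r (G.σ d) = G.σ⁻¹ (r d)) (hrev : ∀ d, r (G.α d) = G.α (r d))
    (hcor : ∃ d, r d = G.σ d) {ρ : E → E}
    (hs : ∀ x, flip ρ x = f (G.α (r (f.symm x)))) :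
    Pot β n χ₀ ρ (fun x => f ((G.σ * G.α) (f.symm x))) := by
  refine ⟨?_, ?_, ?_, ?_, ?_⟩
  · intro m hm
    have h1 := H.face_std (k := fun d => m (f d)) (fun d => by
      have := hm (f d)
      rw [Equiv.symm_apply_apply] at this
      exact this)
    simp only [Equiv.apply_symm_apply] at h1
    exact h1
  · intro z hz
    obtain ⟨N, hN⟩ := H.std_face hz
    refine ⟨fun x => N (Quotient.mk _ (f.symm x)), ?_, ?_⟩
    · intro x
      beta_reduce
      rw [Equiv.symm_apply_apply]
      congr 1
      exact Quotient.sound ((Equiv.Perm.sameCycle_apply_left).2 (Equiv.Perm.SameCycle.refl _ _))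
    · intro e
      rw [← hN, ← sub2]
      rfl
  · intro m hm x
    rw [hs, hs]
    have hk : ∀ d, m (f ((G.σ * G.α) d)) = m (f d) := by
      intro d
      have := hm (f d)
      rw [Equiv.symm_apply_apply] at this
      exact this
    beta_reduce
    rw [Equiv.symm_apply_apply, Equiv.Perm.mul_apply, hrot, hrev]
    have h1 := hk (G.α (G.σ⁻¹ (G.α (r (f.symm x)))))
    rw [Equiv.Perm.mul_apply, G.invol, Equiv.Perm.coe_inv, Equiv.apply_symm_apply] at h1
    rw [Equiv.Perm.coe_inv]
    exact h1.symm
  · obtain ⟨d, hd⟩ := hcor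
    refine ⟨f (G.α d), ?_⟩
    intro m hm
    have hk : ∀ d, m (f ((G.σ * G.α) d)) = m (f d) := by
      intro d
      have := hm (f d)
      rw [Equiv.symm_apply_apply] at this
      exact this
    rw [hs, Equiv.symm_apply_apply, hrev, G.invol, hd]
    have h1 := hk (G.α d)
    rw [Equiv.Perm.mul_apply, G.invol] at h1
    exact h1
  · intro m hm he x y
    have h1 := H.const (k := fun d => m (f d)) (Or.inr (fun d => by
      have := hm (f d)
      rw [Equiv.symm_apply_apply] at this
      exact this)) (fun e => by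
        beta_reduce
        rw [Equiv.apply_symm_apply, Equiv.apply_symm_apply]
        exact he e) (f.symm x) (f.symm y)
    beta_reduce at h1
    rw [Equiv.apply_symm_apply, Equiv.apply_symm_apply] at h1
    exact h1

/-- the potential data on the vertices -/
theorem Data.pot_vertex (H : Data G f β n χ₀ c) {r : Equiv.Perm D}
    (hrot : ∀ d, r (G.σ d) = G.σ⁻¹ (r d))
    (hcor : ∃ d, r d = G.σ d) {ρ : E → E}
    (hs : ∀ x, flip ρ x = f (r (f.symm x))) :
    Pot β n (1 - χ₀) ρ (fun x => f (G.σ (f.symm x))) := by
  have hkk : ∀ {A : Type} {m : E × Bool → A}, (∀ x, m (f (G.σ (f.symm x))) = m x) →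
      ∀ d, m (f (G.σ d)) = m (f d) := by
    intro A m hm d
    have := hm (f d)
    rw [Equiv.symm_apply_apply] at this
    exact this
  refine ⟨?_, ?_, ?_, ?_, ?_⟩
  · intro m hm
    have h1 := H.vertex_std (X := fun d => m (f d)) (hkk hm)
    simp only [Equiv.apply_symm_apply] at h1
    exact h1
  · intro z hz
    obtain ⟨N, hN⟩ := H.std_vertex hz
    refine ⟨fun x => N (Quotient.mk _ (f.symm x)), ?_, ?_⟩
    · intro x
      beta_reduce
      rw [Equiv.symm_apply_apply]
      congr 1
      exact Quotient.sound ((Equiv.Perm.sameCycle_apply_left).2 (Equiv.Perm.SameCycle.refl _ _))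
    · intro e
      rw [← hN, ← sub2]
      rfl
  · intro m hm x
    rw [hs, hs]
    beta_reduce
    rw [Equiv.symm_apply_apply, hrot]
    have h1 := hkk hm (G.σ⁻¹ (r (f.symm x)))
    rw [Equiv.Perm.coe_inv, Equiv.apply_symm_apply] at h1
    rw [Equiv.Perm.coe_inv]
    exact h1.symm
  · obtain ⟨d, hd⟩ := hcor
    refine ⟨f d, ?_⟩
    intro m hm
    rw [hs, Equiv.symm_apply_apply, hd]
    exact hkk hm d
  · intro m hm he x y
    have h1 := H.const (k := fun d => m (f d)) (Or.inl (hkk hm)) (fun e => by
        beta_reduce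
        rw [Equiv.apply_symm_apply, Equiv.apply_symm_apply]
        exact he e) (f.symm x) (f.symm y)
    beta_reduce at h1
    rw [Equiv.apply_symm_apply, Equiv.apply_symm_apply] at h1
    exact h1

end Pool.Agent.Helper75.Lamm
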