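import Mathlib

/-!
# Flows on the standard series-parallel graph, in block form

`E` is the set of edges, `β : E → ℕ` the block number of an edge (`0, ..., n - 1`), the blocks of
parity `χ` are sum blocks, the others are constant blocks.
-/

namespace Pool.Agent.Helper75.Lamm

open Finset

set_option linter.unusedSectionVars false

variable {E : Type} [Fintype E] [DecidableEq E]

/-- the block `i` -/
def blk (β : E → ℕ) (i : ℕ) : Finset E := univ.filter (fun e => β e = i)

theorem mem_blk {β : E → ℕ} {i : ℕ} {e : E} : e ∈ blk β i ↔ β e = i := by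
  simp [blk]

/-- flows in block form -/
def Std {A : Type} [AddCommGroup A] (β : E → ℕ) (n χ : ℕ) (z : E → A) : Prop :=
  ∃ V : ℕ → A, V 0 = 0 ∧ V (n + 1) = 0 ∧
    (∀ e, β e % 2 ≠ χ → z e = V (β e + 1)) ∧
    (∀ i, i < n → i % 2 = χ → ∑ e ∈ blk β i, z e = V i - V (i + 2))

/-- test vectors: `c` chooses one edge in each block -/
def tv {A : Type} [AddCommGroup A] (β : E → ℕ) (χ : ℕ) (V : ℕ → A) (c : ℕ → E) (e : E) : A :=
  if β e % 2 ≠ χ then V (β e + 1) else if e = c (β e) then V (β e) - V (β e + 2) else 0

theorem std_tv {A : Type} [AddCommGroup A] (β : E → ℕ) (n χ : ℕ) (V : ℕ → A) (c : ℕ → E)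
    (h0 : V 0 = 0) (hn : V (n + 1) = 0) (hc : ∀ i, i < n → β (c i) = i) :
    Std β n χ (tv β χ V c) := by
  refine ⟨V, h0, hn, ?_, ?_⟩
  · intro e he
    simp only [tv]
    rw [if_pos he]
  · intro i hi hχ
    rw [Finset.sum_eq_single (c i)]
    · simp only [tv]
      rw [if_neg (by rw [hc i hi]; simpa using hχ), hc i hi, if_pos rfl]
    · intro e he hne
      rw [mem_blk] at he
      simp only [tv]
      rw [if_neg (by rw [he]; simpa using hχ), he, if_neg hne]
    · intro h
      exact absurd (mem_blk.2 (hc i hi)) h

theorem sum_blk {A : Type} [AddCommGroup A] (β : E → ℕ) (n : ℕ) (hβ : ∀ e, β e < n) (f : E → A) :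
    ∑ e, f e = ∑ i ∈ range n, ∑ e ∈ blk β i, f e := by
  unfold blk
  rw [Finset.sum_fiberwise_of_maps_to (s := univ) (t := range n) (g := β)
    (fun e _ => mem_range.2 (hβ e))]

/-- orthogonality of the two spaces -/
theorem std_orth {A : Type} [CommRing A] (β : E → ℕ) (n χ χ' : ℕ) (hβ : ∀ e, β e < n)
    (hχ : χ + χ' = 1) (z w : E → A) (hz : Std β n χ z) (hw : Std β n χ' w) :
    ∑ e, z e * w e = 0 := by
  obtain ⟨V, V0, Vn, hV1, hV2⟩ := hz
  obtain ⟨W, W0, Wn, hW1, hW2⟩ := hw
  rw [sum_blk β n hβ]
  set T : ℕ → A := fun i => if i % 2 = χ then V i * W (i + 1) else W i * V (i + 1) with hT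
  have hterm : ∀ i ∈ range n, ∑ e ∈ blk β i, z e * w e = T i - T (i + 1) := by
    intro i hi
    rw [mem_range] at hi
    by_cases h : i % 2 = χ
    · have h' : (i + 1) % 2 ≠ χ := by omega
      have h1 : ∀ e ∈ blk β i, z e * w e = z e * W (i + 1) := by
        intro e he
        rw [mem_blk] at he
        rw [hW1 e (by rw [he]; omega), he]
      rw [Finset.sum_congr rfl h1, ← Finset.sum_mul, hV2 i hi h]
      simp only [hT]
      rw [if_pos h, if_neg h']
      ring
    · have h' : (i + 1) % 2 = χ := by omega
      have h1 : ∀ e ∈ blk β i, z e * w e = V (i + 1) * w e := by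
        intro e he
        rw [mem_blk] at he
        rw [hV1 e (by rw [he]; exact h), he]
      rw [Finset.sum_congr rfl h1, ← Finset.mul_sum, hW2 i hi (by omega)]
      simp only [hT]
      rw [if_neg h, if_pos h']
      ring
  rw [Finset.sum_congr rfl hterm, Finset.sum_range_sub']
  have h0 : T 0 = 0 := by
    simp only [hT]
    split_ifs
    · rw [V0, zero_mul]
    · rw [W0, zero_mul]
  have hn : T n = 0 := by
    simp only [hT]
    split_ifs
    · rw [Wn, mul_zero]
    · rw [Vn, mul_zero]
  rw [h0, hn, sub_zero]

/-- difference of two edges -/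
def dv (A : Type) [CommRing A] (e e' : E) (x : E) : A :=
  (if x = e then 1 else 0) - (if x = e' then 1 else 0)

theorem sum_dv {A : Type} [CommRing A] (e e' : E) (w : E → A) :
    ∑ x, dv A e e' x * w x = w e - w e' := by
  simp only [dv, sub_mul, ite_mul, one_mul, zero_mul, Finset.sum_sub_distrib,
    Finset.sum_ite_eq', mem_univ, if_true]

/-- difference of two edges in a sum block -/
theorem std_dv {A : Type} [CommRing A] (β : E → ℕ) (n χ : ℕ) (e e' : E) (h : β e = β e')
    (hχ : β e % 2 = χ) : Std β n χ (dv A e e') := by
  refine ⟨fun _ => 0, rfl, rfl, ?_, ?_⟩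
  · intro x hx
    have h1 : x ≠ e := by rintro rfl; exact hx hχ
    have h2 : x ≠ e' := by rintro rfl; exact hx (h ▸ hχ)
    simp [dv, h1, h2]
  · intro i _ _
    simp only [dv, Finset.sum_sub_distrib, Finset.sum_ite_eq', mem_blk, h]
    simp

/-- the converse of orthogonality -/
theorem std_of_orth {A : Type} [CommRing A] (β : E → ℕ) (n χ χ' : ℕ) (hβ : ∀ e, β e < n)
    (hχ : χ + χ' = 1) (c : ℕ → E) (hc : ∀ i, i < n → β (c i) = i) (w : E → A)
    (h : ∀ z : E → A, Std β n χ z → ∑ e, z e * w e = 0) : Std β n χ' w := by
  set W : ℕ → A := fun k => if 1 ≤ k ∧ k ≤ n ∧ (k - 1) % 2 = χ then w (c (k - 1)) else 0 with hW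
  refine ⟨W, ?_, ?_, ?_, ?_⟩
  · simp [hW]
  · simp only [hW]
    rw [if_neg (by omega)]
  · intro e he
    have he' : β e % 2 = χ := by omega
    have hlt := hβ e
    have h1 := h _ (std_dv β n χ e (c (β e)) (hc _ hlt).symm he')
    rw [sum_dv] at h1
    simp only [hW]
    rw [if_pos (by simp only [Nat.add_sub_cancel]; omega), Nat.add_sub_cancel]
    exact sub_eq_zero.1 h1
  · intro i hi hi2
    have hi3 : i % 2 ≠ χ := by omega
    set V : ℕ → A := fun k => if k = i + 1 then 1 else 0 with hV
    have h1 := h _ (std_tv β n χ V c (by simp [hV]) (by simp only [hV]; rw [if_neg (by omega)]) hc)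
    rw [sum_blk β n hβ] at h1
    have hb : ∀ k, k < n → ∑ e ∈ blk β k, tv β χ V c e * w e =
        if k = i then ∑ e ∈ blk β i, w e else
          if k = i + 1 then w (c (i + 1)) else if k + 1 = i then - w (c (i - 1)) else 0 := by
      intro k hk
      by_cases h2 : k = i
      · subst h2
        rw [if_pos rfl]
        apply Finset.sum_congr rfl
        intro e he
        rw [mem_blk] at he
        simp only [tv, he]
        rw [if_pos hi3]
        simp [hV]
      · rw [if_neg h2]
        by_cases h3 : k % 2 = χ
        · have hval : ∀ e ∈ blk β k, tv β χ V c e * w e =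
              if e = c k then (V k - V (k + 2)) * w e else 0 := by
            intro e he
            rw [mem_blk] at he
            simp only [tv, he]
            rw [if_neg (by simpa using h3)]
            split_ifs <;> simp
          rw [Finset.sum_congr rfl hval, Finset.sum_ite_eq' ]
          rw [if_pos (mem_blk.2 (hc k hk))]
          by_cases h4 : k = i + 1
          · subst h4
            rw [if_pos rfl]
            simp [hV]
          · rw [if_neg h4]
            by_cases h5 : k + 1 = i
            · rw [if_pos h5]
              have : i - 1 = k := by omega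
              rw [this]
              simp only [hV]
              rw [if_neg (by omega), if_pos (by omega)]
              ring
            · rw [if_neg h5]
              simp only [hV]
              rw [if_neg (by omega), if_neg (by omega)]
              ring
        · rw [if_neg (by omega), if_neg (by omega)]
          apply Finset.sum_eq_zero
          intro e he
          rw [mem_blk] at he
          simp only [tv, he]
          rw [if_pos h3]
          simp only [hV]
          rw [if_neg (by omega), zero_mul]
    rw [Finset.sum_congr rfl (fun k hk => hb k (mem_range.1 hk))] at h1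
    have h6 : ∑ k ∈ range n, (if k = i then ∑ e ∈ blk β i, w e else
          if k = i + 1 then w (c (i + 1)) else if k + 1 = i then - w (c (i - 1)) else 0) =
        (∑ e ∈ blk β i, w e) + (if i + 1 < n then w (c (i + 1)) else 0) -
          (if 1 ≤ i then w (c (i - 1)) else 0) := by
      have h7 : ∀ k ∈ range n, (if k = i then ∑ e ∈ blk β i, w e else
          if k = i + 1 then w (c (i + 1)) else if k + 1 = i then - w (c (i - 1)) else 0) =
          (if k = i then ∑ e ∈ blk β i, w e else 0) + (if k = i + 1 then w (c (i + 1)) else 0) +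
          (if k = i - 1 then (if 1 ≤ i then - w (c (i - 1)) else 0) else 0) := by
        intro k _
        by_cases g1 : k = i
        · subst g1
          rw [if_pos rfl, if_pos rfl, if_neg (by omega)]
          by_cases g2 : 1 ≤ k
          · rw [if_neg (by omega)]; ring
          · rw [if_neg g2]; simp
        · rw [if_neg g1, if_neg g1]
          by_cases g2 : k = i + 1
          · rw [if_pos g2, if_pos g2, if_neg (by omega)]; ring
          · rw [if_neg g2, if_neg g2]
            by_cases g3 : k + 1 = i
            · rw [if_pos g3, if_pos (by omega), if_pos (by omega)]; ring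
            · rw [if_neg g3, if_neg (by omega)]; ring
      rw [Finset.sum_congr rfl h7, Finset.sum_add_distrib, Finset.sum_add_distrib,
        Finset.sum_ite_eq', Finset.sum_ite_eq', Finset.sum_ite_eq', if_pos (mem_range.2 hi),
        if_pos (mem_range.2 (by omega : i - 1 < n))]
      simp only [mem_range]
      split_ifs <;> ring
    rw [h6] at h1
    simp only [hW]
    have e1 : (if 1 ≤ i ∧ i ≤ n ∧ (i - 1) % 2 = χ then w (c (i - 1)) else 0) =
        (if 1 ≤ i then w (c (i - 1)) else 0) := by
      by_cases g : 1 ≤ i
      · rw [if_pos g, if_pos (by omega)]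
      · rw [if_neg g, if_neg (by omega)]
    have e2 : (if 1 ≤ i + 2 ∧ i + 2 ≤ n ∧ (i + 2 - 1) % 2 = χ then w (c (i + 2 - 1)) else 0) =
        (if i + 1 < n then w (c (i + 1)) else 0) := by
      by_cases g : i + 1 < n
      · rw [if_pos g, if_pos (by omega)]
        rfl
      · rw [if_neg g, if_neg (by omega)]
    rw [e1, e2]
    linear_combination h1

end Pool.Agent.Helper75.Lamm
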