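import Pool.Agent.Helper75.Lamm.Defs
import Pool.Agent.Helper75.Lamm.Std

/-!
# Flows of the Tait graph in block form
-/

namespace Pool.Agent.Helper75.Lamm

open Finset

/-- the block of an edge -/
def blockOf (a : List ℕ) (e : Edge a) : ℕ := e.1

theorem head_eq_some_succ {a : List ℕ} {i j : ℕ} {e : Edge a} (hj : j + 1 < a.getD i 0) :
    head a e = some (i, j + 1) ↔ (e.1 : ℕ) % 2 = 1 ∧ (e.1 : ℕ) = i ∧ (e.2 : ℕ) = j := by
  obtain ⟨⟨i', hi'⟩, ⟨j', hj'⟩⟩ := e
  simp only [head]
  constructor
  · intro h
    split_ifs at h with h1 h2 h3
    · simp only [Option.some.injEq, Prod.mk.injEq] at h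
      exact ⟨h1, h.1, by omega⟩
    · simp only [Option.some.injEq, Prod.mk.injEq] at h
      omega
  · rintro ⟨h1, h2, h3⟩
    subst h2
    subst h3
    rw [if_pos h1, if_pos hj]

theorem tail_eq_some_succ {a : List ℕ} {i j : ℕ} {e : Edge a} :
    tail a e = some (i, j + 1) ↔ (e.1 : ℕ) % 2 = 1 ∧ (e.1 : ℕ) = i ∧ (e.2 : ℕ) = j + 1 := by
  obtain ⟨⟨i', hi'⟩, ⟨j', hj'⟩⟩ := e
  simp only [tail]
  constructor
  · intro h
    split_ifs at h with h1
    · simp only [Option.some.injEq, Prod.mk.injEq] at h
      exact ⟨h1, h.1, h.2⟩
    · simp only [Option.some.injEq, Prod.mk.injEq] at h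
      omega
  · rintro ⟨h1, h2, h3⟩
    subst h2
    subst h3
    rw [if_pos h1]

theorem head_eq_some_zero {a : List ℕ} {i : ℕ} {e : Edge a} :
    head a e = some (i, 0) ↔ (e.1 : ℕ) % 2 = 1 ∧ (e.1 : ℕ) + 2 = i ∧
      (e.2 : ℕ) + 1 = a.getD e.1 0 ∧ (e.1 : ℕ) + 1 ≠ a.length := by
  have hlt := e.2.2
  unfold head
  constructor
  · intro h
    split_ifs at h with h1 h2 h3
    · simp only [Option.some.injEq, Prod.mk.injEq] at h
      omega
    · simp only [Option.some.injEq, Prod.mk.injEq] at h
      exact ⟨h1, h.1, by omega, h3⟩
  · rintro ⟨h1, h2, h3, h4⟩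
    rw [if_pos h1, if_neg (by omega), if_neg h4, h2]

theorem tail_eq_some_zero {a : List ℕ} {i : ℕ} {e : Edge a} :
    tail a e = some (i, 0) ↔ ((e.1 : ℕ) % 2 = 1 ∧ (e.1 : ℕ) = i ∧ (e.2 : ℕ) = 0) ∨
      ((e.1 : ℕ) % 2 = 0 ∧ (e.1 : ℕ) + 1 = i) := by
  obtain ⟨⟨i', hi'⟩, ⟨j', hj'⟩⟩ := e
  simp only [tail]
  constructor
  · intro h
    split_ifs at h with h1
    · simp only [Option.some.injEq, Prod.mk.injEq] at h
      exact Or.inl ⟨h1, h.1, h.2⟩
    · simp only [Option.some.injEq, Prod.mk.injEq] at h
      exact Or.inr ⟨by omega, h.1⟩
  · rintro (⟨h1, h2, h3⟩ | ⟨h1, h2⟩)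
    · subst h2
      subst h3
      rw [if_pos h1]
    · subst h2
      rw [if_neg (by omega)]

theorem head_eq_none {a : List ℕ} {e : Edge a} :
    head a e = none ↔ (e.1 : ℕ) % 2 = 0 ∨ ((e.1 : ℕ) % 2 = 1 ∧
      (e.2 : ℕ) + 1 = a.getD e.1 0 ∧ (e.1 : ℕ) + 1 = a.length) := by
  have hlt := e.2.2
  unfold head
  split_ifs with h1 h2 h3
  · simp only [false_iff, not_or, not_and]
    exact ⟨by omega, fun _ _ => by omega⟩
  · simp only [true_iff]
    exact Or.inr ⟨h1, by omega, h3⟩
  · simp only [false_iff, not_or, not_and]
    exact ⟨by omega, fun _ _ => by omega⟩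
  · simp only [true_iff]
    exact Or.inl (by omega)

theorem tail_ne_none {a : List ℕ} {e : Edge a} : tail a e ≠ none := by
  unfold tail
  split_ifs <;> simp

/-- an edge with given block and number -/
def mkE (a : List ℕ) (i j : ℕ) (hi : i < a.length) (hj : j < a.getD i 0) : Edge a :=
  ⟨⟨i, hi⟩, ⟨j, hj⟩⟩

theorem eq_mkE {a : List ℕ} {e : Edge a} {i j : ℕ} (hi : i < a.length) (hj : j < a.getD i 0)
    (h1 : (e.1 : ℕ) = i) (h2 : (e.2 : ℕ) = j) : e = mkE a i j hi hj := by
  obtain ⟨⟨i', hi'⟩, ⟨j', hj'⟩⟩ := e
  simp only at h1 h2
  subst h1
  subst h2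
  rfl

theorem filter_single {a : List ℕ} {P : Edge a → Prop} [DecidablePred P] {i j : ℕ}
    (hi : i < a.length) (hj : j < a.getD i 0)
    (h : ∀ e : Edge a, P e ↔ (e.1 : ℕ) = i ∧ (e.2 : ℕ) = j) (z : Edge a → ℤ) :
    ∑ e ∈ univ.filter P, z e = z (mkE a i j hi hj) := by
  have : univ.filter P = {mkE a i j hi hj} := by
    ext e
    simp only [mem_filter, mem_univ, true_and, mem_singleton]
    rw [h]
    constructor
    · rintro ⟨h1, h2⟩
      exact eq_mkE hi hj h1 h2
    · rintro rfl
      exact ⟨rfl, rfl⟩
  rw [this, sum_singleton]

theorem filter_empty {a : List ℕ} {P : Edge a → Prop} [DecidablePred P]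
    (h : ∀ e : Edge a, ¬ P e) (z : Edge a → ℤ) :
    ∑ e ∈ univ.filter P, z e = 0 := by
  have : univ.filter P = ∅ := by
    ext e
    simp only [mem_filter, mem_univ, true_and, notMem_empty, iff_false]
    exact h e
  rw [this, sum_empty]

theorem getD_pos {a : List ℕ} (hpos : ∀ x ∈ a, 0 < x) {i : ℕ} (hi : i < a.length) :
    0 < a.getD i 0 := by
  rw [List.getD_eq_getElem a 0 hi]
  exact hpos _ (List.getElem_mem hi)

/-- the equation at the vertex `some (i + 1, 0)` -/
theorem vertex_eq {a : List ℕ} (hpos : ∀ x ∈ a, 0 < x) (z : Edge a → ℤ) {i : ℕ}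
    (hi : i < a.length) (hi2 : i % 2 = 0) :
    (∑ e ∈ univ.filter (fun e => head a e = some (i + 1, 0)), z e =
      if h : 1 ≤ i then z (mkE a (i - 1) (a.getD (i - 1) 0 - 1) (by omega)
        (by have := getD_pos hpos (i := i - 1) (by omega); omega)) else 0) ∧
    (∑ e ∈ univ.filter (fun e => tail a e = some (i + 1, 0)), z e =
      ∑ e ∈ blk (blockOf a) i, z e + if h : i + 1 < a.length then
        z (mkE a (i + 1) 0 h (getD_pos hpos h)) else 0) := by
  constructor
  · split_ifs with h
    · apply filter_single
      intro e
      rw [head_eq_some_zero]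
      obtain ⟨⟨i', hi'⟩, ⟨j', hj'⟩⟩ := e
      simp only
      constructor
      · rintro ⟨h1, h2, h3, h4⟩
        have h5 : i' = i - 1 := by omega
        subst h5
        omega
      · rintro ⟨h1, h2⟩
        have := getD_pos hpos (i := i - 1) (by omega)
        subst h1
        refine ⟨by omega, by omega, by omega, by omega⟩
    · apply filter_empty
      intro e
      rw [head_eq_some_zero]
      omega
  · have h1 : univ.filter (fun e => tail a e = some (i + 1, 0)) =
        blk (blockOf a) i ∪ univ.filter (fun e : Edge a => (e.1 : ℕ) = i + 1 ∧ (e.2 : ℕ) = 0) := by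
      ext e
      simp only [mem_filter, mem_univ, true_and, mem_union, mem_blk, blockOf]
      rw [tail_eq_some_zero]
      omega
    rw [h1, sum_union]
    · congr 1
      split_ifs with h
      · exact filter_single _ _ (fun e => Iff.rfl) z
      · apply filter_empty
        rintro e ⟨h2, -⟩
        have := e.1.2
        omega
    · rw [disjoint_left]
      intro e he he2
      simp only [mem_filter, mem_univ, true_and, mem_blk, blockOf] at he he2
      omega

/-- flows of the Tait graph in block form -/
theorem taitFlow_iff (a : List ℕ) (hpos : ∀ x ∈ a, 0 < x) (z : Edge a → ℤ) :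
    IsTaitFlow a z ↔ Std (blockOf a) a.length 0 z := by
  constructor
  · intro h
    -- constancy
    have hconst : ∀ i (hi : i < a.length), i % 2 = 1 → ∀ j (hj : j < a.getD i 0),
        z (mkE a i j hi hj) = z (mkE a i 0 hi (getD_pos hpos hi)) := by
      intro i hi hi2 j
      induction j with
      | zero => intro _; rfl
      | succ j ih =>
        intro hj
        rw [← ih (by omega)]
        have h1 := h (some (i, j + 1))
        rw [filter_single (i := i) (j := j) hi (by omega) (fun e => by
            rw [head_eq_some_succ hj]; omega) z,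
          filter_single (i := i) (j := j + 1) hi hj (fun e => by
            rw [tail_eq_some_succ]; omega) z] at h1
        exact h1.symm
    set V : ℕ → ℤ := fun k => if h : 1 ≤ k ∧ k ≤ a.length ∧ (k - 1) % 2 = 1 then
      z (mkE a (k - 1) 0 (by omega) (getD_pos hpos (by omega))) else 0 with hV
    refine ⟨V, ?_, ?_, ?_, ?_⟩
    · simp only [hV]
      rw [dif_neg (by omega)]
    · simp only [hV]
      rw [dif_neg (by omega)]
    · intro e he
      obtain ⟨⟨i, hi⟩, ⟨j, hj⟩⟩ := e
      simp only [blockOf] at he ⊢
      simp only [hV]
      rw [dif_pos (by omega)]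
      exact hconst i hi (by omega) j hj
    · intro i hi hi2
      have h1 := h (some (i + 1, 0))
      have h2 := vertex_eq hpos z hi hi2
      rw [h2.1, h2.2] at h1
      have e1 : V i = if h : 1 ≤ i then z (mkE a (i - 1) (a.getD (i - 1) 0 - 1) (by omega)
        (by have := getD_pos hpos (i := i - 1) (by omega); omega)) else 0 := by
        simp only [hV]
        by_cases g : 1 ≤ i
        · rw [dif_pos (by omega), dif_pos g]
          exact (hconst _ _ (by omega) _ _).symm
        · rw [dif_neg (by omega), dif_neg g]
      have e2 : V (i + 2) = if h : i + 1 < a.length then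
        z (mkE a (i + 1) 0 h (getD_pos hpos h)) else 0 := by
        simp only [hV]
        by_cases g : i + 1 < a.length
        · rw [dif_pos (by omega), dif_pos g]
          rfl
        · rw [dif_neg (by omega), dif_neg g]
      rw [e1, e2, h1]
      ring
  · rintro ⟨V, V0, Vn, hV1, hV2⟩ v
    have hval : ∀ i j (hi : i < a.length) (hj : j < a.getD i 0), i % 2 = 1 →
        z (mkE a i j hi hj) = V (i + 1) := by
      intro i j hi hj hi2
      exact hV1 (mkE a i j hi hj) (by simp only [blockOf, mkE]; omega)
    rcases v with _ | ⟨x, y⟩
    · -- the hub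
      rw [filter_empty (P := fun e => tail a e = none) (fun e => tail_ne_none) z]
      have h1 : univ.filter (fun e => head a e = none) =
          univ.filter (fun e : Edge a => (e.1 : ℕ) % 2 = 0) ∪
          univ.filter (fun e : Edge a => (e.1 : ℕ) % 2 = 1 ∧
            (e.2 : ℕ) + 1 = a.getD e.1 0 ∧ (e.1 : ℕ) + 1 = a.length) := by
        ext e
        simp only [mem_filter, mem_univ, true_and, mem_union]
        exact head_eq_none
      rw [h1, sum_union]
      · have h2 : ∑ e ∈ univ.filter (fun e : Edge a => (e.1 : ℕ) % 2 = 0), z e =
            ∑ i ∈ range a.length, if i % 2 = 0 then V i - V (i + 2) else 0 := by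
          rw [sum_filter, sum_blk (blockOf a) a.length (fun e => e.1.2)]
          apply sum_congr rfl
          intro i hi
          rw [mem_range] at hi
          by_cases g : i % 2 = 0
          · rw [if_pos g, ← hV2 i hi g]
            apply sum_congr rfl
            intro e he
            rw [mem_blk] at he
            simp only [blockOf] at he
            rw [if_pos (by rw [he]; exact g)]
          · rw [if_neg g]
            apply sum_eq_zero
            intro e he
            rw [mem_blk] at he
            simp only [blockOf] at he
            rw [if_neg (by rw [he]; exact g)]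
        have h3 : ∀ m, m ≤ a.length → ∑ i ∈ range m, (if i % 2 = 0 then V i - V (i + 2) else 0) =
            - V (if m % 2 = 0 then m else m + 1) := by
          intro m
          induction m with
          | zero => intro _; simp [V0]
          | succ m ih =>
            intro hm
            rw [sum_range_succ, ih (by omega)]
            by_cases g : m % 2 = 0
            · rw [if_pos g, if_pos g, if_neg (by omega)]
              ring
            · rw [if_neg g, if_neg g, if_pos (by omega)]
              ring
        rw [h2, h3 _ le_rfl]
        by_cases g : a.length % 2 = 0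
        · rw [if_pos g]
          by_cases g0 : a.length = 0
          · rw [filter_empty (fun e => by have := e.1.2; omega) z, g0, V0]
            simp
          · have hlt : a.length - 1 < a.length := by omega
            have hp := getD_pos hpos hlt
            rw [filter_single (i := a.length - 1) (j := a.getD (a.length - 1) 0 - 1) hlt
              (by omega) (fun e => by
                obtain ⟨⟨i', hi'⟩, ⟨j', hj'⟩⟩ := e
                simp only
                constructor
                · rintro ⟨g1, g2, g3⟩
                  have g4 : i' = a.length - 1 := by omega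
                  subst g4
                  exact ⟨rfl, by omega⟩
                · rintro ⟨g1, g2⟩
                  subst g1
                  refine ⟨by omega, by omega, by omega⟩) z, hval _ _ _ _ (by omega)]
            have : a.length - 1 + 1 = a.length := by omega
            rw [this]
            ring
        · rw [if_neg g, Vn, filter_empty (fun e => by omega) z]
          ring
      · rw [disjoint_left]
        intro e he he2
        simp only [mem_filter, mem_univ, true_and] at he he2
        omega
    · rcases y with _ | y
      · -- the vertices some (x, 0)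
        by_cases hx : x % 2 = 1 ∧ x ≤ a.length
        · obtain ⟨i, rfl⟩ : ∃ i, x = i + 1 := ⟨x - 1, by omega⟩
          have h2 := vertex_eq hpos z (i := i) (by omega) (by omega)
          rw [h2.1, h2.2, hV2 i (by omega) (by omega)]
          have e1 : (if h : 1 ≤ i then z (mkE a (i - 1) (a.getD (i - 1) 0 - 1) (by omega)
              (by have := getD_pos hpos (i := i - 1) (by omega); omega)) else 0) = V i := by
            by_cases g : 1 ≤ i
            · rw [dif_pos g, hval _ _ _ _ (by omega)]
              congr 1
              omega
            · rw [dif_neg g]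
              have : i = 0 := by omega
              rw [this, V0]
          have e2 : (if h : i + 1 < a.length then
              z (mkE a (i + 1) 0 h (getD_pos hpos h)) else 0) = V (i + 2) := by
            by_cases g : i + 1 < a.length
            · rw [dif_pos g, hval _ _ _ _ (by omega)]
            · rw [dif_neg g]
              have : i + 2 = a.length + 1 := by omega
              rw [this, Vn]
          rw [e1, e2]
          ring
        · rw [filter_empty (fun e => by rw [head_eq_some_zero]; have := e.1.2; omega) z,
            filter_empty (fun e => by rw [tail_eq_some_zero]; have := e.1.2; omega) z]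
      · -- the inner vertices of the blocks
        by_cases hx : x % 2 = 1 ∧ x < a.length ∧ y + 1 < a.getD x 0
        · rw [filter_single (i := x) (j := y) hx.2.1 (by omega) (fun e => by
              rw [head_eq_some_succ hx.2.2]; omega) z,
            filter_single (i := x) (j := y + 1) hx.2.1 hx.2.2 (fun e => by
              rw [tail_eq_some_succ]; omega) z, hval _ _ _ _ hx.1, hval _ _ _ _ hx.1]
        · rw [filter_empty (fun e => ?_) z, filter_empty (fun e => ?_) z]
          · rw [tail_eq_some_succ]
            obtain ⟨⟨i', hi'⟩, ⟨j', hj'⟩⟩ := e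
            simp only
            rintro ⟨g1, g2, g3⟩
            subst g2
            have hj2 : j' < a.getD i' 0 := hj'
            exact hx ⟨by omega, by omega, by omega⟩
          · obtain ⟨⟨i', hi'⟩, ⟨j', hj'⟩⟩ := e
            simp only [head]
            intro h
            split_ifs at h with h1 h2 h3
            · simp only [Option.some.injEq, Prod.mk.injEq] at h
              obtain ⟨g1, g2⟩ := h
              subst g1
              have h2' : j' + 1 < a.getD i' 0 := h2
              exact hx ⟨h1, by omega, by omega⟩
            · simp only [Option.some.injEq, Prod.mk.injEq] at h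
              omega

end Pool.Agent.Helper75.Lamm
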