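import Pool.Agent.Helper75.Lamm.Struct
import Pool.Agent.Helper75.Lamm.Tait
import Pool.Agent.Helper75.Lamm.Class

/-!
# Merging a one-edge end block with its neighbour
-/

namespace Pool.Agent.Helper75.Lamm

open Finset

set_option linter.unusedSectionVars false

variable {E : Type} [Fintype E] [DecidableEq E]

/-- merging the last block -/
theorem std_merge_last {β : E → ℕ} {n χ : ℕ} (hn : 2 ≤ n) (hχ : χ < 2) (hlt : ∀ e, β e < n)
    {e₀ : E} (h0 : ∀ e, β e = n - 1 ↔ e = e₀) (z : E → ℤ) :
    Std β n χ z ↔ Std (fun e => min (β e) (n - 2)) (n - 1) χ z := by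
  have hb0 : β e₀ = n - 1 := (h0 e₀).2 rfl
  have hblk : ∀ i, i < n - 2 → blk (fun e => min (β e) (n - 2)) i = blk β i := by
    intro i hi
    ext e
    simp only [mem_blk]
    omega
  have hblk2 : ∑ e ∈ blk (fun e => min (β e) (n - 2)) (n - 2), z e =
      ∑ e ∈ blk β (n - 2), z e + z e₀ := by
    have : blk (fun e => min (β e) (n - 2)) (n - 2) = insert e₀ (blk β (n - 2)) := by
      ext e
      simp only [mem_blk, mem_insert]
      have := hlt e
      rw [← h0 e]
      omega
    rw [this, sum_insert (by rw [mem_blk]; omega)]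
    ring
  constructor
  · rintro ⟨V, V0, Vn, hV1, hV2⟩
    refine ⟨fun k => if k = n then 0 else V k, ?_, ?_, ?_, ?_⟩
    · beta_reduce
      rw [if_neg (by omega), V0]
    · beta_reduce
      rw [if_pos (by omega)]
    · intro e he
      beta_reduce at he ⊢
      by_cases h1 : e = e₀
      · subst h1
        rw [hb0] at he ⊢
        have g1 : min (n - 1) (n - 2) = n - 2 := by omega
        rw [g1] at he ⊢
        rw [if_neg (by omega)]
        have h3 := hV2 (n - 1) (by omega) (by omega)
        have g2 : blk β (n - 1) = {e} := by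
          ext x
          simp only [mem_blk, mem_singleton]
          exact h0 x
        rw [g2, sum_singleton] at h3
        have g3 : n - 1 + 2 = n + 1 := by omega
        rw [g3, Vn, sub_zero] at h3
        rw [h3]
        congr 1
        omega
      · have h2 : β e < n - 1 := by
          have := hlt e
          rw [← h0 e] at h1
          omega
        have g1 : min (β e) (n - 2) = β e := by omega
        rw [g1] at he ⊢
        rw [if_neg (by omega)]
        exact hV1 e he
    · intro i hi hi2
      beta_reduce
      by_cases h1 : i < n - 2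
      · rw [hblk i h1, hV2 i (by omega) hi2, if_neg (by omega)]
        by_cases h2 : i + 2 = n
        · omega
        · rw [if_neg h2]
      · have h2 : i = n - 2 := by omega
        subst h2
        rw [hblk2, hV2 (n - 2) (by omega) hi2, if_neg (by omega), if_pos (by omega)]
        have h3 := hV1 e₀ (by rw [hb0]; omega)
        rw [h3, hb0]
        have g3 : n - 1 + 1 = n - 2 + 2 := by omega
        rw [g3]
        ring
  · rintro ⟨V, V0, Vn, hV1, hV2⟩
    have hn1 : n - 1 + 1 = n := by omega
    rw [hn1] at Vn
    refine ⟨fun k => if k = n + 1 then 0 else if k = n then z e₀ else V k, ?_, ?_, ?_, ?_⟩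
    · beta_reduce
      rw [if_neg (by omega), if_neg (by omega), V0]
    · beta_reduce
      rw [if_pos rfl]
    · intro e he
      beta_reduce at hV1 ⊢
      by_cases h1 : e = e₀
      · subst h1
        rw [hb0, if_neg (by omega), if_pos (by omega)]
      · have h2 : β e < n - 1 := by
          have := hlt e
          rw [← h0 e] at h1
          omega
        have g1 : min (β e) (n - 2) = β e := by omega
        have h3 := hV1 e (by rw [g1]; exact he)
        rw [g1] at h3
        rw [if_neg (by omega), if_neg (by omega)]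
        exact h3
    · intro i hi hi2
      beta_reduce at hV2 ⊢
      by_cases h1 : i < n - 2
      · have h3 := hV2 i (by omega) hi2
        rw [hblk i h1] at h3
        rw [h3, if_neg (by omega), if_neg (by omega), if_neg (by omega), if_neg (by omega)]
      · by_cases h2 : i = n - 2
        · subst h2
          have h3 := hV2 (n - 2) (by omega) hi2
          rw [hblk2] at h3
          have g3 : n - 2 + 2 = n := by omega
          rw [g3, Vn] at h3
          rw [if_neg (by omega), if_neg (by omega), if_neg (by omega), if_pos (by omega)]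
          linarith
        · have h4 : i = n - 1 := by omega
          subst h4
          have g2 : blk β (n - 1) = {e₀} := by
            ext x
            simp only [mem_blk, mem_singleton]
            exact h0 x
          rw [g2, sum_singleton, if_neg (by omega), if_neg (by omega), if_pos (by omega), sub_zero]
          beta_reduce at hV1
          have h3 := hV1 e₀ (by rw [hb0]; omega)
          rw [h3, hb0]
          congr 1
          omega

/-- sign change at one edge -/
def flipAt (e₀ : E) (z : E → ℤ) (e : E) : ℤ := if e = e₀ then - z e else z e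

/-- merging the first block -/
theorem std_merge_first {β : E → ℕ} {n χ : ℕ} (hn : 2 ≤ n) (hχ : χ < 2)
    {e₀ : E} (h0 : ∀ e, β e = 0 ↔ e = e₀) (z : E → ℤ) :
    Std β n χ z ↔ Std (fun e => β e - 1) (n - 1) (1 - χ) (flipAt e₀ z) := by
  have hb0 : β e₀ = 0 := (h0 e₀).2 rfl
  have hblk : ∀ i, 1 ≤ i → ∑ e ∈ blk (fun e => β e - 1) i, flipAt e₀ z e =
      ∑ e ∈ blk β (i + 1), z e := by
    intro i hi
    have h1 : blk (fun e => β e - 1) i = blk β (i + 1) := by
      ext e
      simp only [mem_blk]
      omega
    rw [h1]
    apply sum_congr rfl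
    intro e he
    rw [mem_blk] at he
    unfold flipAt
    rw [if_neg (by rintro rfl; omega)]
  have hblk2 : ∑ e ∈ blk (fun e => β e - 1) 0, flipAt e₀ z e =
      ∑ e ∈ blk β 1, z e - z e₀ := by
    have h1 : blk (fun e => β e - 1) 0 = insert e₀ (blk β 1) := by
      ext e
      simp only [mem_blk, mem_insert]
      rw [← h0 e]
      omega
    rw [h1, sum_insert (by rw [mem_blk]; omega)]
    have h2 : ∑ e ∈ blk β 1, flipAt e₀ z e = ∑ e ∈ blk β 1, z e := by
      apply sum_congr rfl
      intro e he
      rw [mem_blk] at he
      unfold flipAt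
      rw [if_neg (by rintro rfl; omega)]
    rw [h2]
    unfold flipAt
    rw [if_pos rfl]
    ring
  have hb1 : blk β 0 = {e₀} := by
    ext x
    simp only [mem_blk, mem_singleton]
    exact h0 x
  constructor
  · rintro ⟨V, V0, Vn, hV1, hV2⟩
    refine ⟨fun k => if k = 0 then 0 else V (k + 1), ?_, ?_, ?_, ?_⟩
    · exact if_pos rfl
    · beta_reduce
      rw [if_neg (by omega)]
      have : n - 1 + 1 + 1 = n + 1 := by omega
      rw [this, Vn]
    · intro e he
      beta_reduce at he ⊢
      rw [if_neg (by omega)]
      by_cases h1 : e = e₀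
      · subst h1
        rw [hb0] at he ⊢
        have h2 := hV2 0 (by omega) (by omega)
        rw [hb1, sum_singleton, V0, zero_sub] at h2
        unfold flipAt
        rw [if_pos rfl, h2, neg_neg]
      · have h2 : 1 ≤ β e := by
          rw [← h0 e] at h1
          omega
        unfold flipAt
        rw [if_neg h1, hV1 e (by omega)]
        congr 1
        omega
    · intro i hi hi2
      beta_reduce
      by_cases h1 : i = 0
      · subst h1
        rw [hblk2, hV2 1 (by omega) (by omega), hV1 e₀ (by rw [hb0]; omega), hb0, if_pos rfl,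
          if_neg (by omega)]
        ring
      · rw [hblk i (by omega), hV2 (i + 1) (by omega) (by omega), if_neg h1, if_neg (by omega)]
  · rintro ⟨V, V0, Vn, hV1, hV2⟩
    have hn1 : n - 1 + 1 = n := by omega
    rw [hn1] at Vn
    refine ⟨fun k => if k = 0 then 0 else if k = 1 then z e₀ else V (k - 1), ?_, ?_, ?_, ?_⟩
    · exact if_pos rfl
    · beta_reduce
      rw [if_neg (by omega), if_neg (by omega)]
      exact Vn
    · intro e he
      beta_reduce at hV1 ⊢
      rw [if_neg (by omega)]
      by_cases h1 : e = e₀
      · subst h1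
        rw [hb0, if_pos (by omega)]
      · have h2 : 1 ≤ β e := by
          rw [← h0 e] at h1
          omega
        have h3 := hV1 e (by omega)
        unfold flipAt at h3
        rw [if_neg h1] at h3
        rw [if_neg (by omega), h3]
        congr 1
        omega
    · intro i hi hi2
      beta_reduce at hV2 ⊢
      rcases i with _ | _ | i
      · rw [hb1, sum_singleton, if_pos rfl, if_neg (by omega), if_neg (by omega)]
        have h3 := hV1 e₀ (by beta_reduce; rw [hb0]; omega)
        unfold flipAt at h3
        beta_reduce at h3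
        rw [if_pos rfl, hb0] at h3
        have h4 : z e₀ = - V 1 := by
          rw [← neg_neg (z e₀), h3]
        rw [h4]
        simp
      · have h3 := hV2 0 (by omega) (by omega)
        rw [hblk2, V0] at h3
        rw [if_neg (by omega), if_pos (by omega), if_neg (by omega), if_neg (by omega)]
        have h4 : ∑ e ∈ blk β 1, z e = z e₀ - V 2 := by linarith
        exact h4
      · have h3 := hV2 (i + 1) (by omega) (by omega)
        rw [hblk (i + 1) (by omega)] at h3
        rw [if_neg (by omega), if_neg (by omega), if_neg (by omega), if_neg (by omega)]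
        exact h3

variable {D : Type} [Fintype D] {G : PlaneGraph D} {f : D ≃ E × Bool} {β : E → ℕ} {n χ₀ : ℕ}
  {c : ℕ → E}

/-- the sizes of the blocks -/
def Sizes (β : E → ℕ) (n : ℕ) (m : List ℕ) : Prop :=
  m.length = n ∧ ∀ i, i < n → (blk β i).card = m.getD i 0

theorem Data.merge_last (H : Data G f β n χ₀ c) (hn : 2 ≤ n) {e₀ : E}
    (h0 : ∀ e, β e = n - 1 ↔ e = e₀) :
    Data G f (fun e => min (β e) (n - 2)) (n - 1) χ₀ c := by
  refine ⟨H.rev, ?_, ?_, by omega, H.par, ?_⟩
  · intro e
    beta_reduce
    omega
  · intro i hi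
    beta_reduce
    rw [H.rep i (by omega)]
    omega
  · intro z
    rw [← std_merge_last hn H.par H.lt h0 z]
    exact H.flow z

/-- reversing the orientation of one edge -/
def flipEquiv (e₀ : E) : E × Bool ≃ E × Bool where
  toFun x := (x.1, if x.1 = e₀ then !x.2 else x.2)
  invFun x := (x.1, if x.1 = e₀ then !x.2 else x.2)
  left_inv := by
    rintro ⟨e, b⟩
    by_cases h : e = e₀ <;> simp [h]
  right_inv := by
    rintro ⟨e, b⟩
    by_cases h : e = e₀ <;> simp [h]

theorem flipAt_flipAt (e₀ : E) (z : E → ℤ) : flipAt e₀ (flipAt e₀ z) = z := by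
  funext e
  unfold flipAt
  by_cases h : e = e₀ <;> simp [h]

theorem Data.merge_first (H : Data G f β n χ₀ c) (hn : 2 ≤ n) {e₀ : E}
    (h0 : ∀ e, β e = 0 ↔ e = e₀) :
    Data G (f.trans (flipEquiv e₀)) (fun e => β e - 1) (n - 1) (1 - χ₀) (fun i => c (i + 1)) := by
  refine ⟨?_, ?_, ?_, by omega, by omega, ?_⟩
  · intro d
    simp only [Equiv.trans_apply, H.rev, flipEquiv, Equiv.coe_fn_mk]
    by_cases h : (f d).1 = e₀ <;> simp [h]
  · intro e
    have := H.lt e
    beta_reduce
    omega
  · intro i hi
    beta_reduce
    rw [H.rep (i + 1) (by omega)]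
    omega
  · intro z
    have h1 := std_merge_first hn H.par h0 (flipAt e₀ z)
    rw [flipAt_flipAt] at h1
    rw [← h1, H.flow]
    have h2 : (fun d => if (f d).2 then flipAt e₀ z (f d).1 else - flipAt e₀ z (f d).1) =
        fun d => if ((f.trans (flipEquiv e₀)) d).2 then z ((f.trans (flipEquiv e₀)) d).1
          else - z ((f.trans (flipEquiv e₀)) d).1 := by
      funext d
      simp only [Equiv.trans_apply, flipEquiv, Equiv.coe_fn_mk, flipAt]
      by_cases h : (f d).1 = e₀
      · simp only [if_pos h]
        cases (f d).2 <;> simp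
      · simp only [if_neg h]
    rw [h2]

theorem exists_two {s : Finset E} (h : 2 ≤ s.card) : ∃ e e', e ≠ e' ∧ e ∈ s ∧ e' ∈ s := by
  obtain ⟨a, ha, b, hb, hab⟩ := Finset.one_lt_card.1 (by omega : 1 < s.card)
  exact ⟨a, b, hab, ha, hb⟩

/-- the main theorem for canonical sizes -/
theorem main_canon (H : Data G f β n χ₀ c) {m : List ℕ} (hs : Sizes β n m)
    (hpos : ∀ x ∈ m, 0 < x) (hp : Odd (cf m).1)
    (hcan : 2 ≤ n → 2 ≤ m.getD 0 0 ∧ 2 ≤ m.getD (n - 1) 0) {r : Equiv.Perm D}
    (hr : G.IsAxial r) : ∃ b, (TypeA b ∨ TypeB b) ∧ Represents b (cf m).1 (cf m).2 := by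
  have hn := H.pos
  obtain ⟨hlen, hcard⟩ := hs
  apply classify m hpos hp (by omega)
  intro h2
  rw [hlen] at h2 ⊢
  obtain ⟨g1, g2⟩ := hcan h2
  refine ⟨g1, g2, ?_⟩
  have hC : Canon β n c := by
    refine ⟨H.lt, H.rep, ?_, ?_⟩
    · intro _
      obtain ⟨e, e', h3, h4, h5⟩ := exists_two (s := blk β 0) (by rw [hcard 0 (by omega)]; exact g1)
      exact ⟨e, e', h3, mem_blk.1 h4, mem_blk.1 h5⟩
    · intro _
      obtain ⟨e, e', h3, h4, h5⟩ := exists_two (s := blk β (n - 1))
        (by rw [hcard _ (by omega)]; exact g2)
      exact ⟨e, e', h3, mem_blk.1 h4, mem_blk.1 h5⟩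
  rcases main_struct H hC h2 hr with ⟨h3, h4⟩ | ⟨χ, h3, h4, h5⟩
  · left
    refine ⟨h3, fun i hi => ?_⟩
    rw [← hcard i hi, ← hcard _ (by omega)]
    exact h4 i hi
  · right
    refine ⟨χ, h3, ?_, ?_⟩
    · intro i hi hi1 hi2
      rw [← hcard i (by omega)]
      exact h4 i hi hi1 hi2
    · rw [← hcard 0 (by omega), ← hcard (n - 1) (by omega)]
      exact h5

/-- the main theorem with canonical last block -/
theorem main_last (H : Data G f β n χ₀ c) {m : List ℕ} (hs : Sizes β n m)
    (hpos : ∀ x ∈ m, 0 < x) (hp : Odd (cf m).1)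
    (hcan : 2 ≤ n → 2 ≤ m.getD (n - 1) 0) {r : Equiv.Perm D}
    (hr : G.IsAxial r) : ∃ b, (TypeA b ∨ TypeB b) ∧ Represents b (cf m).1 (cf m).2 := by
  obtain ⟨hlen, hcard⟩ := hs
  by_cases h1 : 2 ≤ n ∧ m.getD 0 0 = 1
  · obtain ⟨hn, h1⟩ := h1
    -- merge the first block
    have hc0 := hcard 0 (by omega)
    rw [h1, Finset.card_eq_one] at hc0
    obtain ⟨e₀, he₀⟩ := hc0
    have h0 : ∀ e, β e = 0 ↔ e = e₀ := by
      intro e
      rw [← mem_blk, he₀, mem_singleton]
    obtain ⟨x, y, l, rfl⟩ : ∃ x y l, m = x :: y :: l := by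
      match m, hlen with
      | [], h => simp at h; omega
      | [_], h => simp at h; omega
      | x :: y :: l, _ => exact ⟨x, y, l, rfl⟩
    have hx : x = 1 := by simpa using h1
    subst hx
    have H' := H.merge_first hn h0
    have hcf := cf_first y l
    simp only [List.length_cons] at hlen
    have hs' : Sizes (fun e => β e - 1) (n - 1) ((y + 1) :: l) := by
      refine ⟨by simp only [List.length_cons]; omega, ?_⟩
      intro i hi
      rcases i with _ | i
      · have h3 : blk (fun e => β e - 1) 0 = insert e₀ (blk β 1) := by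
          ext e
          simp only [mem_blk, mem_insert]
          rw [← h0 e]
          omega
        have hb0 := (h0 e₀).2 rfl
        rw [h3, card_insert_of_notMem (by rw [mem_blk]; omega), hcard 1 (by omega)]
        simp
      · have h3 : blk (fun e => β e - 1) (i + 1) = blk β (i + 2) := by
          ext e
          simp only [mem_blk]
          omega
        rw [h3, hcard _ (by omega)]
        simp
    have hpos' : ∀ x ∈ (y + 1) :: l, 0 < x := by
      intro x hx
      rcases List.mem_cons.1 hx with rfl | hx
      · omega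
      · exact hpos x (List.mem_cons_of_mem _ (List.mem_cons_of_mem _ hx))
    have h5 := main_canon H' hs' hpos' (by rw [← hcf.1]; exact hp) (by
      intro hn2
      constructor
      · have : 0 < y := hpos y (by simp)
        simp only [List.getD_cons_zero]
        omega
      · have h6 := hcan hn
        obtain ⟨k, hk⟩ : ∃ k, n = k + 3 := ⟨n - 3, by omega⟩
        subst hk
        simpa using h6) hr
    obtain ⟨b, hb, g1, g2, g3, g4⟩ := h5
    refine ⟨b, hb, g1, g2, ?_, ?_⟩
    · rw [g3, hcf.1]
    · have h7 := hcf.2.symm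
      rw [hcf.1]
      exact h7.trans g4
  · apply main_canon H ⟨hlen, hcard⟩ hpos hp _ hr
    intro hn
    refine ⟨?_, hcan hn⟩
    have h2 := getD_pos hpos (i := 0) (by omega)
    have h3 : m.getD 0 0 ≠ 1 := fun h => h1 ⟨hn, h⟩
    omega

/-- the main theorem for all sizes -/
theorem main_all (H : Data G f β n χ₀ c) {m : List ℕ} (hs : Sizes β n m)
    (hpos : ∀ x ∈ m, 0 < x) (hp : Odd (cf m).1) {r : Equiv.Perm D}
    (hr : G.IsAxial r) : ∃ b, (TypeA b ∨ TypeB b) ∧ Represents b (cf m).1 (cf m).2 := by
  obtain ⟨hlen, hcard⟩ := hs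
  by_cases h1 : 2 ≤ n ∧ m.getD (n - 1) 0 = 1
  · obtain ⟨hn, h1⟩ := h1
    have hc0 := hcard (n - 1) (by omega)
    rw [h1, Finset.card_eq_one] at hc0
    obtain ⟨e₀, he₀⟩ := hc0
    have h0 : ∀ e, β e = n - 1 ↔ e = e₀ := by
      intro e
      rw [← mem_blk, he₀, mem_singleton]
    have H' := H.merge_last hn h0
    -- decompose the list
    obtain ⟨l, y, x, rfl⟩ : ∃ l y x, m = l ++ [y, x] := by
      have hm : m ≠ [] := by rintro rfl; simp at hlen; omega
      obtain ⟨l₁, x, hx⟩ := (List.eq_nil_or_concat m).resolve_left hm
      rw [List.concat_eq_append] at hx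
      subst hx
      have hl : l₁ ≠ [] := by rintro rfl; simp at hlen; omega
      obtain ⟨l₂, y, hy⟩ := (List.eq_nil_or_concat l₁).resolve_left hl
      rw [List.concat_eq_append] at hy
      subst hy
      exact ⟨l₂, y, x, by simp⟩
    simp only [List.length_append, List.length_cons, List.length_nil] at hlen
    have hx : x = 1 := by
      have h2 : n - 1 = l.length + 1 := by omega
      rw [h2] at h1
      rw [List.getD_append_right _ _ _ _ (by omega)] at h1
      have h3 : l.length + 1 - l.length = 1 := by omega
      rw [h3] at h1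
      simpa using h1
    subst hx
    have hs' : Sizes (fun e => min (β e) (n - 2)) (n - 1) (l ++ [y + 1]) := by
      refine ⟨by simp only [List.length_append, List.length_cons, List.length_nil]; omega, ?_⟩
      intro i hi
      by_cases h2 : i < n - 2
      · have h3 : blk (fun e => min (β e) (n - 2)) i = blk β i := by
          ext e
          simp only [mem_blk]
          omega
        rw [h3, hcard i (by omega), List.getD_append _ _ _ _ (by omega),
          List.getD_append _ _ _ _ (by omega)]
      · have h4 : i = n - 2 := by omega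
        subst h4
        have h3 : blk (fun e => min (β e) (n - 2)) (n - 2) = insert e₀ (blk β (n - 2)) := by
          ext e
          simp only [mem_blk, mem_insert]
          have := H.lt e
          rw [← h0 e]
          omega
        have hb0 := (h0 e₀).2 rfl
        rw [h3, card_insert_of_notMem (by rw [mem_blk]; omega), hcard _ (by omega),
          List.getD_append_right _ _ _ _ (by omega), List.getD_append_right _ _ _ _ (by omega)]
        have h5 : n - 2 - l.length = 0 := by omega
        rw [h5]
        simp
    have hpos' : ∀ x ∈ l ++ [y + 1], 0 < x := by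
      intro x hx
      rcases List.mem_append.1 hx with hx | hx
      · exact hpos x (List.mem_append_left _ hx)
      · rw [List.mem_singleton] at hx
        omega
    have h5 := main_last H' hs' hpos' (by rw [← cf_last]; exact hp) (by
      intro hn2
      have hy : 0 < y := hpos y (by simp)
      rw [List.getD_append_right _ _ _ _ (by omega)]
      have h6 : n - 1 - 1 - l.length = 0 := by omega
      rw [h6]
      simp only [List.getD_cons_zero]
      omega) hr
    rw [← cf_last] at h5
    exact h5
  · apply main_last H ⟨hlen, hcard⟩ hpos hp _ hr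
    intro hn
    have h2 := getD_pos hpos (i := n - 1) (by omega)
    have h3 : m.getD (n - 1) 0 ≠ 1 := fun h => h1 ⟨hn, h⟩
    omega

/-- a plane graph which is 2-isomorphic to the Tait graph of `C(a₁, ..., aₙ)`, represents a knot
and has a reflection with two fixed corners: the knot has an expansion of type (A) or (B) -/
theorem onlyIf (a : List ℕ) (hne : a ≠ []) (hpos : ∀ x ∈ a, 0 < x) (hp : Odd (cf a).1)
    (G : PlaneGraph D) (hG : G.TwoIso a) (r : Equiv.Perm D) (hr : G.IsAxial r) :
    ∃ b, (TypeA b ∨ TypeB b) ∧ Represents b (cf a).1 (cf a).2 := by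
  obtain ⟨f, hf1, hf2⟩ := hG
  have hlen : 0 < a.length := List.length_pos_of_ne_nil hne
  have hex : ∀ i, i < a.length → ∃ e : Edge a, blockOf a e = i := fun i hi =>
    ⟨mkE a i 0 hi (getD_pos hpos hi), rfl⟩
  obtain ⟨e₀, -⟩ := hex 0 hlen
  let c : ℕ → Edge a := fun i => if h : i < a.length then Classical.choose (hex i h) else e₀
  have hc : ∀ i, i < a.length → blockOf a (c i) = i := by
    intro i hi
    simp only [c]
    rw [dif_pos hi]
    exact Classical.choose_spec (hex i hi)
  have H : Data G f (blockOf a) a.length 0 c := by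
    refine ⟨hf1, fun e => e.1.2, hc, hlen, by omega, fun z => ?_⟩
    rw [← taitFlow_iff a hpos z]
    exact hf2 z
  refine main_all H ⟨rfl, ?_⟩ hpos hp hr
  intro i hi
  have h1 : blk (blockOf a) i = (univ : Finset (Fin (a.getD i 0))).map
      ⟨fun j => (⟨⟨i, hi⟩, j⟩ : Edge a), fun j j' h => by simpa using h⟩ := by
    ext e
    simp only [mem_blk, mem_map, mem_univ, true_and, Function.Embedding.coeFn_mk]
    constructor
    · intro h
      obtain ⟨⟨i', hi'⟩, j⟩ := e
      simp only [blockOf] at h
      subst h
      exact ⟨j, rfl⟩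
    · rintro ⟨j, rfl⟩
      rfl
  rw [h1, card_map, card_univ, Fintype.card_fin]

end Pool.Agent.Helper75.Lamm
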