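import Pool.Agent.Helper75.Lamm.Double

/-!
# Duality and the symmetric operations
-/

namespace Pool.Agent.Helper75.Lamm

open Finset Equiv

set_option linter.unusedSectionVars false

variable {D : Type} [Fintype D] {E : Type} [Fintype E] [DecidableEq E]

/-- the function on darts given by a function on oriented edges -/
def dart (f : D ≃ E × Bool) (z : E → ℤ) (d : D) : ℤ :=
  if (f d).2 then z (f d).1 else - z (f d).1

/-- flows and coflows are the flows and coflows in block form -/
structure Both (G : PlaneGraph D) (f : D ≃ E × Bool) (β : E → ℕ) (n χ : ℕ) : Prop where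
  rev : ∀ d, f (G.α d) = ((f d).1, !(f d).2)
  lt : ∀ e, β e < n
  par : χ < 2
  flow : ∀ z : E → ℤ, Std β n χ z ↔ Flow G.σ G.α (dart f z)
  coflow : ∀ z : E → ℤ, Std β n (1 - χ) z ↔ Flow (G.σ * G.α) G.α (dart f z)

/-! ### Duality -/

theorem alpha_alpha (G : PlaneGraph D) : G.σ * G.α * G.α = G.σ := by
  ext d
  rw [Perm.mul_apply, Perm.mul_apply, G.invol]

/-- the dual plane graph -/
def PlaneGraph.dual (G : PlaneGraph D) : PlaneGraph D where
  σ := G.σ * G.α
  α := G.α
  invol := G.invol
  noFix := G.noFix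
  connected := by
    apply connected_of_inv
    intro X h1 h2
    exact const_of_inv G (fun d => by
      have := h1 (G.α d)
      rw [Perm.mul_apply, G.invol, h2] at this
      exact this) h2
  euler := by
    rw [alpha_alpha]
    have := G.euler
    omega

theorem Both.dual {G : PlaneGraph D} {f : D ≃ E × Bool} {β : E → ℕ} {n χ : ℕ}
    (H : Both G f β n χ) : Both G.dual f β n (1 - χ) := by
  have hp := H.par
  refine ⟨H.rev, H.lt, by omega, H.coflow, ?_⟩
  intro z
  have h1 : 1 - (1 - χ) = χ := by omega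
  rw [h1]
  show _ ↔ Flow (G.σ * G.α * G.α) G.α _
  rw [alpha_alpha]
  exact H.flow z

theorem alpha_inv (G : PlaneGraph D) : G.α⁻¹ = G.α := by
  rw [inv_eq_iff_mul_eq_one]
  ext d
  rw [Perm.mul_apply, G.invol]
  rfl

theorem axial_dual {G : PlaneGraph D} {r : Perm D} (hr : G.IsAxial r) :
    G.dual.IsAxial (G.α * r) := by
  refine ⟨?_, ?_, ?_, ?_⟩
  · intro d
    simp only [Perm.mul_apply]
    rw [hr.reversal, G.invol, hr.invol]
  · intro d
    show (G.α * r) ((G.σ * G.α) d) = (G.σ * G.α)⁻¹ ((G.α * r) d)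
    rw [mul_inv_rev, alpha_inv]
    simp only [Perm.mul_apply]
    rw [hr.rotation, hr.reversal]
  · intro d
    show (G.α * r) (G.α d) = G.α ((G.α * r) d)
    simp only [Perm.mul_apply]
    rw [hr.reversal]
  · have h1 : {d | (G.α * r) d = G.dual.σ d} = G.α '' {d | r d = G.σ d} := by
      ext d
      show (G.α * r) d = (G.σ * G.α) d ↔ _
      simp only [Perm.mul_apply, Set.mem_image, Set.mem_ofPred_eq]
      rw [← hr.reversal]
      constructor
      · intro h
        exact ⟨G.α d, h, G.invol d⟩
      · rintro ⟨d', h, rfl⟩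
        rw [G.invol]
        exact h
    rw [h1, Set.ncard_image_of_injective _ G.α.injective]
    exact hr.corners

/-! ### Doubling and block form -/

theorem sum_blk_dbl (β : E → ℕ) (e₀ : E) (z : Option E → ℤ) (i : ℕ) :
    ∑ o ∈ blk (fun o : Option E => o.elim (β e₀) β) i, z o =
      ∑ e ∈ blk β i, (z (some e) + if e = e₀ then z none else 0) := by
  unfold blk
  rw [Finset.sum_filter, Finset.sum_filter, Fintype.sum_option]
  simp only [Option.elim_none, Option.elim_some]
  have h1 : ∀ e, (if β e = i then z (some e) + (if e = e₀ then z none else 0) else 0) =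
      (if β e = i then z (some e) else 0) +
        (if e = e₀ then (if β e₀ = i then z none else 0) else 0) := by
    intro e
    by_cases h : e = e₀
    · subst h
      by_cases h2 : β e = i <;> simp [h2]
    · simp [h]
  rw [Finset.sum_congr rfl (fun e _ => h1 e), Finset.sum_add_distrib, Finset.sum_ite_eq',
    if_pos (mem_univ _), add_comm]
  rfl

theorem sum_blk_dbl' (β : E → ℕ) (e₀ : E) (z : Option E → ℤ) (i : ℕ) (hi : β e₀ ≠ i) :
    ∑ o ∈ blk (fun o : Option E => o.elim (β e₀) β) i, z o = ∑ e ∈ blk β i, z (some e) := by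
  rw [sum_blk_dbl]
  apply Finset.sum_congr rfl
  intro e he
  rw [mem_blk] at he
  rw [if_neg (by rintro rfl; exact hi he), add_zero]

theorem std_dbl_sum {β : E → ℕ} {n χ : ℕ} {e₀ : E} (h : β e₀ % 2 = χ) (z : Option E → ℤ) :
    Std (fun o : Option E => o.elim (β e₀) β) n χ z ↔
      Std β n χ (fun e => z (some e) + if e = e₀ then z none else 0) := by
  constructor
  · rintro ⟨V, V0, Vn, h1, h2⟩
    refine ⟨V, V0, Vn, ?_, ?_⟩
    · intro e he
      beta_reduce
      rw [if_neg (by rintro rfl; exact he h), add_zero]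
      exact h1 (some e) he
    · intro i hi hi2
      rw [← h2 i hi hi2, sum_blk_dbl]
  · rintro ⟨V, V0, Vn, h1, h2⟩
    refine ⟨V, V0, Vn, ?_, ?_⟩
    · rintro (_ | e) he
      · exact absurd h he
      · simp only [Option.elim_some] at he ⊢
        have := h1 e he
        beta_reduce at this
        rw [if_neg (by rintro rfl; exact he h), add_zero] at this
        exact this
    · intro i hi hi2
      rw [← h2 i hi hi2, sum_blk_dbl]

theorem std_dbl_const {β : E → ℕ} {n χ : ℕ} {e₀ : E} (h : β e₀ % 2 ≠ χ) (z : Option E → ℤ) :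
    Std (fun o : Option E => o.elim (β e₀) β) n χ z ↔
      z none = z (some e₀) ∧ Std β n χ (fun e => z (some e)) := by
  constructor
  · rintro ⟨V, V0, Vn, h1, h2⟩
    refine ⟨?_, V, V0, Vn, ?_, ?_⟩
    · rw [h1 none h, h1 (some e₀) h]
      rfl
    · intro e he
      exact h1 (some e) he
    · intro i hi hi2
      rw [← h2 i hi hi2, sum_blk_dbl' _ _ _ _ (by rintro rfl; exact h hi2)]
  · rintro ⟨h0, V, V0, Vn, h1, h2⟩
    refine ⟨V, V0, Vn, ?_, ?_⟩
    · rintro (_ | e) he
      · rw [h0]
        exact h1 e₀ h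
      · exact h1 e he
    · intro i hi hi2
      rw [← h2 i hi hi2, sum_blk_dbl' _ _ _ _ (by rintro rfl; exact h hi2)]

theorem beq_beq (b c : Bool) : ((b == c) == c) = b := by
  revert b c
  decide

theorem not_beq (b c : Bool) : ((!b) == c) = !(b == c) := by
  revert b c
  decide

theorem eq_not_of_ne (b c : Bool) (h : ¬ b = c) : b = !c := by
  revert h
  revert b c
  decide

/-- the edges of the doubled graph -/
def dblE (f : D ≃ E × Bool) (x : D) : D ⊕ Bool ≃ Option E × Bool where
  toFun := Sum.elim (fun d => (some (f d).1, (f d).2)) (fun b => (none, b == (f x).2))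
  invFun p := p.1.elim (Sum.inr (p.2 == (f x).2)) (fun e => Sum.inl (f.symm (e, p.2)))
  left_inv := by
    rintro (d | b)
    · simp
    · simp only [Sum.elim_inr, Option.elim_none, beq_beq]
  right_inv := by
    rintro ⟨_ | e, b⟩
    · simp only [Option.elim_none, Sum.elim_inr, beq_beq]
    · simp

theorem dblE_inl (f : D ≃ E × Bool) (x d : D) :
    dblE f x (Sum.inl d) = (some (f d).1, (f d).2) := rfl

theorem dblE_inr (f : D ≃ E × Bool) (x : D) (b : Bool) :
    dblE f x (Sum.inr b) = (none, b == (f x).2) := rfl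

variable [DecidableEq D]

theorem Both.double {G : PlaneGraph D} {f : D ≃ E × Bool} {β : E → ℕ} {n χ : ℕ}
    (H : Both G f β n χ) (x : D) (h : β (f x).1 % 2 = χ) :
    Both (G.double x) (dblE f x) (fun o : Option E => o.elim (β (f x).1) β) n χ := by
  have hp := H.par
  refine ⟨?_, ?_, hp, ?_, ?_⟩
  · rintro (d | b)
    · show dblE f x (Sum.inl (G.α d)) = _
      rw [dblE_inl, dblE_inl, H.rev]
    · show dblE f x (Sum.inr (!b)) = _
      rw [dblE_inr, dblE_inr, not_beq]
  · rintro (_ | e)
    · exact H.lt _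
    · exact H.lt e
  · intro z
    rw [std_dbl_sum h, H.flow]
    show _ ↔ Flow (dσ G.σ x (G.α x)) (dα G.α) (dart (dblE f x) z)
    rw [flow_dbl G.invol]
    have h1 : dart (dblE f x) z (Sum.inr false) = - dart (dblE f x) z (Sum.inr true) := by
      cases hc : (f x).2 <;> simp [dart, dblE_inr, hc]
    have h2 : (fun d => dart (dblE f x) z (Sum.inl d) +
        (if d = x then dart (dblE f x) z (Sum.inr true) else 0) -
        (if d = G.α x then dart (dblE f x) z (Sum.inr true) else 0)) =
        dart f (fun e => z (some e) + if e = (f x).1 then z none else 0) := by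
      funext d
      by_cases h3 : (f d).1 = (f x).1
      · have h4 : d = x ∨ d = G.α x := by
          by_cases h5 : (f d).2 = (f x).2
          · exact Or.inl (f.injective (Prod.ext h3 h5))
          · right
            apply f.injective
            rw [H.rev]
            exact Prod.ext h3 (eq_not_of_ne _ _ h5)
        rcases h4 with rfl | rfl
        · rw [if_pos rfl, if_neg (fun h => G.noFix d h.symm)]
          cases hc : (f d).2
          · simp [dart, dblE_inr, dblE_inl, hc]
            ring
          · simp [dart, dblE_inr, dblE_inl, hc]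
        · rw [if_pos rfl, if_neg (G.noFix x)]
          cases hc : (f x).2
          · simp [dart, dblE_inr, dblE_inl, H.rev, hc]
          · simp [dart, dblE_inr, dblE_inl, H.rev, hc]
            ring
      · have h4 : d ≠ x := by rintro rfl; exact h3 rfl
        have h5 : d ≠ G.α x := by rintro rfl; rw [H.rev] at h3; exact h3 rfl
        rw [if_neg h4, if_neg h5]
        simp only [dart, dblE_inl, if_neg h3, add_zero, sub_zero]
        try rfl
    rw [h2]
    exact ⟨fun h => ⟨h1, h⟩, fun h => h.2⟩
  · intro z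
    rw [std_dbl_const (by omega), H.coflow]
    show _ ↔ Flow (dσ G.σ x (G.α x) * dα G.α) (dα G.α) (dart (dblE f x) z)
    rw [coflow_dbl G.invol G.noFix]
    have h1 : dart (dblE f x) z (Sum.inr false) = - dart (dblE f x) z (Sum.inr true) := by
      cases hc : (f x).2 <;> simp [dart, dblE_inr, hc]
    have h2 : dart (dblE f x) z (Sum.inr true) = dart (dblE f x) z (Sum.inl x) ↔
        z none = z (some (f x).1) := by
      cases hc : (f x).2 <;> simp [dart, dblE_inr, dblE_inl, hc]
    have h3 : (fun d => dart (dblE f x) z (Sum.inl d)) = dart f (fun e => z (some e)) := rfl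
    rw [h2, h3]
    exact ⟨fun h => ⟨⟨h1, h.1⟩, h.2⟩, fun h => ⟨h.1.2, h.2⟩⟩

theorem card_blk_dbl (β : E → ℕ) (k i : ℕ) :
    (blk (fun o : Option E => o.elim k β) i).card = (blk β i).card + if k = i then 1 else 0 := by
  unfold blk
  rw [Finset.card_filter, Finset.card_filter, Fintype.sum_option]
  simp only [Option.elim_none, Option.elim_some]
  rw [add_comm]
  rfl

/-! ### Symmetric doubling -/

theorem axial_abs {D : Type} {S A B r : Perm D} (hA : ∀ d, A (A d) = d) (hB : ∀ d, B (B d) = d)
    (hAB : ∀ d, r (B d) = A (r d)) (hr : ∀ d, r (r d) = d) (hS : ∀ d, r (S d) = S⁻¹ (r d)) :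
    (∀ d, r ((A * S * B) d) = (A * S * B)⁻¹ (r d)) ∧
      {d | r d = (A * S * B) d}.ncard = {d | r d = S d}.ncard := by
  have hBA : ∀ y, r (A y) = B (r y) := by
    intro y
    have := hAB (r y)
    rw [hr] at this
    rw [← this, hr]
  have hAi : A⁻¹ = A := by
    rw [inv_eq_iff_mul_eq_one]
    ext d
    rw [Perm.mul_apply, hA]
    rfl
  have hBi : B⁻¹ = B := by
    rw [inv_eq_iff_mul_eq_one]
    ext d
    rw [Perm.mul_apply, hB]
    rfl
  constructor
  · intro d
    rw [mul_inv_rev, mul_inv_rev, hAi, hBi]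
    simp only [Perm.mul_apply]
    rw [hBA, hS, hAB]
  · have h1 : {d | r d = (A * S * B) d} = B '' {d | r d = S d} := by
      ext d
      simp only [Perm.mul_apply, Set.mem_image, Set.mem_ofPred_eq]
      constructor
      · intro h
        refine ⟨B d, ?_, hB d⟩
        rw [hAB, h, hA]
      · rintro ⟨d', h, rfl⟩
        rw [hB, hAB, h]
    rw [h1, Set.ncard_image_of_injective _ B.injective]

theorem sumCongr_one_refl {T : Type} {σ r : Perm D} (hrot : ∀ d, r (σ d) = σ⁻¹ (r d))
    (τ : Perm T) (d : D ⊕ T) :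
    (Perm.sumCongr r τ) ((Perm.sumCongr σ 1) d) = (Perm.sumCongr σ 1)⁻¹ ((Perm.sumCongr r τ) d) := by
  rw [Perm.sumCongr_inv]
  rcases d with d | d
  · simp only [Perm.sumCongr_apply, Sum.map_inl, hrot]
  · simp

/-- doubling an edge which is reversed by the reflection -/
theorem axial_double_one {G : PlaneGraph D} {r : Perm D} (hr : G.IsAxial r) {x : D}
    (hx : r x = G.α x) : (G.double x).IsAxial (Perm.sumCongr r Equiv.boolNot) := by
  have h0 : ∀ d, (Perm.sumCongr r Equiv.boolNot) ((Perm.sumCongr r Equiv.boolNot) d) = d := by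
    rintro (d | d)
    · simp [hr.invol]
    · simp
  have h := axial_abs (S := Perm.sumCongr G.σ (1 : Perm Bool))
    (A := Equiv.swap (Sum.inl (G.α x)) (Sum.inr false))
    (B := Equiv.swap (Sum.inl x) (Sum.inr true)) (r := Perm.sumCongr r Equiv.boolNot)
    (Equiv.swap_apply_self _ _) (Equiv.swap_apply_self _ _) (by
      intro d
      rw [← Perm.mul_apply, Equiv.mul_swap_eq_swap_mul, Perm.mul_apply]
      simp only [Perm.sumCongr_apply, Sum.map_inl, Sum.map_inr, hx]
      rfl) h0 (sumCongr_one_refl hr.rotation _)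
  refine ⟨h0, h.1, ?_, ?_⟩
  · rintro (d | d)
    · show Sum.inl (r (G.α d)) = Sum.inl (G.α (r d))
      rw [hr.reversal]
    · rfl
  · refine h.2.trans ?_
    have h1 : {d | (Perm.sumCongr r Equiv.boolNot) d = (Perm.sumCongr G.σ (1 : Perm Bool)) d} =
        Sum.inl '' {d | r d = G.σ d} := by
      ext d
      rcases d with d | d
      · simp
      · simp
    rw [h1, Set.ncard_image_of_injective _ Sum.inl_injective]
    exact hr.corners

/-- the reflection after doubling two edges -/
def swap2 (r : Perm D) : Perm ((D ⊕ Bool) ⊕ Bool) where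
  toFun := Sum.elim (Sum.elim (fun d => Sum.inl (Sum.inl (r d))) (fun b => Sum.inr (!b)))
    (fun b => Sum.inl (Sum.inr (!b)))
  invFun := Sum.elim (Sum.elim (fun d => Sum.inl (Sum.inl (r.symm d))) (fun b => Sum.inr (!b)))
    (fun b => Sum.inl (Sum.inr (!b)))
  left_inv := by
    rintro ((d | d) | d) <;> simp
  right_inv := by
    rintro ((d | d) | d) <;> simp

theorem swap2_inl (r : Perm D) (d : D) :
    swap2 r (Sum.inl (Sum.inl d)) = Sum.inl (Sum.inl (r d)) := rfl

theorem swap2_mid (r : Perm D) (b : Bool) : swap2 r (Sum.inl (Sum.inr b)) = Sum.inr (!b) := rfl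

theorem swap2_inr (r : Perm D) (b : Bool) : swap2 r (Sum.inr b) = Sum.inl (Sum.inr (!b)) := rfl

theorem swap_comm' {D : Type} [DecidableEq D] {a b c d : D} (h1 : c ≠ a) (h2 : c ≠ b)
    (h3 : d ≠ a) (h4 : d ≠ b) :
    Equiv.swap a b * Equiv.swap c d = Equiv.swap c d * Equiv.swap a b := by
  rw [Equiv.mul_swap_eq_swap_mul, Equiv.swap_apply_of_ne_of_ne h1 h2,
    Equiv.swap_apply_of_ne_of_ne h3 h4]

theorem swap_mul_invol {D : Type} [DecidableEq D] {a b c d : D} (h1 : c ≠ a) (h2 : c ≠ b)
    (h3 : d ≠ a) (h4 : d ≠ b) (x : D) :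
    (Equiv.swap a b * Equiv.swap c d) ((Equiv.swap a b * Equiv.swap c d) x) = x := by
  have : (Equiv.swap a b * Equiv.swap c d) * (Equiv.swap a b * Equiv.swap c d) = 1 := by
    nth_rewrite 2 [swap_comm' h1 h2 h3 h4]
    rw [mul_assoc, ← mul_assoc (Equiv.swap c d) (Equiv.swap c d), Equiv.swap_mul_self, one_mul,
      Equiv.swap_mul_self]
  rw [← Perm.mul_apply, this]
  rfl

/-- doubling two edges interchanged by the reflection, or both sides of a fixed edge -/
theorem axial_double_two {G : PlaneGraph D} {r : Perm D} (hr : G.IsAxial r) {x : D}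
    (hx : r x ≠ G.α x) :
    ((G.double x).double (Sum.inl (G.α (r x)))).IsAxial (swap2 r) := by
  have h0 : ∀ d, swap2 r (swap2 r d) = d := by
    rintro ((d | d) | d)
    · rw [swap2_inl, swap2_inl, hr.invol]
    · rw [swap2_mid, swap2_inr, Bool.not_not]
    · rw [swap2_inr, swap2_mid, Bool.not_not]
  have hx2 : G.α (r x) ≠ x := by
    intro h
    apply hx
    rw [← h, hr.reversal, hr.invol, h]
  set A : Perm ((D ⊕ Bool) ⊕ Bool) := Equiv.swap (Sum.inl (Sum.inl (r x))) (Sum.inr false) *
    Equiv.swap (Sum.inl (Sum.inl (G.α x))) (Sum.inl (Sum.inr false)) with hA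
  set B : Perm ((D ⊕ Bool) ⊕ Bool) := Equiv.swap (Sum.inl (Sum.inl x)) (Sum.inl (Sum.inr true)) *
    Equiv.swap (Sum.inl (Sum.inl (G.α (r x)))) (Sum.inr true) with hB
  set S : Perm ((D ⊕ Bool) ⊕ Bool) := Perm.sumCongr (Perm.sumCongr G.σ 1) 1 with hS
  have hσ : ((G.double x).double (Sum.inl (G.α (r x)))).σ = A * S * B := by
    show dσ (dσ G.σ x (G.α x)) (Sum.inl (G.α (r x))) (Sum.inl (G.α (G.α (r x)))) = _
    rw [G.invol]
    unfold dσ
    have h1 : Perm.sumCongr (Equiv.swap (Sum.inl (G.α x)) (Sum.inr false) *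
        Perm.sumCongr G.σ (1 : Perm Bool) * Equiv.swap (Sum.inl x) (Sum.inr true))
        (1 : Perm Bool) =
        Equiv.swap (Sum.inl (Sum.inl (G.α x))) (Sum.inl (Sum.inr false)) * S *
          Equiv.swap (Sum.inl (Sum.inl x)) (Sum.inl (Sum.inr true)) := by
      rw [← Perm.sumCongr_swap_one, ← Perm.sumCongr_swap_one, hS, Perm.sumCongr_mul,
        Perm.sumCongr_mul, one_mul, one_mul]
    rw [h1, hA, hB]
    simp only [mul_assoc]
  have h := axial_abs (S := S) (A := A) (B := B) (r := swap2 r)
    (swap_mul_invol (by simpa using fun h => hx h.symm) (by simp) (by simp) (by simp))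
    (swap_mul_invol (by simpa using hx2) (by simp) (by simp) (by simp)) (by
      intro d
      have h1 : swap2 r * B = A * swap2 r := by
        have g1 : swap2 r * Equiv.swap (Sum.inl (Sum.inl x)) (Sum.inl (Sum.inr true)) =
            Equiv.swap (Sum.inl (Sum.inl (r x))) (Sum.inr false) * swap2 r := by
          rw [Equiv.mul_swap_eq_swap_mul]
          rfl
        have g2 : swap2 r * Equiv.swap (Sum.inl (Sum.inl (G.α (r x)))) (Sum.inr true) =
            Equiv.swap (Sum.inl (Sum.inl (G.α x))) (Sum.inl (Sum.inr false)) * swap2 r := by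
          rw [Equiv.mul_swap_eq_swap_mul, swap2_inl, swap2_inr, hr.reversal, hr.invol]
          rfl
        rw [hB, ← mul_assoc, g1, mul_assoc, g2, hA, mul_assoc]
      rw [← Perm.mul_apply, h1, Perm.mul_apply]) h0 (by
      have hSi : S⁻¹ = Perm.sumCongr (Perm.sumCongr G.σ⁻¹ 1) 1 := by
        rw [hS, Perm.sumCongr_inv, Perm.sumCongr_inv, inv_one]
      rw [hSi]
      rintro ((d | d) | d)
      · show Sum.inl (Sum.inl (r (G.σ d))) = Sum.inl (Sum.inl (G.σ⁻¹ (r d)))
        rw [hr.rotation]
      · rfl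
      · rfl)
  refine ⟨h0, ?_, ?_, ?_⟩
  · rw [hσ]
    exact h.1
  · rintro ((d | d) | d)
    · show Sum.inl (Sum.inl (r (G.α d))) = Sum.inl (Sum.inl (G.α (r d)))
      rw [hr.reversal]
    · rfl
    · rfl
  · rw [hσ]
    refine h.2.trans ?_
    have h1 : {d | swap2 r d = S d} = (fun d => Sum.inl (Sum.inl d)) '' {d | r d = G.σ d} := by
      ext d
      rcases d with (d | d) | d
      · simp [swap2_inl, hS]
      · simp [swap2_mid, hS]
      · simp [swap2_inr, hS]
    rw [h1, Set.ncard_image_of_injective _ (fun a b h => by simpa using h)]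
    exact hr.corners

end Pool.Agent.Helper75.Lamm
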