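import Pool.Agent.Helper75.Lamm.TaitOf

/-!
# Potentials on the north and south faces of an algebraic tangle
-/

namespace Pool.Agent.Helper75.Lamm

open Pool.Agent.Helper65.LK

variable {V W : Type}

/-- The differences of potentials of the series-parallel network of an expression: `δ` is the
difference between the northern and the southern terminal. -/
def DD : (E : Ex) → (E.Lv → ℤ) → ℤ → Prop
  | Ex.leaf, u, δ => u () = δ
  | Ex.h A B, u, δ => DD A (fun x => u (Sum.inl x)) δ ∧ DD B (fun x => u (Sum.inr x)) δ
  | Ex.v A B, u, δ => ∃ δ₁ δ₂, δ₁ + δ₂ = δ ∧ DD A (fun x => u (Sum.inl x)) δ₁ ∧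
      DD B (fun x => u (Sum.inr x)) δ₂

/-- potentials of the inner odd faces -/
def PotI (T : Tangle V) (p : Dart V → ℤ) : Prop :=
  ∀ x y, par x.2 = true → T.link x = Sum.inl y → p (sg y) = p x

theorem hl_inl {A : Tangle V} (B : Tangle W) {x y : Dart V} (h : A.link x = Sum.inl y) :
    (hsum A B).link (dl x) = Sum.inl (dl y) := by
  simp only [hsum, h]

theorem hl_inr {A : Tangle V} (B : Tangle W) {x : Dart V} {i : ZMod 4}
    (h : A.link x = Sum.inr i) : (hsum A B).link (dl x) =
      if i = 1 ∨ i = 2 then Sum.inr i else Sum.inl (dr (B.port (1 - i))) := by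
  simp only [hsum, h]

theorem hr_inl (A : Tangle V) {B : Tangle W} {x y : Dart W} (h : B.link x = Sum.inl y) :
    (hsum A B).link (dr x) = Sum.inl (dr y) := by
  simp only [hsum, h]

theorem hr_inr (A : Tangle V) {B : Tangle W} {x : Dart W} {i : ZMod 4}
    (h : B.link x = Sum.inr i) : (hsum A B).link (dr x) =
      if i = 1 ∨ i = 2 then Sum.inl (dl (A.port (1 - i))) else Sum.inr i := by
  simp only [hsum, h]

theorem vl_inl {A : Tangle V} (B : Tangle W) {x y : Dart V} (h : A.link x = Sum.inl y) :
    (vsum A B).link (dl x) = Sum.inl (dl y) := by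
  simp only [vsum, h]

theorem vl_inr {A : Tangle V} (B : Tangle W) {x : Dart V} {i : ZMod 4}
    (h : A.link x = Sum.inr i) : (vsum A B).link (dl x) =
      if i = 0 ∨ i = 1 then Sum.inr i else Sum.inl (dr (B.port (3 - i))) := by
  simp only [vsum, h]

theorem vr_inl (A : Tangle V) {B : Tangle W} {x y : Dart W} (h : B.link x = Sum.inl y) :
    (vsum A B).link (dr x) = Sum.inl (dr y) := by
  simp only [vsum, h]

theorem vr_inr (A : Tangle V) {B : Tangle W} {x : Dart W} {i : ZMod 4}
    (h : B.link x = Sum.inr i) : (vsum A B).link (dr x) =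
      if i = 0 ∨ i = 1 then Sum.inl (dl (A.port (3 - i))) else Sum.inr i := by
  simp only [vsum, h]

theorem gl_inl {A : Tangle V} (B : Tangle W) {x y : Dart V} (h : A.link x = Sum.inl y) :
    (glue A B).α (dl x) = dl y := by
  show glueα A B (dl x) = dl y
  simp only [glueα, h]

theorem gl_inr {A : Tangle V} (B : Tangle W) {x : Dart V} {i : ZMod 4}
    (h : A.link x = Sum.inr i) : (glue A B).α (dl x) = dr (B.port (1 - i)) := by
  show glueα A B (dl x) = dr (B.port (1 - i))
  simp only [glueα, h]

theorem gr_inl (A : Tangle V) {B : Tangle W} {x y : Dart W} (h : B.link x = Sum.inl y) :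
    (glue A B).α (dr x) = dr y := by
  show glueα A B (dr x) = dr y
  simp only [glueα, h]

theorem gr_inr (A : Tangle V) {B : Tangle W} {x : Dart W} {i : ZMod 4}
    (h : B.link x = Sum.inr i) : (glue A B).α (dr x) = dl (A.port (1 - i)) := by
  show glueα A B (dr x) = dl (A.port (1 - i))
  simp only [glueα, h]

/-- the parity of the ports -/
theorem par_port (E : Ex) : ∀ i, par (E.tg.port i).2 = par i := by
  induction E with
  | leaf => intro i; rfl
  | h A B ihA ihB =>
    intro i
    show par ((hsum A.tg B.tg).port i).2 = par i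
    unfold hsum
    simp only
    split_ifs
    · exact ihA i
    · exact ihB i
  | v A B ihA ihB =>
    intro i
    show par ((vsum A.tg B.tg).port i).2 = par i
    unfold vsum
    simp only
    split_ifs
    · exact ihA i
    · exact ihB i

theorem PotI.hl {A : Tangle V} {B : Tangle W} {p : Dart (V ⊕ W) → ℤ} (h : PotI (hsum A B) p) :
    PotI A (fun x => p (dl x)) := by
  intro x y hx hxy
  exact h (dl x) (dl y) hx (hl_inl B hxy)

theorem PotI.hr {A : Tangle V} {B : Tangle W} {p : Dart (V ⊕ W) → ℤ} (h : PotI (hsum A B) p) :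
    PotI B (fun x => p (dr x)) := by
  intro x y hx hxy
  exact h (dr x) (dr y) hx (hr_inl A hxy)

theorem PotI.vl {A : Tangle V} {B : Tangle W} {p : Dart (V ⊕ W) → ℤ} (h : PotI (vsum A B) p) :
    PotI A (fun x => p (dl x)) := by
  intro x y hx hxy
  exact h (dl x) (dl y) hx (vl_inl B hxy)

theorem PotI.vr {A : Tangle V} {B : Tangle W} {p : Dart (V ⊕ W) → ℤ} (h : PotI (vsum A B) p) :
    PotI B (fun x => p (dr x)) := by
  intro x y hx hxy
  exact h (dr x) (dr y) hx (vr_inl A hxy)

/-- the junction in the south of a horizontal sum -/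
theorem PotI.h_south {A B : Ex} {p : Dart (A.Lv ⊕ B.Lv) → ℤ} (h : PotI (hsum A.tg B.tg) p) :
    p (sg (dr (B.tg.port 2))) = p (dl (A.tg.port 3)) := by
  exact h (dl (A.tg.port 3)) (dr (B.tg.port 2)) (par_port A 3)
    (hl_inr B.tg (A.tg.link_port 3))

/-- the junction in the north of a horizontal sum -/
theorem PotI.h_north {A B : Ex} {p : Dart (A.Lv ⊕ B.Lv) → ℤ} (h : PotI (hsum A.tg B.tg) p) :
    p (sg (dl (A.tg.port 0))) = p (dr (B.tg.port 1)) := by
  exact h (dr (B.tg.port 1)) (dl (A.tg.port 0)) (par_port B 1)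
    (hr_inr A.tg (B.tg.link_port 1))

/-- the first junction in a vertical sum -/
theorem PotI.v_mid {A B : Ex} {p : Dart (A.Lv ⊕ B.Lv) → ℤ} (h : PotI (vsum A.tg B.tg) p) :
    p (sg (dr (B.tg.port 0))) = p (dl (A.tg.port 3)) := by
  exact h (dl (A.tg.port 3)) (dr (B.tg.port 0)) (par_port A 3)
    (vl_inr B.tg (A.tg.link_port 3))

/-- following the outer faces -/
theorem walk (E : Ex) : ∀ p : Dart E.Lv → ℤ, PotI E.tg p →
    p (sg (E.tg.port 0)) = p (E.tg.port 1) ∧ p (sg (E.tg.port 2)) = p (E.tg.port 3) := by
  induction E with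
  | leaf => intro p _; exact ⟨rfl, rfl⟩
  | h A B ihA ihB =>
    intro p hp
    have hp' : PotI (hsum A.tg B.tg) p := hp
    have h1 := ihA _ hp'.hl
    have h2 := ihB _ hp'.hr
    have h3 := hp'.h_south
    have h4 := hp'.h_north
    refine ⟨?_, ?_⟩
    · show p (sg (dr (B.tg.port 0))) = p (dl (A.tg.port 1))
      rw [← h1.1]
      exact h2.1.trans h4.symm
    · show p (sg (dl (A.tg.port 2))) = p (dr (B.tg.port 3))
      rw [← h2.2]
      exact h1.2.trans h3.symm
  | v A B ihA ihB =>
    intro p hp
    have hp' : PotI (vsum A.tg B.tg) p := hp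
    exact ⟨(ihA _ hp'.vl).1, (ihB _ hp'.vr).2⟩

/-- the potential of a sum -/
def sumPot (pA : Dart V → ℤ) (pB : Dart W → ℤ) (x : Dart (V ⊕ W)) : ℤ :=
  match x.1 with
  | Sum.inl v => pA (v, x.2)
  | Sum.inr w => pB (w, x.2)

theorem odd_cases : ∀ i : ZMod 4, par i = true → i = 1 ∨ i = 3 := by decide

theorem potI_hsum {A B : Ex} {pA : Dart A.Lv → ℤ} {pB : Dart B.Lv → ℤ} (hA : PotI A.tg pA)
    (hB : PotI B.tg pB) (h1 : pA (A.tg.port 1) = pB (B.tg.port 1))
    (h3 : pA (A.tg.port 3) = pB (B.tg.port 3)) : PotI (hsum A.tg B.tg) (sumPot pA pB) := by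
  rintro ⟨v | w, j⟩ y hx hxy
  · cases hl : A.tg.link (v, j) with
    | inl z =>
      have h0 := (hl_inl B.tg hl).symm.trans hxy
      simp only [Sum.inl.injEq] at h0
      subst h0
      exact hA (v, j) z hx hl
    | inr i =>
      have h0 := (hl_inr B.tg hl).symm.trans hxy
      have hp := A.tg.port_link _ _ hl
      have hi : par i = true := by
        rw [← par_port A i, hp]
        exact hx
      rcases odd_cases i hi with rfl | rfl
      · simp at h0
      · rw [if_neg (by decide)] at h0
        simp only [Sum.inl.injEq] at h0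
        subst h0
        show pB (sg (B.tg.port 2)) = pA (v, j)
        rw [(walk B pB hB).2, ← hp]
        exact h3.symm
  · cases hl : B.tg.link (w, j) with
    | inl z =>
      have h0 := (hr_inl A.tg hl).symm.trans hxy
      simp only [Sum.inl.injEq] at h0
      subst h0
      exact hB (w, j) z hx hl
    | inr i =>
      have h0 := (hr_inr A.tg hl).symm.trans hxy
      have hp := B.tg.port_link _ _ hl
      have hi : par i = true := by
        rw [← par_port B i, hp]
        exact hx
      rcases odd_cases i hi with rfl | rfl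
      · rw [if_pos (Or.inl rfl)] at h0
        simp only [Sum.inl.injEq] at h0
        subst h0
        show pA (sg (A.tg.port 0)) = pB (w, j)
        rw [(walk A pA hA).1, ← hp]
        exact h1
      · rw [if_neg (by decide)] at h0
        simp at h0

theorem potI_vsum {A B : Ex} {pA : Dart A.Lv → ℤ} {pB : Dart B.Lv → ℤ} (hA : PotI A.tg pA)
    (hB : PotI B.tg pB) (h1 : pA (A.tg.port 3) = pB (B.tg.port 1)) :
    PotI (vsum A.tg B.tg) (sumPot pA pB) := by
  rintro ⟨v | w, j⟩ y hx hxy
  · cases hl : A.tg.link (v, j) with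
    | inl z =>
      have h0 := (vl_inl B.tg hl).symm.trans hxy
      simp only [Sum.inl.injEq] at h0
      subst h0
      exact hA (v, j) z hx hl
    | inr i =>
      have h0 := (vl_inr B.tg hl).symm.trans hxy
      have hp := A.tg.port_link _ _ hl
      have hi : par i = true := by
        rw [← par_port A i, hp]
        exact hx
      rcases odd_cases i hi with rfl | rfl
      · simp at h0
      · rw [if_neg (by decide)] at h0
        simp only [Sum.inl.injEq] at h0
        subst h0
        show pB (sg (B.tg.port 0)) = pA (v, j)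
        rw [(walk B pB hB).1, ← hp]
        exact h1.symm
  · cases hl : B.tg.link (w, j) with
    | inl z =>
      have h0 := (vr_inl A.tg hl).symm.trans hxy
      simp only [Sum.inl.injEq] at h0
      subst h0
      exact hB (w, j) z hx hl
    | inr i =>
      have h0 := (vr_inr A.tg hl).symm.trans hxy
      have hp := B.tg.port_link _ _ hl
      have hi : par i = true := by
        rw [← par_port B i, hp]
        exact hx
      rcases odd_cases i hi with rfl | rfl
      · rw [if_pos (Or.inr rfl)] at h0
        simp only [Sum.inl.injEq] at h0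
        subst h0
        show pA (sg (A.tg.port 2)) = pB (w, j)
        rw [(walk A pA hA).2, ← hp]
        exact h1
      · rw [if_neg (by decide)] at h0
        simp at h0

/-- the potential differences of an algebraic tangle -/
theorem pot_iff (E : Ex) : ∀ (u : E.Lv → ℤ) (n s : ℤ),
    (∃ p : Dart E.Lv → ℤ, PotI E.tg p ∧ (∀ v, u v = p (v, 1) - p (v, 3)) ∧
      p (E.tg.port 1) = n ∧ p (E.tg.port 3) = s) ↔ DD E u (n - s) := by
  induction E with
  | leaf =>
    intro u n s
    constructor
    · rintro ⟨p, -, h1, h2, h3⟩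
      have h4 : p ((), 1) = n := h2
      have h5 : p ((), 3) = s := h3
      show u () = n - s
      rw [h1, h4, h5]
    · intro h
      have h' : u () = n - s := h
      refine ⟨fun x => if x.2 = 1 then n else s, ?_, ?_, ?_, ?_⟩
      · intro x y _ hxy
        cases hxy
      · intro v
        cases v
        rw [h']
        show n - s = (if (1 : ZMod 4) = 1 then n else s) - (if (3 : ZMod 4) = 1 then n else s)
        rw [if_pos rfl, if_neg (by decide)]
      · show (if (1 : ZMod 4) = 1 then n else s) = n
        rw [if_pos rfl]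
      · show (if (3 : ZMod 4) = 1 then n else s) = s
        rw [if_neg (by decide)]
  | h A B ihA ihB =>
    intro u n s
    constructor
    · rintro ⟨p, hp, h1, h2, h3⟩
      have hp' : PotI (hsum A.tg B.tg) p := hp
      have h2' : p (dl (A.tg.port 1)) = n := h2
      have h3' : p (dr (B.tg.port 3)) = s := h3
      have wA := walk A _ hp'.hl
      have wB := walk B _ hp'.hr
      refine ⟨?_, ?_⟩
      · apply (ihA _ n s).1
        refine ⟨fun x => p (dl x), hp'.hl, fun v => h1 (Sum.inl v), h2', ?_⟩
        have := hp'.h_south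
        exact this.symm.trans (wB.2.trans h3')
      · apply (ihB _ n s).1
        refine ⟨fun x => p (dr x), hp'.hr, fun v => h1 (Sum.inr v), ?_, h3'⟩
        have := hp'.h_north
        exact this.symm.trans (wA.1.trans h2')
    · rintro ⟨hA, hB⟩
      obtain ⟨pA, hpA, a1, a2, a3⟩ := (ihA _ n s).2 hA
      obtain ⟨pB, hpB, b1, b2, b3⟩ := (ihB _ n s).2 hB
      refine ⟨sumPot pA pB, potI_hsum hpA hpB (by rw [a2, b2]) (by rw [a3, b3]), ?_, a2, b3⟩
      rintro (v | v)
      · exact a1 v
      · exact b1 v
  | v A B ihA ihB =>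
    intro u n s
    constructor
    · rintro ⟨p, hp, h1, h2, h3⟩
      have hp' : PotI (vsum A.tg B.tg) p := hp
      have h2' : p (dl (A.tg.port 1)) = n := h2
      have h3' : p (dr (B.tg.port 3)) = s := h3
      have wB := walk B _ hp'.vr
      have hm := hp'.v_mid
      refine ⟨n - p (dl (A.tg.port 3)), p (dl (A.tg.port 3)) - s, by ring, ?_, ?_⟩
      · apply (ihA _ n _).1
        exact ⟨fun x => p (dl x), hp'.vl, fun v => h1 (Sum.inl v), h2', rfl⟩
      · apply (ihB _ _ s).1
        refine ⟨fun x => p (dr x), hp'.vr, fun v => h1 (Sum.inr v), ?_, h3'⟩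
        exact wB.1.symm.trans hm
    · rintro ⟨δ₁, δ₂, hδ, hA, hB⟩
      obtain ⟨pA, hpA, a1, a2, a3⟩ := (ihA _ n (n - δ₁)).2 (by
        have : n - (n - δ₁) = δ₁ := by ring
        rw [this]
        exact hA)
      obtain ⟨pB, hpB, b1, b2, b3⟩ := (ihB _ (n - δ₁) s).2 (by
        have : n - δ₁ - s = δ₂ := by rw [sub_right_comm, ← hδ]; ring
        rw [this]
        exact hB)
      refine ⟨sumPot pA pB, potI_vsum hpA hpB (by rw [a3, b2]), ?_, a2, b3⟩
      rintro (v | v)
      · exact a1 v
      · exact b1 v

/-- the potential differences of a closed diagram -/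
theorem dia_pot (E C : Ex) (u : E.Lv ⊕ C.Lv → ℤ) :
    (∃ p : Dart (E.Lv ⊕ C.Lv) → ℤ, (∀ x, par x.2 = true → p (sg ((E.dia C).α x)) = p x) ∧
      ∀ v, u v = p (v, 1) - p (v, 3)) ↔
    ∃ δ, DD E (fun x => u (Sum.inl x)) δ ∧ DD C (fun x => u (Sum.inr x)) δ := by
  constructor
  · rintro ⟨p, hp, hu⟩
    have hE : PotI E.tg (fun x => p (dl x)) := by
      intro x y hx hxy
      have := hp (dl x) hx
      rw [show (E.dia C).α (dl x) = dl y from gl_inl C.tg hxy] at this
      exact this
    have hC : PotI C.tg (fun x => p (dr x)) := by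
      intro x y hx hxy
      have := hp (dr x) hx
      rw [show (E.dia C).α (dr x) = dr y from gr_inl E.tg hxy] at this
      exact this
    have wE := walk E _ hE
    have h1 : p (dr (C.tg.port 1)) = p (dl (E.tg.port 1)) := by
      have := hp (dr (C.tg.port 1)) (par_port C 1)
      rw [show (E.dia C).α (dr (C.tg.port 1)) = dl (E.tg.port (1 - 1)) from
        gr_inr E.tg (C.tg.link_port 1)] at this
      exact this.symm.trans wE.1
    have h3 : p (dr (C.tg.port 3)) = p (dl (E.tg.port 3)) := by
      have := hp (dr (C.tg.port 3)) (par_port C 3)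
      rw [show (E.dia C).α (dr (C.tg.port 3)) = dl (E.tg.port (1 - 3)) from
        gr_inr E.tg (C.tg.link_port 3)] at this
      exact this.symm.trans wE.2
    refine ⟨p (dl (E.tg.port 1)) - p (dl (E.tg.port 3)), ?_, ?_⟩
    · apply (pot_iff E _ _ _).1
      exact ⟨fun x => p (dl x), hE, fun v => hu (Sum.inl v), rfl, rfl⟩
    · apply (pot_iff C _ _ _).1
      exact ⟨fun x => p (dr x), hC, fun v => hu (Sum.inr v), h1, h3⟩
  · rintro ⟨δ, hE, hC⟩
    obtain ⟨pA, hpA, a1, a2, a3⟩ := (pot_iff E _ δ 0).2 (by rw [sub_zero]; exact hE)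
    obtain ⟨pB, hpB, b1, b2, b3⟩ := (pot_iff C _ δ 0).2 (by rw [sub_zero]; exact hC)
    refine ⟨sumPot pA pB, ?_, ?_⟩
    · rintro ⟨v | w, j⟩ hx
      · cases hl : E.tg.link (v, j) with
        | inl z =>
          rw [show (E.dia C).α (Sum.inl v, j) = dl z from gl_inl C.tg hl]
          exact hpA (v, j) z hx hl
        | inr i =>
          have hp := E.tg.port_link _ _ hl
          have hi : par i = true := by
            rw [← par_port E i, hp]
            exact hx
          rw [show (E.dia C).α (Sum.inl v, j) = dr (C.tg.port (1 - i)) from gl_inr C.tg hl]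
          show pB (sg (C.tg.port (1 - i))) = pA (v, j)
          rw [← hp]
          rcases odd_cases i hi with rfl | rfl
          · rw [a2, ← b2, ← (walk C pB hpB).1]
            rfl
          · rw [a3, ← b3, ← (walk C pB hpB).2]
            rfl
      · cases hl : C.tg.link (w, j) with
        | inl z =>
          rw [show (E.dia C).α (Sum.inr w, j) = dr z from gr_inl E.tg hl]
          exact hpB (w, j) z hx hl
        | inr i =>
          have hp := C.tg.port_link _ _ hl
          have hi : par i = true := by
            rw [← par_port C i, hp]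
            exact hx
          rw [show (E.dia C).α (Sum.inr w, j) = dl (E.tg.port (1 - i)) from gr_inr E.tg hl]
          show pA (sg (E.tg.port (1 - i))) = pB (w, j)
          rw [← hp]
          rcases odd_cases i hi with rfl | rfl
          · rw [b2, ← a2, ← (walk E pA hpA).1]
            rfl
          · rw [b3, ← a3, ← (walk E pA hpA).2]
            rfl
    · rintro (v | v)
      · exact a1 v
      · exact b1 v

end Pool.Agent.Helper75.Lamm
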