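import Pool.Agent.Helper75.Lamm.Homology

/-!
# The block sizes of a symmetric plane graph
-/

namespace Pool.Agent.Helper75.Lamm

open Finset

set_option linter.unusedSectionVars false

variable {D : Type} [Fintype D] {E : Type} [Fintype E] [DecidableEq E]
variable {G : PlaneGraph D} {f : D ≃ E × Bool} {β : E → ℕ} {n χ₀ : ℕ} {c : ℕ → E}

/-- the permutation of the edges induced by `r` -/
def edgeMap (f : D ≃ E × Bool) (r : Equiv.Perm D) (e : E) : E := (f (r (f.symm (e, true)))).1

/-- whether the orientation of the edge is preserved by `r` -/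
def edgeSgn (f : D ≃ E × Bool) (r : Equiv.Perm D) (e : E) : Bool := (f (r (f.symm (e, true)))).2

theorem Data.image_true (f : D ≃ E × Bool) (r : Equiv.Perm D) (e : E) :
    f (r (f.symm (e, true))) = (edgeMap f r e, edgeSgn f r e) := rfl

theorem Data.image_false (H : Data G f β n χ₀ c) {r : Equiv.Perm D}
    (hrev : ∀ d, r (G.α d) = G.α (r d)) (e : E) :
    f (r (f.symm (e, false))) = (edgeMap f r e, !(edgeSgn f r e)) := by
  rw [← H.alpha_true, hrev, H.rev, Data.image_true]

theorem Data.edge_invol (H : Data G f β n χ₀ c) {r : Equiv.Perm D} (hinv : ∀ d, r (r d) = d)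
    (hrev : ∀ d, r (G.α d) = G.α (r d)) (e : E) :
    edgeMap f r (edgeMap f r e) = e ∧ edgeSgn f r (edgeMap f r e) = edgeSgn f r e := by
  have h1 := Data.image_true f r e
  cases hs : edgeSgn f r e
  · rw [hs] at h1
    have h2 : r (f.symm (e, true)) = f.symm (edgeMap f r e, false) := by
      rw [← h1, Equiv.symm_apply_apply]
    have h3 : f (r (f.symm (edgeMap f r e, false))) = (e, true) := by
      rw [← h2, hinv, Equiv.apply_symm_apply]
    rw [H.image_false hrev] at h3
    have h4 := congrArg Prod.fst h3
    have h5 := congrArg Prod.snd h3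
    simp only [Bool.not_eq_true'] at h4 h5
    exact ⟨h4, h5⟩
  · rw [hs] at h1
    have h2 : r (f.symm (e, true)) = f.symm (edgeMap f r e, true) := by
      rw [← h1, Equiv.symm_apply_apply]
    have h3 : f (r (f.symm (edgeMap f r e, true))) = (e, true) := by
      rw [← h2, hinv, Equiv.apply_symm_apply]
    rw [Data.image_true] at h3
    exact ⟨congrArg Prod.fst h3, congrArg Prod.snd h3⟩

/-- a reflection maps vertices to vertices -/
theorem sameCycle_refl_map {r σ : Equiv.Perm D} (hrot : ∀ d, r (σ d) = σ⁻¹ (r d)) {d d' : D}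
    (h : σ.SameCycle d d') : σ.SameCycle (r d) (r d') := by
  obtain ⟨i, rfl⟩ := h
  have hrot' : ∀ d, r (σ⁻¹ d) = σ (r d) := by
    intro d
    have h1 := hrot (σ⁻¹ d)
    rw [Equiv.Perm.coe_inv, Equiv.apply_symm_apply] at h1
    rw [Equiv.Perm.coe_inv, h1, Equiv.apply_symm_apply]
  refine ⟨-i, ?_⟩
  induction i using Int.induction_on generalizing d with
  | zero => simp
  | succ i ih =>
    rw [zpow_add, zpow_one, Equiv.Perm.mul_apply, ← ih, hrot, neg_add, zpow_add, zpow_neg_one,
      Equiv.Perm.mul_apply]
  | pred i ih =>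
    rw [sub_eq_add_neg, zpow_add, zpow_neg_one, Equiv.Perm.mul_apply, ← ih, hrot', neg_add,
      neg_neg, neg_neg, zpow_add, zpow_one, Equiv.Perm.mul_apply]

theorem flow_comp (G : PlaneGraph D) {r : Equiv.Perm D} (hinv : ∀ d, r (r d) = d)
    (hrot : ∀ d, r (G.σ d) = G.σ⁻¹ (r d)) (hrev : ∀ d, r (G.α d) = G.α (r d)) {z : D → ℤ}
    (hz : G.IsFlow z) : G.IsFlow (fun d => z (r d)) := by
  refine ⟨fun d => ?_, fun d => ?_⟩
  · beta_reduce
    rw [hrev, hz.1]
  · rw [← hz.2 (r d)]
    apply Finset.sum_equiv r
    · intro d'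
      simp only [mem_filter, mem_univ, true_and]
      constructor
      · exact sameCycle_refl_map hrot
      · intro h
        have := sameCycle_refl_map hrot h
        rw [hinv, hinv] at this
        exact this
    · intro d' _
      rfl

/-- the symmetry of the flow space in block form -/
theorem Data.sym (H : Data G f β n χ₀ c) {r : Equiv.Perm D} (hinv : ∀ d, r (r d) = d)
    (hrot : ∀ d, r (G.σ d) = G.σ⁻¹ (r d)) (hrev : ∀ d, r (G.α d) = G.α (r d)) :
    Sym β n (edgeMap f r) (fun e => if edgeSgn f r e then 1 else -1) := by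
  apply sym_of_pres H.lt H.rep (fun e => (H.edge_invol hinv hrev e).1) ?_ ?_ χ₀ H.par ?_
  · intro e
    cases edgeSgn f r e <;> simp
  · intro e
    beta_reduce
    rw [(H.edge_invol hinv hrev e).2]
  · intro z hz
    rw [H.flow] at hz ⊢
    have h1 := flow_comp G hinv hrot hrev hz
    have h2 : (fun d => if (f (r d)).2 then z (f (r d)).1 else - z (f (r d)).1) =
        fun d => if (f d).2 then (if edgeSgn f r (f d).1 then 1 else -1) * z (edgeMap f r (f d).1)
          else -((if edgeSgn f r (f d).1 then 1 else -1) * z (edgeMap f r (f d).1)) := by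
      funext d
      obtain ⟨⟨e, b⟩, hb⟩ : ∃ x, f d = x := ⟨_, rfl⟩
      have hd : d = f.symm (e, b) := by rw [← hb, Equiv.symm_apply_apply]
      rw [hd]
      cases b
      · rw [H.image_false hrev, Equiv.apply_symm_apply]
        cases edgeSgn f r e <;> simp
      · rw [Data.image_true, Equiv.apply_symm_apply]
        cases edgeSgn f r e <;> simp
    rw [h2] at h1
    exact h1

/-- the block sizes of a plane graph with a reflection -/
theorem main_struct (H : Data G f β n χ₀ c) (hC : Canon β n c) (hn : 2 ≤ n) {r : Equiv.Perm D}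
    (hr : G.IsAxial r) :
    (n % 2 = 1 ∧ ∀ i, i < n → (blk β i).card = (blk β (n - 1 - i)).card) ∨
    ∃ χ, χ < 2 ∧ (∀ i, i % 2 = χ → 1 ≤ i → i + 1 < n → Even (blk β i).card) ∧
      ((χ = 0 ∧ Even (blk β 0).card) ∨ ((n - 1) % 2 = χ ∧ Even (blk β (n - 1)).card)) := by
  have hcor : ∃ d, r d = G.σ d := by
    have h1 : {d | r d = G.σ d}.Nonempty := by
      by_contra h2
      rw [Set.not_nonempty_iff_eq_empty] at h2
      have h3 := hr.corners
      rw [h2, Set.ncard_empty] at h3
      omega
    exact h1
  have S := H.sym hr.invol hr.rotation hr.reversal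
  rcases blocks_dichotomy hC S with hp | ⟨hodd, hrevb⟩
  · right
    have hpar := H.par
    have hinv := fun e => (H.edge_invol hr.invol hr.reversal e).1
    have hsgn : ∀ e, edgeSgn f r e = edgeSgn f r (c 0) := by
      intro e
      have := sign_const hC hn S hp e (c 0)
      cases h1 : edgeSgn f r e <;> cases h2 : edgeSgn f r (c 0) <;> simp [h1, h2] at this ⊢
    cases hs : edgeSgn f r (c 0)
    · -- orientation reversed
      have hflip : ∀ x, flip (edgeMap f r) x = f (r (f.symm x)) := by
        rintro ⟨e, b⟩
        cases b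
        · rw [H.image_false hr.reversal, hsgn, hs]
          rfl
        · rw [Data.image_true, hsgn, hs]
          rfl
      have P := H.pot_vertex hr.rotation hcor hflip
      refine ⟨1 - χ₀, by omega, ?_, ?_⟩
      · intro i hi hi1 hin
        exact P.mid_even (by omega) H.lt H.rep hinv hp hi hi1 hin
      · exact P.ends (by omega) H.lt hn H.rep hinv hp
    · have hflip : ∀ x, flip (edgeMap f r) x = f (G.α (r (f.symm x))) := by
        rintro ⟨e, b⟩
        rw [H.rev]
        cases b
        · rw [H.image_false hr.reversal, hsgn, hs]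
          rfl
        · rw [Data.image_true, hsgn, hs]
          rfl
      have P := H.pot_face hr.rotation hr.reversal hcor hflip
      refine ⟨χ₀, by omega, ?_, ?_⟩
      · intro i hi hi1 hin
        exact P.mid_even (by omega) H.lt H.rep hinv hp hi hi1 hin
      · exact P.ends (by omega) H.lt hn H.rep hinv hp
  · left
    refine ⟨hodd, fun i hi => ?_⟩
    apply Finset.card_bij (fun e _ => edgeMap f r e)
    · intro e he
      rw [mem_blk] at he ⊢
      have := hrevb e
      omega
    · intro a _ b _ hab
      rw [← S.invol a, hab, S.invol]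
    · intro b hb
      rw [mem_blk] at hb
      refine ⟨edgeMap f r b, ?_, S.invol b⟩
      rw [mem_blk]
      have := hrevb b
      omega

end Pool.Agent.Helper75.Lamm
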