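import Pool.Agent.Helper75.Lamm.Final

/-!
# Lamm's conjecture on equivariant crossing numbers of two-bridge knots, in terms of Tait graphs

A reduced alternating diagram is given by its checkerboard (Tait) graph, a connected plane graph
(rotation system `σ`, `α` satisfying Euler's formula).  The half-turn about an axis in the
projection plane acts on the plane as a reflection and exchanges over- and undercrossings, so it
maps an alternating diagram to itself if and only if the reflection maps the Tait graph to itself;
the points in which the axis meets the knot are the corners of the Tait graph whose two sides are
interchanged.

`HasAxialDiagram p q`: some plane graph which is 2-isomorphic to the Tait graph of a Conway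
diagram `C(a₁, ..., aₙ)`, `aᵢ > 0`, of `K(p,q)` or its mirror image has such a reflection with
exactly two points on the axis.

The theorem: this is the case if and only if `K(p,q)` is represented by an expansion of type (A)
or of type (B).
-/

namespace Pool.Agent.Helper75.Lamm.TaitGraphsResult

open Pool.Agent.Helper75.Lamm

theorem result (p q : ℕ) (hp : Odd p) :
    HasAxialDiagram p q ↔ ∃ b : List ℕ, (TypeA b ∨ TypeB b) ∧ Represents b p q :=
  main p q hp

end Pool.Agent.Helper75.Lamm.TaitGraphsResult
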