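import Pool.Agent.Helper65.LK.TIso
import Pool.Agent.Helper75.Lamm.Double

/-!
# The Tait graph of a connected alternating diagram

The darts of the Tait graph are the corners of the diagram with index of parity `b`; `sT` is the
rotation along the faces, `aT` joins opposite corners of a crossing.  A symmetry of the diagram
with respect to an axis in the plane of projection gives an axial symmetry of the Tait graph.
-/

namespace Pool.Agent.Helper75.Lamm

open Equiv Pool.Agent.Helper65.LK

variable {V : Type}

/-- the corners of parity `b` -/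
abbrev TD (V : Type) (b : Bool) : Type := {x : Dart V // par x.2 = b}

theorem par_add_one : ∀ i : ZMod 4, par (i + 1) = !par i := by decide

theorem par_sub_one : ∀ i : ZMod 4, par (i - 1) = !par i := by decide

theorem par_add_two : ∀ i : ZMod 4, par (i + 2) = par i := by decide

theorem par_alpha {S : Shadow V} (h : ∀ x, par (S.α x).2 ≠ par x.2) (x : Dart V) :
    par (S.α x).2 = !par x.2 := by
  have := h x
  revert this
  cases par (S.α x).2 <;> cases par x.2 <;> simp

/-- rotation of the darts of a crossing, backwards -/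
def gs (x : Dart V) : Dart V := (x.1, x.2 - 1)

theorem gs_sg (x : Dart V) : gs (sg x) = x := by
  simp [gs, sg]

theorem sg_gs (x : Dart V) : sg (gs x) = x := by
  simp [gs, sg]

theorem sg_four (x : Dart V) : sg (sg (sg (sg x))) = x := by
  have h : ∀ i : ZMod 4, i + 1 + 1 + 1 + 1 = i := by decide
  exact Prod.ext rfl (h x.2)

/-- rotation along the faces -/
def sT (S : Shadow V) (h : ∀ x, par (S.α x).2 ≠ par x.2) (b : Bool) : Perm (TD V b) where
  toFun x := ⟨sg (S.α x.1), by
    show par ((S.α x.1).2 + 1) = b
    rw [par_add_one, par_alpha h, Bool.not_not, x.2]⟩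
  invFun x := ⟨S.α (gs x.1), by
    rw [par_alpha h]
    show (!par (x.1.2 - 1)) = b
    rw [par_sub_one, Bool.not_not, x.2]⟩
  left_inv x := Subtype.ext (by simp only [gs_sg, S.invol])
  right_inv x := Subtype.ext (by simp only [S.invol, sg_gs])

/-- opposite corners -/
def aT (V : Type) (b : Bool) : Perm (TD V b) where
  toFun x := ⟨sg (sg x.1), by
    show par (x.1.2 + 1 + 1) = b
    rw [par_add_one, par_add_one, Bool.not_not, x.2]⟩
  invFun x := ⟨sg (sg x.1), by
    show par (x.1.2 + 1 + 1) = b
    rw [par_add_one, par_add_one, Bool.not_not, x.2]⟩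
  left_inv x := Subtype.ext (sg_four x.1)
  right_inv x := Subtype.ext (sg_four x.1)

theorem sT_val (S : Shadow V) (h : ∀ x, par (S.α x).2 ≠ par x.2) (b : Bool) (x : TD V b) :
    (sT S h b x : Dart V) = sg (S.α x.1) := rfl

theorem aT_val (b : Bool) (x : TD V b) : (aT V b x : Dart V) = sg (sg x.1) := rfl

theorem sT_inv_val (S : Shadow V) (h : ∀ x, par (S.α x).2 ≠ par x.2) (b : Bool) (x : TD V b) :
    ((sT S h b)⁻¹ x : Dart V) = S.α (gs x.1) := rfl

section
variable [Fintype V]

/-- the cycles of the face permutation are distributed on the two classes of corners -/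
theorem cycles_split (S : Shadow V) (h : ∀ x, par (S.α x).2 ≠ par x.2) (b : Bool) :
    Lamm.cycles (faceP S) = Lamm.cycles (sT S h b) + Lamm.cycles (sT S h (!b)) := by
  classical
  let e : TD V b ⊕ TD V (!b) ≃ Dart V :=
    { toFun := fun x => Sum.elim (fun y => y.1) (fun y => y.1) x
      invFun := fun x => if hx : par x.2 = b then Sum.inl ⟨x, hx⟩ else
        Sum.inr ⟨x, by
          revert hx
          cases par x.2 <;> cases b <;> simp⟩
      left_inv := fun x => by
        rcases x with x | x
        · have := x.2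
          simp only [Sum.elim_inl]
          rw [dif_pos this]
        · have := x.2
          simp only [Sum.elim_inr]
          rw [dif_neg (by rw [this]; cases b <;> simp)]
      right_inv := fun x => by
        by_cases hx : par x.2 = b
        · simp only [dif_pos hx, Sum.elim_inl]
        · simp only [dif_neg hx, Sum.elim_inr] }
  rw [← cycles_sum]
  have h1 := cycles_eq (π := faceP S)
    (fun d => cls (Perm.sumCongr (sT S h b) (sT S h (!b))) (e.symm d)) (fun q => by
      obtain ⟨d, rfl⟩ := cls_surj _ q
      exact ⟨e d, by simp⟩) (fun d => by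
      have h2 : e.symm (faceP S d) = Perm.sumCongr (sT S h b) (sT S h (!b)) (e.symm d) := by
        rw [Equiv.symm_apply_eq]
        obtain ⟨y, rfl⟩ := e.surjective d
        rw [Equiv.symm_apply_apply]
        rcases y with y | y
        · rfl
        · rfl
      simp only [h2]
      exact cls_apply _ _) (fun d d' hd => by
      obtain ⟨y, rfl⟩ := e.surjective d
      obtain ⟨y', rfl⟩ := e.surjective d'
      rw [Equiv.symm_apply_apply, Equiv.symm_apply_apply] at hd
      have h3 := const_sameCycle (k := fun y => cls (faceP S) (e y)) (fun y => by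
        have h2 : e (Perm.sumCongr (sT S h b) (sT S h (!b)) y) = faceP S (e y) := by
          rcases y with y | y
          · rfl
          · rfl
        simp only [h2]
        exact cls_apply _ _) (cls_eq.1 hd)
      exact cls_eq.1 h3)
  rw [h1]
  rfl

/-- the faces of the Tait graph are the faces at the other corners -/
theorem cycles_sa (S : Shadow V) (h : ∀ x, par (S.α x).2 ≠ par x.2) (b : Bool) :
    Lamm.cycles (sT S h b * aT V b) = Lamm.cycles (sT S h (!b)) := by
  classical
  let φ : TD V b ≃ TD V (!b) :=
    { toFun := fun x => ⟨gs x.1, by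
        show par (x.1.2 - 1) = !b
        rw [par_sub_one, x.2]⟩
      invFun := fun x => ⟨sg x.1, by
        show par (x.1.2 + 1) = b
        rw [par_add_one, x.2, Bool.not_not]⟩
      left_inv := fun x => Subtype.ext (sg_gs x.1)
      right_inv := fun x => Subtype.ext (gs_sg x.1) }
  have key : ∀ x : TD V b, sT S h (!b) (φ ((sT S h b * aT V b) x)) = φ x := by
    intro x
    apply Subtype.ext
    show sg (S.α (gs (sg (S.α (sg (sg x.1)))))) = gs x.1
    rw [gs_sg, S.invol]
    have h4 : ∀ i : ZMod 4, i + 1 + 1 + 1 = i - 1 := by decide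
    exact Prod.ext rfl (h4 x.1.2)
  have h1 := cycles_eq (π := sT S h b * aT V b) (fun d => cls (sT S h (!b)) (φ d)) (fun q => by
      obtain ⟨d, rfl⟩ := cls_surj _ q
      exact ⟨φ.symm d, by simp⟩) (fun d => by
      have := cls_apply (sT S h (!b)) (φ ((sT S h b * aT V b) d))
      rw [key] at this
      exact this.symm) (fun d d' hd => by
      have h3 := const_sameCycle (k := fun y => cls (sT S h b * aT V b) (φ.symm y)) (fun y => by
        obtain ⟨x, rfl⟩ := φ.surjective y
        obtain ⟨x', rfl⟩ := (sT S h b * aT V b).surjective x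
        rw [key]
        simp only [Equiv.symm_apply_apply]
        exact (cls_apply _ _).symm) (cls_eq.1 hd)
      simp only [Equiv.symm_apply_apply] at h3
      exact cls_eq.1 h3)
  rw [h1]
  rfl

/-- the edges of the Tait graph are the crossings -/
theorem cycles_aT (b : Bool) : Lamm.cycles (aT V b) = Fintype.card V := by
  classical
  rw [cycles_eq (π := aT V b) (fun x => x.1.1) (fun v => by
      cases b
      · exact ⟨⟨(v, 0), rfl⟩, rfl⟩
      · exact ⟨⟨(v, 1), rfl⟩, rfl⟩) (fun _ => rfl) (fun d d' hd => by
      obtain ⟨⟨v, i⟩, hi⟩ := d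
      obtain ⟨⟨v', i'⟩, hi'⟩ := d'
      simp only at hd hi hi'
      subst hd
      have key : ∀ i i' : ZMod 4, par i = par i' → i = i' ∨ i + 1 + 1 = i' := by decide
      rcases key i i' (by rw [hi, hi']) with h | h
      · subst h
        exact Equiv.Perm.SameCycle.refl _ _
      · refine ⟨1, ?_⟩
        rw [zpow_one]
        apply Subtype.ext
        exact Prod.ext rfl h)]
  rw [Nat.card_eq_fintype_card]

/-- all darts of a connected diagram are connected -/
theorem conn_of_apd {S : Shadow V} (hS : APD S) (X : Dart V → Prop)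
    (h1 : ∀ x, X (S.α x) = X x) (h2 : ∀ x, X (sg x) = X x) (x y : Dart V) : X x = X y := by
  have hc := hS.conn
  unfold pieces classes at hc
  have h3 := (Nat.card_eq_one_iff_unique.1 hc).1
  have h4 := h3.elim
    (Quotient.mk (Relation.EqvGen.setoid fun x y => y = S.α x ∨ y = rot (ov V) x) x)
    (Quotient.mk _ y)
  have h5 : Relation.EqvGen (fun x y => y = S.α x ∨ y = rot (ov V) x) x y := Quotient.exact h4
  clear h3 h4 hc
  induction h5 with
  | rel x y h =>
    rcases h with rfl | rfl
    · exact (h1 x).symm
    · exact (h2 x).symm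
  | refl x => rfl
  | symm x y _ ih => exact ih.symm
  | trans x y z _ _ ih1 ih2 => exact ih1.trans ih2

/-- the Tait graph -/
def taitG (S : Shadow V) (hS : APD S) (b : Bool) : PlaneGraph (TD V b) where
  σ := sT S hS.alt b
  α := aT V b
  invol d := Subtype.ext (sg_four d.1)
  noFix d h := by
    have h1 := congrArg (fun x : TD V b => x.1.2) h
    have h2 : ∀ i : ZMod 4, i + 1 + 1 ≠ i := by decide
    exact h2 _ h1
  connected := by
    apply connected_of_inv
    intro X h1 h2 d d'
    -- extend `X` to all darts
    let Y : Dart V → Prop := fun x => ∃ y : TD V b, (y.1 = x ∨ y.1 = sg x) ∧ X y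
    have hY : ∀ y : TD V b, Y y.1 = X y := by
      intro y
      apply propext
      constructor
      · rintro ⟨z, hz, hX⟩
        rcases hz with hz | hz
        · rwa [← Subtype.ext hz]
        · exfalso
          have h3 := z.2
          rw [hz] at h3
          have h4 : par (y.1.2 + 1) = b := h3
          rw [par_add_one, y.2] at h4
          cases b <;> simp at h4
      · intro hX
        exact ⟨y, Or.inl rfl, hX⟩
    have hY' : ∀ y : TD V b, Y (gs y.1) = X y := by
      intro y
      apply propext
      constructor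
      · rintro ⟨z, hz, hX⟩
        rcases hz with hz | hz
        · exfalso
          have h3 := z.2
          rw [hz] at h3
          have h4 : par (y.1.2 - 1) = b := h3
          rw [par_sub_one, y.2] at h4
          cases b <;> simp at h4
        · rw [sg_gs] at hz
          rwa [← Subtype.ext hz]
      · intro hX
        exact ⟨y, Or.inr (sg_gs _).symm, hX⟩
    have hcase : ∀ x : Dart V, (∃ y : TD V b, y.1 = x) ∨ ∃ y : TD V b, gs y.1 = x := by
      intro x
      by_cases hx : par x.2 = b
      · exact Or.inl ⟨⟨x, hx⟩, rfl⟩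
      · refine Or.inr ⟨⟨sg x, ?_⟩, gs_sg x⟩
        show par (x.2 + 1) = b
        rw [par_add_one]
        revert hx
        cases par x.2 <;> cases b <;> simp
    have hα : ∀ x, Y (S.α x) = Y x := by
      intro x
      rcases hcase x with ⟨y, rfl⟩ | ⟨y, rfl⟩
      · rw [hY, ← h1 y, ← hY' (sT S hS.alt b y)]
        congr 1
        rw [sT_val, gs_sg]
      · have h5 : sT S hS.alt b ((sT S hS.alt b)⁻¹ y) = y :=
          Subtype.ext (by rw [sT_val, sT_inv_val, S.invol, sg_gs])
        have h6 := hY ((sT S hS.alt b)⁻¹ y)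
        rw [sT_inv_val] at h6
        have h7 := h1 ((sT S hS.alt b)⁻¹ y)
        rw [h5] at h7
        rw [h6, hY', h7]
    have hs : ∀ x, Y (sg x) = Y x := by
      intro x
      rcases hcase x with ⟨y, rfl⟩ | ⟨y, rfl⟩
      · rw [hY, ← h2 y, ← hY' (aT V b y), aT_val, gs_sg]
      · rw [hY', sg_gs, hY]
    rw [← hY d, ← hY d']
    exact conn_of_apd hS Y hα hs _ _
  euler := by
    classical
    have h1 := hS.planar
    unfold PlanarP Planar at h1
    rw [hS.conn] at h1
    have h2 : nX (ov V) = Fintype.card V := by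
      unfold nX
      have h3 : (Finset.univ.filter fun v => ((ov V) v).isX = true) = Finset.univ :=
        Finset.filter_true_of_mem (fun v _ => rfl)
      rw [h3, Finset.card_univ]
    have h3 : Lamm.cycles (faceP S) = Fintype.card V + 2 * 1 := by
      rw [← h2]
      exact h1
    rw [cycles_sa, cycles_aT, ← cycles_split, h3]

/-- the symmetry of the corners -/
def rT (ρ : Perm (Dart V)) (h1 : ∀ x, ρ (ρ x) = x) (h2 : ∀ x, sg (ρ (sg x)) = ρ x)
    (h4 : ∀ x, par (ρ x).2 = !par x.2) (b : Bool) : Perm (TD V b) where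
  toFun x := ⟨sg (ρ x.1), by
    show par ((ρ x.1).2 + 1) = b
    rw [par_add_one, h4, Bool.not_not, x.2]⟩
  invFun x := ⟨sg (ρ x.1), by
    show par ((ρ x.1).2 + 1) = b
    rw [par_add_one, h4, Bool.not_not, x.2]⟩
  left_inv x := Subtype.ext (by
    show sg (ρ (sg (ρ x.1))) = x.1
    rw [h2, h1])
  right_inv x := Subtype.ext (by
    show sg (ρ (sg (ρ x.1))) = x.1
    rw [h2, h1])

/-- a symmetry of the diagram gives an axial symmetry of the Tait graph -/
theorem axial_of_sym (S : Shadow V) (hS : APD S) (b : Bool) (ρ : Perm (Dart V))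
    (h1 : ∀ x, ρ (ρ x) = x) (h2 : ∀ x, sg (ρ (sg x)) = ρ x)
    (h3 : ∀ x, ρ (S.α x) = S.α (ρ x)) (h4 : ∀ x, par (ρ x).2 = !par x.2)
    (h5 : {x | ρ x = S.α x}.ncard = 4) : (taitG S hS b).IsAxial (rT ρ h1 h2 h4 b) := by
  classical
  have hg : ∀ x, ρ (sg x) = gs (ρ x) := fun x => by rw [← h2 x, gs_sg]
  have hg' : ∀ x, ρ (gs x) = sg (ρ x) := fun x => by
    have := h2 (gs x)
    rw [sg_gs] at this
    exact this.symm
  refine ⟨?_, ?_, ?_, ?_⟩
  · intro d
    apply Subtype.ext
    show sg (ρ (sg (ρ d.1))) = d.1
    rw [h2, h1]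
  · intro d
    apply Subtype.ext
    show sg (ρ (sg (S.α d.1))) = S.α (gs (sg (ρ d.1)))
    rw [h2, gs_sg, h3]
  · intro d
    apply Subtype.ext
    show sg (ρ (sg (sg d.1))) = sg (sg (sg (ρ d.1)))
    rw [h2, hg]
    have h6 : ∀ i : ZMod 4, i - 1 = i + 1 + 1 + 1 := by decide
    exact Prod.ext rfl (h6 _)
  · have hA : ∀ c : Bool, {x : Dart V | ρ x = S.α x ∧ par x.2 = c}.ncard =
        {x : Dart V | ρ x = S.α x ∧ par x.2 = !c}.ncard := by
      intro c
      apply Set.ncard_congr (fun x _ => S.α x)
      · rintro x ⟨hx, hx'⟩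
        refine ⟨?_, ?_⟩
        · rw [h3, hx, S.invol]
        · rw [par_alpha hS.alt, hx']
      · intro x y _ _ hxy
        exact S.α.injective hxy
      · rintro x ⟨hx, hx'⟩
        refine ⟨S.α x, ⟨?_, ?_⟩, S.invol x⟩
        · rw [h3, hx, S.invol]
        · rw [par_alpha hS.alt, hx', Bool.not_not]
    have hU : {x : Dart V | ρ x = S.α x} = {x : Dart V | ρ x = S.α x ∧ par x.2 = b} ∪
        {x : Dart V | ρ x = S.α x ∧ par x.2 = !b} := by
      ext x
      simp only [Set.mem_setOf_eq, Set.mem_union]
      cases par x.2 <;> cases b <;> simp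
    have hD : Disjoint {x : Dart V | ρ x = S.α x ∧ par x.2 = b}
        {x : Dart V | ρ x = S.α x ∧ par x.2 = !b} := by
      rw [Set.disjoint_left]
      rintro x ⟨-, h6⟩ ⟨-, h7⟩
      rw [h6] at h7
      cases b <;> simp at h7
    have h8 := Set.ncard_union_eq hD (Set.toFinite _) (Set.toFinite _)
    rw [← hU, h5, ← hA b] at h8
    have h9 : {d : TD V b | rT ρ h1 h2 h4 b d = sT S hS.alt b d}.ncard =
        {x : Dart V | ρ x = S.α x ∧ par x.2 = b}.ncard := by
      apply Set.ncard_congr (fun x _ => x.1)
      · intro x hx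
        have h10 := congrArg Subtype.val hx
        have h11 : sg (ρ x.1) = sg (S.α x.1) := h10
        refine ⟨?_, x.2⟩
        rw [← gs_sg (ρ x.1), h11, gs_sg]
      · intro x y _ _ hxy
        exact Subtype.ext hxy
      · rintro x ⟨hx, hx'⟩
        refine ⟨⟨x, hx'⟩, ?_, rfl⟩
        apply Subtype.ext
        show sg (ρ x) = sg (S.α x)
        rw [hx]
    show {d : TD V b | rT ρ h1 h2 h4 b d = sT S hS.alt b d}.ncard = 2
    omega

end

end Pool.Agent.Helper75.Lamm
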