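import Pool.Agent.Helper65.LK.PathWord
import Pool.Agent.Helper75.Lamm.PotEx
import Pool.Agent.Helper75.Lamm.Std

/-!
# The blocks of the diagram of a word

`word_blocks`: the potential differences of the tangle of a word in block form; `dia_blocks`: those
of the diagram.
-/

namespace Pool.Agent.Helper75.Lamm

open Finset Pool.Agent.Helper65.LK

/-- potential differences of a tangle in block form, with total difference `δ` -/
def SS {L : Type} [Fintype L] (β : L → ℕ) (i n : ℕ) (u : L → ℤ) (δ : ℤ) : Prop :=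
  ∃ V : ℕ → ℤ, (if i % 2 = 0 then V (i + 1) else V i) = δ ∧ V (n + 1) = 0 ∧
    (∀ x, β x % 2 = 0 → u x = V (β x + 1)) ∧
    ∀ j, i ≤ j → j < n → j % 2 = 1 → (∑ x, if β x = j then u x else 0) = V j - V (j + 2)

/-- one more crossing -/
def addB {L : Type} (m : ℕ) (β : L → ℕ) (x : Unit ⊕ L) : ℕ := Sum.elim (fun _ => m) β x

theorem sum_addB {L : Type} [Fintype L] (m j : ℕ) (β : L → ℕ) (u : Unit ⊕ L → ℤ) :
    (∑ x, if addB m β x = j then u x else 0) = (if m = j then u (Sum.inl ()) else 0) +
      ∑ x, if β x = j then u (Sum.inr x) else 0 := by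
  rw [Fintype.sum_sum_type]
  simp [addB]
  rfl

/-- a crossing in parallel, same block -/
theorem SS.h_same {L : Type} [Fintype L] {β : L → ℕ} {i n : ℕ} (hi : i % 2 = 0)
    (u : Unit ⊕ L → ℤ) (δ : ℤ) :
    (u (Sum.inl ()) = δ ∧ SS β i n (fun x => u (Sum.inr x)) δ) ↔ SS (addB i β) i n u δ := by
  constructor
  · rintro ⟨h0, V, h1, h2, h3, h4⟩
    rw [if_pos hi] at h1
    refine ⟨V, by rw [if_pos hi]; exact h1, h2, ?_, ?_⟩
    · rintro (x | x) hx
      · show u (Sum.inl ()) = V (i + 1)
        rw [h0, h1]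
      · exact h3 x hx
    · intro j hj hjn hj2
      rw [sum_addB, if_neg (by omega), zero_add]
      exact h4 j hj hjn hj2
  · rintro ⟨V, h1, h2, h3, h4⟩
    rw [if_pos hi] at h1
    refine ⟨?_, V, by rw [if_pos hi]; exact h1, h2, fun x hx => h3 (Sum.inr x) hx, ?_⟩
    · have := h3 (Sum.inl ()) hi
      rw [this]
      exact h1
    · intro j hj hjn hj2
      have := h4 j hj hjn hj2
      rw [sum_addB, if_neg (by omega), zero_add] at this
      exact this

/-- a crossing in series, same block -/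
theorem SS.v_same {L : Type} [Fintype L] {β : L → ℕ} {i n : ℕ} (hi : i % 2 = 1)
    (hβ : ∀ x, i ≤ β x) (hn : i ≤ n) (u : Unit ⊕ L → ℤ) (δ : ℤ) :
    (∃ δ₁ δ₂, u (Sum.inl ()) = δ₁ ∧ SS β i n (fun x => u (Sum.inr x)) δ₂ ∧ δ₁ + δ₂ = δ) ↔
      SS (addB i β) i n u δ := by
  constructor
  · rintro ⟨δ₁, δ₂, h0, ⟨V, h1, h2, h3, h4⟩, h5⟩
    rw [if_neg (by omega)] at h1
    refine ⟨Function.update V i δ, by rw [if_neg (by omega), Function.update_self], ?_, ?_, ?_⟩
    · rw [Function.update_of_ne (by omega)]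
      exact h2
    · rintro (x | x) hx
      · exfalso
        have h6 : i % 2 = 0 := hx
        omega
      · have h6 := hβ x
        show u (Sum.inr x) = Function.update V i δ (β x + 1)
        rw [Function.update_of_ne (by omega)]
        exact h3 x hx
    · intro j hj hjn hj2
      rw [sum_addB, h4 j hj hjn hj2, Function.update_of_ne (by omega : j + 2 ≠ i)]
      by_cases hij : i = j
      · subst hij
        rw [if_pos rfl, Function.update_self, h1]
        linarith
      · rw [if_neg hij, Function.update_of_ne (by omega), zero_add]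
  · rintro ⟨V, h1, h2, h3, h4⟩
    rw [if_neg (by omega)] at h1
    refine ⟨u (Sum.inl ()), δ - u (Sum.inl ()), rfl,
      ⟨Function.update V i (δ - u (Sum.inl ())), by rw [if_neg (by omega), Function.update_self],
        ?_, ?_, ?_⟩, by ring⟩
    · rw [Function.update_of_ne (by omega)]
      exact h2
    · intro x hx
      have h6 := hβ x
      rw [Function.update_of_ne (by omega)]
      exact h3 (Sum.inr x) hx
    · intro j hj hjn hj2
      have h7 := h4 j hj hjn hj2
      rw [sum_addB] at h7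
      rw [Function.update_of_ne (by omega : j + 2 ≠ i)]
      by_cases hij : i = j
      · subst hij
        rw [if_pos rfl] at h7
        rw [Function.update_self]
        linarith
      · rw [if_neg hij, zero_add] at h7
        rw [Function.update_of_ne (by omega)]
        exact h7

/-- a crossing in series, new block -/
theorem SS.v_new {L : Type} [Fintype L] {β : L → ℕ} {i n : ℕ} (hi : i % 2 = 0)
    (hβ : ∀ x, i + 1 ≤ β x) (hn : i + 1 ≤ n) (u : Unit ⊕ L → ℤ) (δ : ℤ) :
    (∃ δ₁ δ₂, u (Sum.inl ()) = δ₁ ∧ SS β (i + 1) n (fun x => u (Sum.inr x)) δ₂ ∧ δ₁ + δ₂ = δ) ↔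
      SS (addB (i + 1) β) i n u δ := by
  rw [SS.v_same (by omega) hβ hn]
  constructor
  · rintro ⟨V, h1, h2, h3, h4⟩
    rw [if_neg (by omega)] at h1
    refine ⟨V, by rw [if_pos hi]; exact h1, h2, h3, ?_⟩
    intro j hj hjn hj2
    exact h4 j (by omega) hjn hj2
  · rintro ⟨V, h1, h2, h3, h4⟩
    rw [if_pos hi] at h1
    refine ⟨V, by rw [if_neg (by omega)]; exact h1, h2, h3, ?_⟩
    intro j hj hjn hj2
    exact h4 j (by omega) hjn hj2

/-- a crossing in parallel, new block -/
theorem SS.h_new {L : Type} [Fintype L] {β : L → ℕ} {i n : ℕ} (hi : i % 2 = 1)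
    (hβ : ∀ x, i + 1 ≤ β x) (hn : i + 1 ≤ n) (u : Unit ⊕ L → ℤ) (δ : ℤ) :
    (u (Sum.inl ()) = δ ∧ SS β (i + 1) n (fun x => u (Sum.inr x)) δ) ↔
      SS (addB (i + 1) β) i n u δ := by
  rw [SS.h_same (by omega)]
  have hβ' : ∀ x, i + 1 ≤ addB (i + 1) β x := by
    rintro (x | x)
    · exact le_refl _
    · exact hβ x
  have hz : (∑ x, if addB (i + 1) β x = i then u x else 0) = 0 := by
    apply Finset.sum_eq_zero
    intro x _
    have := hβ' x
    rw [if_neg (by omega)]
  constructor
  · rintro ⟨V, h1, h2, h3, h4⟩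
    rw [if_pos (by omega)] at h1
    refine ⟨Function.update V i δ, by rw [if_neg (by omega), Function.update_self], ?_, ?_, ?_⟩
    · rw [Function.update_of_ne (by omega)]
      exact h2
    · intro x hx
      have := hβ' x
      rw [Function.update_of_ne (by omega)]
      exact h3 x hx
    · intro j hj hjn hj2
      rw [Function.update_of_ne (by omega : j + 2 ≠ i)]
      by_cases hij : i = j
      · subst hij
        rw [hz, Function.update_self]
        have : V (i + 2) = δ := h1
        rw [this, sub_self]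
      · rw [Function.update_of_ne (by omega)]
        exact h4 j (by omega) hjn hj2
  · rintro ⟨V, h1, h2, h3, h4⟩
    rw [if_neg (by omega)] at h1
    refine ⟨V, ?_, h2, h3, ?_⟩
    · rw [if_pos (by omega)]
      have h5 := h4 i (le_refl _) (by omega) hi
      rw [hz] at h5
      show V (i + 2) = δ
      linarith
    · intro j hj hjn hj2
      exact h4 j (by omega) hjn hj2

theorem blocks_len (w : List (ZMod 4)) : ∀ (b : Bool) (k : ℕ), 1 ≤ (blocks w b k).length := by
  induction w with
  | nil => intro b k; simp [blocks]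
  | cons p w ih =>
    intro b k
    unfold blocks
    split_ifs
    · exact ih _ _
    · simp

theorem SS.swap {L : Type} [Fintype L] (m : ℕ) (β : L → ℕ) (i n : ℕ) (u : L ⊕ Unit → ℤ) (δ : ℤ) :
    SS (Sum.elim β (fun _ => m)) i n u δ ↔ SS (addB m β) i n (fun x => u x.swap) δ := by
  have hs : ∀ j, (∑ x, if (Sum.elim β (fun _ => m) : L ⊕ Unit → ℕ) x = j then u x else 0) =
      ∑ x, if addB m β x = j then u x.swap else 0 := by
    intro j
    rw [sum_addB, Fintype.sum_sum_type]
    simp [add_comm]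
    rfl
  unfold SS
  constructor
  · rintro ⟨V, h1, h2, h3, h4⟩
    refine ⟨V, h1, h2, ?_, ?_⟩
    · rintro (x | x) hx
      · exact h3 (Sum.inr x) hx
      · exact h3 (Sum.inl x) hx
    · intro j hj hjn hj2
      rw [← hs]
      exact h4 j hj hjn hj2
  · rintro ⟨V, h1, h2, h3, h4⟩
    refine ⟨V, h1, h2, ?_, ?_⟩
    · rintro (x | x) hx
      · exact h3 (Sum.inr x) hx
      · exact h3 (Sum.inl x) hx
    · intro j hj hjn hj2
      rw [hs]
      exact h4 j hj hjn hj2

/-- the block structure on an expression -/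
def Blk (E : Ex) (i : ℕ) (s : List ℕ) (k : ℕ) : Prop :=
  ∃ β : E.Lv → ℕ, (∀ x, i ≤ β x ∧ β x < i + s.length) ∧
    (∀ j, (∑ x, if β x = i + j then 1 else 0) + (if j = 0 then k else 0) = s.getD j 0) ∧
    ∀ u δ, DD E u δ ↔ SS β i (i + s.length) u δ

theorem blk_leaf (i k : ℕ) : Blk Ex.leaf i [k + 1] k := by
  refine ⟨fun _ => i, fun _ => ⟨le_refl _, by simp⟩, ?_, ?_⟩
  · intro j
    rcases j with _ | j
    · show (∑ x : Unit, if i = i + 0 then 1 else 0) + _ = _
      simp
      ring
    · show (∑ x : Unit, if i = i + (j + 1) then 1 else 0) + _ = _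
      simp
  · intro u δ
    show u () = δ ↔ _
    constructor
    · intro h
      obtain ⟨V, hV1, hV2⟩ : ∃ V : ℕ → ℤ, (∀ m, m ≤ i + 1 → V m = δ) ∧ ∀ m, i + 1 < m → V m = 0 :=
        ⟨fun m => if m ≤ i + 1 then δ else 0, fun m hm => if_pos hm,
          fun m hm => if_neg (by omega)⟩
      refine ⟨V, ?_, ?_, ?_, ?_⟩
      · split_ifs
        · exact hV1 _ (le_refl _)
        · exact hV1 _ (by omega)
      · exact hV2 _ (by simp)
      · rintro x _
        rw [hV1 (i + 1) (le_refl _)]
        exact h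
      · intro j hj hjn hj2
        have hji : j = i := by
          simp at hjn
          omega
        subst hji
        rw [hV1 j (by omega), hV2 (j + 2) (by omega)]
        show (∑ x : Unit, if j = j then u x else 0) = _
        simpa using h
    · rintro ⟨V, h1, h2, h3, h4⟩
      have h2' : V (i + 2) = 0 := h2
      by_cases hi : i % 2 = 0
      · rw [if_pos hi] at h1
        rw [← h1]
        exact h3 () hi
      · rw [if_neg hi] at h1
        have h5 := h4 i (le_refl _) (by simp) (by omega)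
        rw [h1, h2', sub_zero] at h5
        rw [← h5]
        show u () = ∑ x : Unit, if i = i then u x else 0
        simp

theorem sum_swap {L : Type} [Fintype L] (m j : ℕ) (β : L → ℕ) :
    (∑ x : L ⊕ Unit, if (Sum.elim β (fun _ => m) : L ⊕ Unit → ℕ) x = j then 1 else 0) =
      ∑ x, if addB m β x = j then 1 else 0 := by
  rw [Fintype.sum_sum_type, Fintype.sum_sum_type, add_comm]
  rfl

theorem elim_le {L : Type} {i n m : ℕ} {β : L → ℕ} (hb : ∀ x, i ≤ addB m β x ∧ addB m β x < n)
    (x : L ⊕ Unit) : i ≤ (Sum.elim β (fun _ => m) : L ⊕ Unit → ℕ) x ∧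
      (Sum.elim β (fun _ => m) : L ⊕ Unit → ℕ) x < n := by
  rcases x with x | x
  · exact hb (Sum.inr x)
  · exact hb (Sum.inl ())

theorem blk_hh {E : Ex} {i m k : ℕ} {s : List ℕ} {β : E.Lv → ℕ}
    (hb : ∀ x, i ≤ addB m β x ∧ addB m β x < i + s.length)
    (hc : ∀ j, (∑ x, if addB m β x = i + j then 1 else 0) + (if j = 0 then k else 0) =
      s.getD j 0)
    (hD : ∀ (u : Unit ⊕ E.Lv → ℤ) (δ : ℤ),
      (u (Sum.inl ()) = δ ∧ DD E (fun x => u (Sum.inr x)) δ) ↔
        SS (addB m β) i (i + s.length) u δ) :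
    Blk (Ex.h Ex.leaf E) i s k ∧ Blk (Ex.h E Ex.leaf) i s k := by
  refine ⟨⟨addB m β, hb, hc, hD⟩, ⟨Sum.elim β (fun _ => m), elim_le hb, ?_, ?_⟩⟩
  · intro j
    have h1 := sum_swap m (i + j) β
    have h2 := hc j
    rw [← h1] at h2
    exact h2
  · intro u δ
    have h1 := SS.swap m β i (i + s.length) u δ
    rw [← hD] at h1
    show (DD E (fun x => u (Sum.inl x)) δ ∧ u (Sum.inr ()) = δ) ↔ _
    rw [and_comm]
    exact h1.symm

theorem blk_vv {E : Ex} {i m k : ℕ} {s : List ℕ} {β : E.Lv → ℕ}
    (hb : ∀ x, i ≤ addB m β x ∧ addB m β x < i + s.length)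
    (hc : ∀ j, (∑ x, if addB m β x = i + j then 1 else 0) + (if j = 0 then k else 0) =
      s.getD j 0)
    (hD : ∀ (u : Unit ⊕ E.Lv → ℤ) (δ : ℤ),
      (∃ δ₁ δ₂, u (Sum.inl ()) = δ₁ ∧ DD E (fun x => u (Sum.inr x)) δ₂ ∧ δ₁ + δ₂ = δ) ↔
        SS (addB m β) i (i + s.length) u δ) :
    Blk (Ex.v Ex.leaf E) i s k ∧ Blk (Ex.v E Ex.leaf) i s k := by
  refine ⟨⟨addB m β, hb, hc, fun u δ => ?_⟩, ⟨Sum.elim β (fun _ => m), elim_le hb, ?_, ?_⟩⟩
  · refine Iff.trans ?_ (hD u δ)
    show (∃ δ₁ δ₂, δ₁ + δ₂ = δ ∧ u (Sum.inl ()) = δ₁ ∧ DD E (fun x => u (Sum.inr x)) δ₂) ↔ _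
    constructor
    · rintro ⟨a, b, h1, h2, h3⟩
      exact ⟨a, b, h2, h3, h1⟩
    · rintro ⟨a, b, h1, h2, h3⟩
      exact ⟨a, b, h3, h1, h2⟩
  · intro j
    have h1 := sum_swap m (i + j) β
    have h2 := hc j
    rw [← h1] at h2
    exact h2
  · intro u δ
    have h1 := SS.swap m β i (i + s.length) u δ
    rw [← hD] at h1
    refine Iff.trans ?_ h1.symm
    show (∃ δ₁ δ₂, δ₁ + δ₂ = δ ∧ DD E (fun x => u (Sum.inl x)) δ₁ ∧ u (Sum.inr ()) = δ₂) ↔ _
    constructor
    · rintro ⟨a, b, h1, h2, h3⟩
      exact ⟨b, a, h3, h2, by rw [add_comm]; exact h1⟩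
    · rintro ⟨a, b, h1, h2, h3⟩
      exact ⟨b, a, by rw [add_comm]; exact h3, h2, h1⟩

/-- counting, same block -/
theorem count_same {L : Type} [Fintype L] {β : L → ℕ} {i k : ℕ} {s : List ℕ}
    (h : ∀ j, (∑ x, if β x = i + j then 1 else 0) + (if j = 0 then k + 1 else 0) = s.getD j 0)
    (j : ℕ) : (∑ x, if addB i β x = i + j then 1 else 0) + (if j = 0 then k else 0) =
      s.getD j 0 := by
  rw [← h j, Fintype.sum_sum_type]
  have h1 : (∑ x : Unit, if addB i β (Sum.inl x) = i + j then 1 else 0) =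
      if j = 0 then 1 else 0 := by
    show (∑ x : Unit, if i = i + j then 1 else 0) = _
    rw [Fintype.sum_unique]
    by_cases hj : j = 0
    · rw [if_pos hj, if_pos (by omega)]
    · rw [if_neg hj, if_neg (by omega)]
  rw [h1]
  show _ + (∑ x, if β x = i + j then 1 else 0) + _ = _
  split_ifs <;> ring

/-- counting, new block -/
theorem count_new {L : Type} [Fintype L] {β : L → ℕ} {i k : ℕ} {s : List ℕ}
    (hβ : ∀ x, i + 1 ≤ β x)
    (h : ∀ j, (∑ x, if β x = i + 1 + j then 1 else 0) + (if j = 0 then 1 else 0) = s.getD j 0)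
    (j : ℕ) : (∑ x, if addB (i + 1) β x = i + j then 1 else 0) + (if j = 0 then k else 0) =
      (k :: s).getD j 0 := by
  have h1 : (∑ x : Unit, if addB (i + 1) β (Sum.inl x) = i + j then 1 else 0) =
      if j = 1 then 1 else 0 := by
    show (∑ x : Unit, if i + 1 = i + j then 1 else 0) = _
    rw [Fintype.sum_unique]
    by_cases hj : j = 1
    · rw [if_pos hj, if_pos (by omega)]
    · rw [if_neg hj, if_neg (by omega)]
  rw [Fintype.sum_sum_type, h1]
  rcases j with _ | j
  · rw [List.getD_cons_zero, if_neg (by omega), if_pos rfl]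
    have h2 : (∑ x, if addB (i + 1) β (Sum.inr x) = i + 0 then 1 else 0) = 0 := by
      apply Finset.sum_eq_zero
      intro x _
      have := hβ x
      show (if β x = i + 0 then 1 else 0) = 0
      rw [if_neg (by omega)]
    rw [h2]
    ring
  · rw [List.getD_cons_succ, ← h j, if_neg (by omega : ¬ j + 1 = 0), add_zero]
    have h3 : ∀ x, (if addB (i + 1) β (Sum.inr x) = i + (j + 1) then 1 else 0) =
        (if β x = i + 1 + j then 1 else 0) := by
      intro x
      have h4 : i + (j + 1) = i + 1 + j := by omega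
      rw [h4]
      rfl
    rw [Finset.sum_congr rfl (fun x _ => h3 x), add_comm]
    congr 1
    by_cases hj : j = 0
    · rw [if_pos (by omega), if_pos hj]
    · rw [if_neg (by omega), if_neg hj]

theorem addB_bd {L : Type} {β : L → ℕ} {i n m : ℕ} (hm : i ≤ m ∧ m < n)
    (h : ∀ x, i ≤ β x ∧ β x < n) (x : Unit ⊕ L) : i ≤ addB m β x ∧ addB m β x < n := by
  rcases x with x | x
  · exact hm
  · exact h x

theorem Blk.step_same {E : Ex} {i k : ℕ} {s : List ℕ} (hs : 1 ≤ s.length)
    (h : Blk E i s (k + 1)) {p : ZMod 4} (hp : i % 2 = 0 ↔ par p = true) :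
    Blk (addLeaf p E) i s k := by
  obtain ⟨β, hb, hc, hD⟩ := h
  have hb' := addB_bd (m := i) ⟨le_refl _, by omega⟩ hb
  have hc' := count_same hc
  have hH : i % 2 = 0 → Blk (Ex.h Ex.leaf E) i s k ∧ Blk (Ex.h E Ex.leaf) i s k := by
    intro hi
    refine blk_hh hb' hc' (fun u δ => ?_)
    rw [← SS.h_same hi, hD]
  have hV : i % 2 = 1 → Blk (Ex.v Ex.leaf E) i s k ∧ Blk (Ex.v E Ex.leaf) i s k := by
    intro hi
    refine blk_vv hb' hc' (fun u δ => ?_)
    rw [← SS.v_same hi (fun x => (hb x).1) (by omega)]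
    simp only [hD]
  unfold addLeaf
  have key : ∀ p : ZMod 4, (p = 0 ∨ p = 1 ∨ p = 2 ∨ p = 3) := by decide
  rcases key p with rfl | rfl | rfl | rfl
  · rw [if_pos rfl]
    have h1 : par 0 = false := by decide
    rw [h1] at hp
    exact (hV (by simp at hp; omega)).1
  · rw [if_neg (by decide), if_pos rfl]
    have h1 : par 1 = true := by decide
    exact (hH (hp.2 h1)).1
  · rw [if_neg (by decide), if_neg (by decide), if_pos rfl]
    have h1 : par 2 = false := by decide
    rw [h1] at hp
    exact (hV (by simp at hp; omega)).2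
  · rw [if_neg (by decide), if_neg (by decide), if_neg (by decide)]
    have h1 : par 3 = true := by decide
    exact (hH (hp.2 h1)).2

theorem Blk.step_new {E : Ex} {i k : ℕ} {s : List ℕ} (hs : 1 ≤ s.length)
    (h : Blk E (i + 1) s 1) {p : ZMod 4} (hp : i % 2 = 1 ↔ par p = true) :
    Blk (addLeaf p E) i (k :: s) k := by
  obtain ⟨β, hb, hc, hD⟩ := h
  have hl : i + 1 + s.length = i + (k :: s).length := by
    rw [List.length_cons]
    omega
  have hb' : ∀ x, i ≤ addB (i + 1) β x ∧ addB (i + 1) β x < i + (k :: s).length :=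
    addB_bd (m := i + 1) ⟨by omega, by rw [← hl]; omega⟩ (fun x => ⟨by have := hb x; omega, by
      have := hb x; rw [← hl]; omega⟩)
  have hc' := count_new (k := k) (fun x => (hb x).1) hc
  have hH : i % 2 = 1 → Blk (Ex.h Ex.leaf E) i (k :: s) k ∧ Blk (Ex.h E Ex.leaf) i (k :: s) k := by
    intro hi
    refine blk_hh hb' hc' (fun u δ => ?_)
    rw [← SS.h_new hi (fun x => (hb x).1) (by omega), hD, hl]
  have hV : i % 2 = 0 → Blk (Ex.v Ex.leaf E) i (k :: s) k ∧ Blk (Ex.v E Ex.leaf) i (k :: s) k := by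
    intro hi
    refine blk_vv hb' hc' (fun u δ => ?_)
    rw [← SS.v_new hi (fun x => (hb x).1) (by omega)]
    simp only [hD, hl]
  unfold addLeaf
  have key : ∀ p : ZMod 4, (p = 0 ∨ p = 1 ∨ p = 2 ∨ p = 3) := by decide
  rcases key p with rfl | rfl | rfl | rfl
  · rw [if_pos rfl]
    have h1 : par 0 = false := by decide
    rw [h1] at hp
    exact (hV (by simp at hp; omega)).1
  · rw [if_neg (by decide), if_pos rfl]
    have h1 : par 1 = true := by decide
    exact (hH (hp.2 h1)).1
  · rw [if_neg (by decide), if_neg (by decide), if_pos rfl]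
    have h1 : par 2 = false := by decide
    rw [h1] at hp
    exact (hV (by simp at hp; omega)).2
  · rw [if_neg (by decide), if_neg (by decide), if_neg (by decide)]
    have h1 : par 3 = true := by decide
    exact (hH (hp.2 h1)).2

/-- the blocks of the tangle of a word -/
theorem word_blocks (w : List (ZMod 4)) : ∀ (b : Bool) (i k : ℕ), (i % 2 = 0 ↔ b = true) →
    Blk (PW w) i (blocks w b k) k := by
  induction w with
  | nil =>
    intro b i k _
    exact blk_leaf i k
  | cons p w ih =>
    intro b i k hi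
    show Blk (addLeaf p (PW w)) i (blocks (p :: w) b k) k
    unfold blocks
    by_cases hb : b = par p
    · rw [if_pos hb]
      exact (ih b i (k + 1) hi).step_same (blocks_len _ _ _) (by rw [hi, hb])
    · rw [if_neg hb]
      refine (ih (!b) (i + 1) 1 ?_).step_new (blocks_len _ _ _) ?_
      · cases b
        · simp at hi ⊢
          omega
        · simp at hi ⊢
          omega
      · revert hb hi
        cases b <;> cases par p <;> simp

theorem sum_leaf {A : Type} [AddCommMonoid A] (f : Ex.leaf.Lv → A) : ∑ x, f x = f () :=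
  Fintype.sum_unique (ι := Unit) f

/-- The potential differences of the diagram of a word in block form. -/
theorem dia_blocks (w : List (ZMod 4)) :
    ∃ β : (PW w).Lv ⊕ Ex.leaf.Lv → ℕ, (∀ x, β x < (expansion w).length) ∧
      (∀ j, (blk β j).card = (expansion w).getD j 0) ∧
      ∀ u : (PW w).Lv ⊕ Ex.leaf.Lv → ℤ,
        (∃ p : Dart ((PW w).Lv ⊕ Ex.leaf.Lv) → ℤ,
          (∀ x, par x.2 = true → p (sg (((PW w).dia Ex.leaf).α x)) = p x) ∧
          ∀ v, u v = p (v, 1) - p (v, 3)) ↔ Std β (expansion w).length 1 u := by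
  obtain ⟨β, hb, hc, hD⟩ := word_blocks w true 0 1 (by simp)
  have hexp : blocks w true 1 = expansion w := rfl
  rw [hexp] at hb hc hD
  have hlen : 1 ≤ (expansion w).length := blocks_len w true 1
  refine ⟨Sum.elim β (fun _ => 0), ?_, ?_, ?_⟩
  · rintro (x | x)
    · have := (hb x).2
      rw [zero_add] at this
      exact this
    · exact hlen
  · intro j
    have h1 := hc j
    rw [zero_add] at h1
    rw [← h1]
    unfold blk
    rw [Finset.card_filter, Fintype.sum_sum_type]
    rw [sum_leaf]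
    show (∑ x, if β x = j then 1 else 0) + (if 0 = j then 1 else 0) = _
    congr 1
    by_cases hj : j = 0
    · rw [if_pos hj.symm, if_pos hj]
    · rw [if_neg (Ne.symm hj), if_neg hj]
  · intro u
    rw [dia_pot]
    have hsum : ∀ j, j % 2 = 1 → ∑ e ∈ blk (Sum.elim β (fun _ => 0)) j, u e =
        ∑ x, if β x = j then u (Sum.inl x) else 0 := by
      intro j hj
      unfold blk
      rw [Finset.sum_filter, Fintype.sum_sum_type, sum_leaf]
      show (∑ x, if β x = j then u (Sum.inl x) else 0) + (if 0 = j then u (Sum.inr ()) else 0) = _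
      rw [if_neg (by omega), add_zero]
    constructor
    · rintro ⟨δ, h1, h2⟩
      obtain ⟨V, g1, g2, g3, g4⟩ := (hD _ _).1 h1
      rw [if_pos rfl] at g1
      rw [zero_add] at g2 g4
      refine ⟨Function.update V 0 0, Function.update_self _ _ _, ?_, ?_, ?_⟩
      · rw [Function.update_of_ne (by omega)]
        exact g2
      · rintro (x | x) hx
        · rw [Function.update_of_ne (by omega)]
          have hx' : β x % 2 ≠ 1 := hx
          exact g3 x (by omega)
        · rw [Function.update_of_ne (by omega)]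
          exact h2.trans g1.symm
      · intro j hj hj2
        rw [hsum j hj2, Function.update_of_ne (by omega), Function.update_of_ne (by omega)]
        exact g4 j (by omega) hj hj2
    · rintro ⟨V, g0, g2, g3, g4⟩
      refine ⟨V 1, (hD _ _).2 ⟨V, by rw [if_pos rfl], by rw [zero_add]; exact g2, ?_, ?_⟩, ?_⟩
      · intro x hx
        exact g3 (Sum.inl x) (by
          show β x % 2 ≠ 1
          omega)
      · intro j _ hj hj2
        rw [zero_add] at hj
        rw [← hsum j hj2]
        exact g4 j hj hj2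
      · exact g3 (Sum.inr ()) (by
          show 0 % 2 ≠ 1
          omega)

end Pool.Agent.Helper75.Lamm
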